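import Mathlib

/-!
# Monotone paths on a sphere

The cut inequality for the weights `∑ c, v c i * v c j` which come from a path of points of
`ℝ ^ C` of constant norm whose coordinates decrease.
-/

set_option autoImplicit false

namespace Pool.Agent.H62.DC

open Finset

/-- The identity for one clique: `f` is the coordinate, `v i = (f i - f (i + 1)) / 2`. -/
theorem one_clique (f x : ℕ → ℝ) (hx : ∀ i, x i ^ 2 = 1) (N : ℕ) :
    ∑ j ∈ range N, ∑ i ∈ range j, ((f i - f (i + 1)) / 2) * ((f j - f (j + 1)) / 2) *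
        ((1 + x i) * (1 - x j) - 1) =
      (1 / 4) * ∑ i ∈ range N, x i * (f i ^ 2 - f (i + 1) ^ 2)
      - (1 / 2) * (f 0 + f N) * ∑ i ∈ range N, x i * ((f i - f (i + 1)) / 2)
      - (1 / 2) * (∑ i ∈ range N, x i * ((f i - f (i + 1)) / 2)) ^ 2
      + (1 / 2) * ∑ i ∈ range N, ((f i - f (i + 1)) / 2) ^ 2 := by
  have hP : ∀ n, ∑ i ∈ range n, ((f i - f (i + 1)) / 2) = (f 0 - f n) / 2 := by
    intro n
    induction n with
    | zero => simp
    | succ n ih => rw [sum_range_succ, ih]; ring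
  induction N with
  | zero => simp
  | succ n ih =>
    rw [sum_range_succ, ih, sum_range_succ, sum_range_succ, sum_range_succ]
    have h1 : ∑ i ∈ range n, ((f i - f (i + 1)) / 2) * ((f n - f (n + 1)) / 2) *
        ((1 + x i) * (1 - x n) - 1) =
        ((f n - f (n + 1)) / 2) * (1 - x n) * ∑ i ∈ range n, x i * ((f i - f (i + 1)) / 2)
        - ((f n - f (n + 1)) / 2) * x n * ∑ i ∈ range n, ((f i - f (i + 1)) / 2) := by
      rw [mul_sum, mul_sum, ← sum_sub_distrib]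
      refine sum_congr rfl fun i _ => ?_
      ring
    rw [h1, hP n]
    set S := ∑ i ∈ range n, x i * ((f i - f (i + 1)) / 2)
    have h2 := hx n
    have h3 : ((f n - f (n + 1)) / 2) ^ 2 * x n ^ 2 = ((f n - f (n + 1)) / 2) ^ 2 := by
      rw [h2, mul_one]
    linear_combination (1 / 2) * h3

/-- The cut inequality for one clique. -/
theorem one_clique_le (f x : ℕ → ℝ) (hx : ∀ i, x i ^ 2 = 1) (N : ℕ) :
    ∑ j ∈ range N, ∑ i ∈ range j, ((f i - f (i + 1)) / 2) * ((f j - f (j + 1)) / 2) *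
        ((1 + x i) * (1 - x j) - 1) ≤
      (1 / 4) * ∑ i ∈ range N, x i * (f i ^ 2 - f (i + 1) ^ 2)
      + (1 / 8) * (f 0 + f N) ^ 2 + (1 / 8) * ∑ i ∈ range N, (f i - f (i + 1)) ^ 2 := by
  rw [one_clique f x hx N]
  have h1 : ∑ i ∈ range N, ((f i - f (i + 1)) / 2) ^ 2 =
      (1 / 4) * ∑ i ∈ range N, (f i - f (i + 1)) ^ 2 := by
    rw [mul_sum]
    refine sum_congr rfl fun i _ => ?_
    ring
  rw [h1]
  set S := ∑ i ∈ range N, x i * ((f i - f (i + 1)) / 2)
  nlinarith [sq_nonneg (S + (f 0 + f N) / 2)]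

/-- The weight between the times `i < j`. -/
noncomputable def W (C : ℕ) (f : ℕ → ℕ → ℝ) (i j : ℕ) : ℝ :=
  ∑ c ∈ range C, ((f i c - f (i + 1) c) / 2) * ((f j c - f (j + 1) c) / 2)

/-- The total weight of a path. -/
theorem total_W (C : ℕ) (f : ℕ → ℕ → ℝ) (N : ℕ) :
    ∑ j ∈ range N, ∑ i ∈ range j, W C f i j =
      (1 / 8) * (∑ c ∈ range C, (f 0 c - f N c) ^ 2 -
        ∑ i ∈ range N, ∑ c ∈ range C, (f i c - f (i + 1) c) ^ 2) := by
  induction N with
  | zero => simp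
  | succ n ih =>
    rw [sum_range_succ, ih, sum_range_succ]
    have h1 : ∑ i ∈ range n, W C f i n =
        ∑ c ∈ range C, ((f 0 c - f n c) / 2) * ((f n c - f (n + 1) c) / 2) := by
      unfold W
      rw [sum_comm]
      refine sum_congr rfl fun c _ => ?_
      rw [← sum_mul]
      congr 1
      have : ∀ m, ∑ i ∈ range m, ((f i c - f (i + 1) c) / 2) = (f 0 c - f m c) / 2 := by
        intro m
        induction m with
        | zero => simp
        | succ m ih => rw [sum_range_succ, ih]; ring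
      exact this n
    rw [h1]
    have h2 : ∑ c ∈ range C, (f 0 c - f (n + 1) c) ^ 2 =
        ∑ c ∈ range C, (f 0 c - f n c) ^ 2 +
        8 * ∑ c ∈ range C, ((f 0 c - f n c) / 2) * ((f n c - f (n + 1) c) / 2) +
        ∑ c ∈ range C, (f n c - f (n + 1) c) ^ 2 := by
      rw [mul_sum, ← sum_add_distrib, ← sum_add_distrib]
      refine sum_congr rfl fun c _ => ?_
      ring
    rw [h2]
    ring

/-- The cut inequality for a path on a sphere; `x i = 1` for the tails, `x i = -1` for the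
heads. -/
theorem path_cut (C : ℕ) (f : ℕ → ℕ → ℝ) (N : ℕ)
    (hs : ∀ i < N, ∑ c ∈ range C, (f (i + 1) c) ^ 2 = ∑ c ∈ range C, (f i c) ^ 2)
    (x : ℕ → ℝ) (hx : ∀ i, x i ^ 2 = 1) :
    ∑ j ∈ range N, ∑ i ∈ range j, W C f i j * ((1 + x i) * (1 - x j) / 4) ≤
      (1 / 4) * ∑ j ∈ range N, ∑ i ∈ range j, W C f i j +
      (1 / 32) * (∑ i ∈ range N, ∑ c ∈ range C, (f i c - f (i + 1) c) ^ 2 +
        ∑ c ∈ range C, (f 0 c + f N c) ^ 2) := by
  have h1 : ∀ c ∈ range C,
      ∑ j ∈ range N, ∑ i ∈ range j, ((f i c - f (i + 1) c) / 2) * ((f j c - f (j + 1) c) / 2) *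
        ((1 + x i) * (1 - x j) - 1) ≤
      (1 / 4) * ∑ i ∈ range N, x i * ((f i c) ^ 2 - (f (i + 1) c) ^ 2)
      + (1 / 8) * (f 0 c + f N c) ^ 2 + (1 / 8) * ∑ i ∈ range N, (f i c - f (i + 1) c) ^ 2 :=
    fun c _ => one_clique_le (fun i => f i c) x hx N
  have h2 := sum_le_sum h1
  have h3 : ∑ c ∈ range C, ((1 / 4) * ∑ i ∈ range N, x i * ((f i c) ^ 2 - (f (i + 1) c) ^ 2)
      + (1 / 8) * (f 0 c + f N c) ^ 2 + (1 / 8) * ∑ i ∈ range N, (f i c - f (i + 1) c) ^ 2) =
      (1 / 8) * (∑ i ∈ range N, ∑ c ∈ range C, (f i c - f (i + 1) c) ^ 2 +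
        ∑ c ∈ range C, (f 0 c + f N c) ^ 2) := by
    rw [sum_add_distrib, sum_add_distrib, ← mul_sum, ← mul_sum, ← mul_sum]
    have h4 : ∑ c ∈ range C, ∑ i ∈ range N, x i * ((f i c) ^ 2 - (f (i + 1) c) ^ 2) = 0 := by
      rw [sum_comm]
      refine sum_eq_zero fun i hi => ?_
      rw [← mul_sum, sum_sub_distrib, hs i (mem_range.1 hi)]
      ring
    rw [h4, sum_comm (s := range C) (t := range N)]
    ring
  rw [h3] at h2
  have h5 : ∑ c ∈ range C, ∑ j ∈ range N, ∑ i ∈ range j,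
      ((f i c - f (i + 1) c) / 2) * ((f j c - f (j + 1) c) / 2) * ((1 + x i) * (1 - x j) - 1) =
      ∑ j ∈ range N, ∑ i ∈ range j, W C f i j * ((1 + x i) * (1 - x j) - 1) := by
    rw [sum_comm]
    refine sum_congr rfl fun j _ => ?_
    rw [sum_comm]
    refine sum_congr rfl fun i _ => ?_
    unfold W
    rw [sum_mul]
  rw [h5] at h2
  have h6 : ∑ j ∈ range N, ∑ i ∈ range j, W C f i j * ((1 + x i) * (1 - x j) / 4) =
      (1 / 4) * ∑ j ∈ range N, ∑ i ∈ range j, W C f i j +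
      (1 / 4) * ∑ j ∈ range N, ∑ i ∈ range j, W C f i j * ((1 + x i) * (1 - x j) - 1) := by
    rw [mul_sum, mul_sum, ← sum_add_distrib]
    refine sum_congr rfl fun j _ => ?_
    rw [mul_sum, mul_sum, ← sum_add_distrib]
    refine sum_congr rfl fun i _ => ?_
    ring
  rw [h6]
  linarith

end Pool.Agent.H62.DC
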