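import Mathlib
import Pool.Agent.H62.DC.Path

/-!
# The path of a block and the concatenation of paths
-/

set_option autoImplicit false

namespace Pool.Agent.H62.DC

open Finset

/-- There is a path of `N` steps from `g` to `g'` whose coordinates decrease, each time by `0` or by
at least `2`, with constant sum of squares, and with sum of the squared steps at most `A`. -/
def Reach (C : ℕ) (A : ℝ) (N : ℕ) (g g' : ℕ → ℝ) : Prop :=
  ∃ f : ℕ → ℕ → ℝ, f 0 = g ∧ f N = g' ∧
    (∀ i < N, ∀ c, f i c = f (i + 1) c ∨ f (i + 1) c + 2 ≤ f i c) ∧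
    (∀ i < N, ∑ c ∈ range C, (f (i + 1) c) ^ 2 = ∑ c ∈ range C, (f i c) ^ 2) ∧
    ∑ i ∈ range N, ∑ c ∈ range C, (f i c - f (i + 1) c) ^ 2 ≤ A

theorem Reach.trans {C : ℕ} {A B : ℝ} {N M : ℕ} {g g' g'' : ℕ → ℝ} (h1 : Reach C A N g g')
    (h2 : Reach C B M g' g'') : Reach C (A + B) (N + M) g g'' := by
  obtain ⟨f, f0, fN, fs, fq, fA⟩ := h1
  obtain ⟨e, e0, eM, es, eq, eB⟩ := h2
  set F : ℕ → ℕ → ℝ := fun i => if i ≤ N then f i else e (i - N) with hF
  have hlo : ∀ i, i ≤ N → F i = f i := fun i hi => by simp only [hF]; rw [if_pos hi]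
  have hhi : ∀ i, F (N + i) = e i := by
    intro i
    rcases Nat.eq_zero_or_pos i with h | h
    · subst h
      rw [Nat.add_zero, hlo N le_rfl, fN, e0]
    · simp only [hF]
      rw [if_neg (by omega)]
      congr 1
      omega
  refine ⟨F, ?_, ?_, ?_, ?_, ?_⟩
  · rw [hlo 0 (Nat.zero_le _), f0]
  · rw [hhi, eM]
  · intro i hi c
    rcases lt_or_ge i N with h | h
    · rw [hlo i h.le, hlo (i + 1) h]
      exact fs i h c
    · obtain ⟨j, rfl⟩ := Nat.exists_eq_add_of_le h
      rw [hhi j, Nat.add_assoc, hhi (j + 1)]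
      exact es j (by omega) c
  · intro i hi
    rcases lt_or_ge i N with h | h
    · rw [hlo i h.le, hlo (i + 1) h]
      exact fq i h
    · obtain ⟨j, rfl⟩ := Nat.exists_eq_add_of_le h
      rw [hhi j, Nat.add_assoc, hhi (j + 1)]
      exact eq j (by omega)
  · rw [sum_range_add]
    refine add_le_add (le_trans (le_of_eq ?_) fA) (le_trans (le_of_eq ?_) eB)
    · refine sum_congr rfl fun i hi => ?_
      rw [mem_range] at hi
      rw [hlo i hi.le, hlo (i + 1) hi]
    · refine sum_congr rfl fun i hi => ?_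
      rw [hhi i, Nat.add_assoc, hhi (i + 1)]

theorem Reach.refl (C : ℕ) (g : ℕ → ℝ) : Reach C 0 0 g g :=
  ⟨fun _ => g, rfl, rfl, fun i hi => absurd hi (Nat.not_lt_zero i),
    fun i hi => absurd hi (Nat.not_lt_zero i), by simp⟩

/-- The square of the oldest coordinate. -/
noncomputable def G (l m x : ℝ) : ℝ :=
  38 * l ^ 2 - (6 * l - (6 * l - m) * x) ^ 2 - (l - (l + m) * x) ^ 2

theorem G_diff (l m x y : ℝ) : G l m y - G l m x =
    (y - x) * ((6 * l - m) * (12 * l - (6 * l - m) * (x + y)) +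
      (l + m) * (2 * l - (l + m) * (x + y))) := by
  unfold G
  ring

theorem bracket_ge {l m t : ℝ} (hl : 0 < l) (h1 : l / 2 ≤ m) (h2 : m ≤ 2 * l) (ht : t ≤ 2) :
    4 * l ^ 2 ≤ (6 * l - m) * (12 * l - (6 * l - m) * t) + (l + m) * (2 * l - (l + m) * t) := by
  have h3 : 0 ≤ (m - l / 2) * (2 * l - m) := mul_nonneg (by linarith) (by linarith)
  have h4 : 0 ≤ (2 - t) * ((6 * l - m) ^ 2 + (l + m) ^ 2) :=
    mul_nonneg (by linarith) (by positivity)
  nlinarith

theorem bracket_le {l m t : ℝ} (hl : 0 < l) (h1 : l / 2 ≤ m) (ht : 0 ≤ t) :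
    (6 * l - m) * (12 * l - (6 * l - m) * t) + (l + m) * (2 * l - (l + m) * t) ≤ 74 * l ^ 2 := by
  have h4 : 0 ≤ t * ((6 * l - m) ^ 2 + (l + m) ^ 2) := mul_nonneg ht (by positivity)
  have h5 : 0 ≤ l * m := mul_nonneg hl.le (by linarith)
  nlinarith

theorem G_zero (l m : ℝ) : G l m 0 = l ^ 2 := by unfold G; ring

theorem G_one (l m : ℝ) : G l m 1 = 38 * l ^ 2 - 2 * m ^ 2 := by unfold G; ring

theorem G_ge {l m x : ℝ} (hl : 0 < l) (h1 : l / 2 ≤ m) (h2 : m ≤ 2 * l) (hx : 0 ≤ x)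
    (hx1 : x ≤ 1) : l ^ 2 ≤ G l m x := by
  have h := G_diff l m 0 x
  have h3 := bracket_ge (t := 0 + x) hl h1 h2 (by linarith)
  have h4 : 0 ≤ (x - 0) * ((6 * l - m) * (12 * l - (6 * l - m) * (0 + x)) +
      (l + m) * (2 * l - (l + m) * (0 + x))) :=
    mul_nonneg (by linarith) (le_trans (by positivity) h3)
  rw [G_zero] at h
  linarith

theorem G_le {l m x : ℝ} : G l m x ≤ 38 * l ^ 2 := by
  unfold G
  nlinarith [sq_nonneg (6 * l - (6 * l - m) * x), sq_nonneg (l - (l + m) * x)]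

theorem sqrt_G_ge {l m x : ℝ} (hl : 0 < l) (h1 : l / 2 ≤ m) (h2 : m ≤ 2 * l) (hx : 0 ≤ x)
    (hx1 : x ≤ 1) : l ≤ Real.sqrt (G l m x) :=
  Real.le_sqrt_of_sq_le (G_ge hl h1 h2 hx hx1)

theorem sqrt_G_le {l m x : ℝ} (hl : 0 < l) : Real.sqrt (G l m x) ≤ 7 * l := by
  rw [Real.sqrt_le_left (by positivity)]
  nlinarith [G_le (l := l) (m := m) (x := x), sq_nonneg l]

/-- The steps of the oldest coordinate. -/
theorem old_step {l m x y d : ℝ} (hl : 0 < l) (h1 : l / 2 ≤ m) (h2 : m ≤ 2 * l) (hx : 0 ≤ x)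
    (hd : 0 < d) (hy : y = x + d) (hy1 : y ≤ 1) :
    2 / 7 * (l * d) ≤ Real.sqrt (G l m y) - Real.sqrt (G l m x) ∧
      Real.sqrt (G l m y) - Real.sqrt (G l m x) ≤ 37 * (l * d) := by
  have hx1 : x ≤ 1 := by linarith
  have hy0 : 0 ≤ y := by linarith
  have a1 := sqrt_G_ge hl h1 h2 hx hx1
  have a2 := sqrt_G_ge hl h1 h2 hy0 hy1
  have a3 := sqrt_G_le (m := m) (x := x) hl
  have a4 := sqrt_G_le (m := m) (x := y) hl
  have b1 : Real.sqrt (G l m x) ^ 2 = G l m x :=
    Real.sq_sqrt (le_trans (by positivity) (G_ge hl h1 h2 hx hx1))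
  have b2 : Real.sqrt (G l m y) ^ 2 = G l m y :=
    Real.sq_sqrt (le_trans (by positivity) (G_ge hl h1 h2 hy0 hy1))
  have h := G_diff l m x y
  have hyx : y - x = d := by linarith
  rw [hyx] at h
  have c1 := bracket_ge (t := x + y) hl h1 h2 (by linarith)
  have c2 := bracket_le (m := m) (t := x + y) hl h1 (by linarith)
  set B := (6 * l - m) * (12 * l - (6 * l - m) * (x + y)) +
      (l + m) * (2 * l - (l + m) * (x + y)) with hB
  set p := Real.sqrt (G l m x)
  set r := Real.sqrt (G l m y)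
  have e1 : (r - p) * (r + p) = d * B := by rw [← h, ← b1, ← b2]; ring
  have hs1 : 2 * l ≤ r + p := by linarith
  have hs2 : r + p ≤ 14 * l := by linarith
  have hdB1 : 4 * l ^ 2 * d ≤ d * B := by nlinarith
  have hdB2 : d * B ≤ 74 * l ^ 2 * d := by nlinarith
  have hrp : 0 < r + p := by linarith
  have hpos : 0 ≤ r - p := by
    by_contra hneg
    push Not at hneg
    have : (r - p) * (r + p) < 0 := mul_neg_of_neg_of_pos hneg hrp
    have h9 : 0 < 4 * l ^ 2 * d := by positivity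
    linarith
  constructor
  · by_contra hcon
    push Not at hcon
    have h9 : (r - p) * (r + p) ≤ (r - p) * (14 * l) := mul_le_mul_of_nonneg_left hs2 hpos
    have h10 : (r - p) * (14 * l) < 2 / 7 * (l * d) * (14 * l) :=
      mul_lt_mul_of_pos_right hcon (by linarith)
    nlinarith
  · by_contra hcon
    push Not at hcon
    have h9 : (r - p) * (2 * l) ≤ (r - p) * (r + p) := mul_le_mul_of_nonneg_left hs1 hpos
    have h10 : 37 * (l * d) * (2 * l) < (r - p) * (2 * l) :=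
      mul_lt_mul_of_pos_right hcon (by linarith)
    nlinarith

/-- The path of one block of `s` vertices. -/
theorem block_reach {C b s : ℕ} {l m : ℝ} (hs : 1 ≤ s) (hl : l = 8 * s) (h1 : l / 2 ≤ m)
    (h2 : m ≤ 2 * l) (hb : b + 2 < C) {g g' : ℕ → ℝ} (g0 : g b = -l) (g1 : g (b + 1) = l)
    (g2 : g (b + 2) = 6 * l) (g0' : g' b = -Real.sqrt (38 * l ^ 2 - 2 * m ^ 2))
    (g1' : g' (b + 1) = -m) (g2' : g' (b + 2) = m)
    (hg : ∀ c, c ≠ b → c ≠ b + 1 → c ≠ b + 2 → g' c = g c) :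
    Reach C (100000 * s) s g g' := by
  have hs0 : (0 : ℝ) < s := by exact_mod_cast hs
  have hl0 : 0 < l := by rw [hl]; positivity
  set f : ℕ → ℕ → ℝ := fun k c => if c = b then -Real.sqrt (G l m (k / s)) else
    if c = b + 1 then l - (l + m) * (k / s) else
    if c = b + 2 then 6 * l - (6 * l - m) * (k / s) else g c with hf
  have fb : ∀ k, f k b = -Real.sqrt (G l m (k / s)) := fun k => by simp [hf]
  have fb1 : ∀ k, f k (b + 1) = l - (l + m) * (k / s) := fun k => by simp [hf]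
  have fb2 : ∀ k, f k (b + 2) = 6 * l - (6 * l - m) * (k / s) := fun k => by simp [hf]
  have fo : ∀ k c, c ≠ b → c ≠ b + 1 → c ≠ b + 2 → f k c = g c := fun k c h0 h1 h2 => by
    simp only [hf]
    rw [if_neg h0, if_neg h1, if_neg h2]
  have hx : ∀ k : ℕ, ((k + 1 : ℕ) : ℝ) / s = (k : ℝ) / s + 1 / s := fun k => by
    push_cast
    ring
  have hk0 : ∀ k : ℕ, (0 : ℝ) ≤ (k : ℝ) / s := fun k => by positivity
  have hk1 : ∀ k : ℕ, k < s → ((k : ℝ)) / s + 1 / s ≤ 1 := fun k hk => by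
    rw [← add_div, div_le_one hs0]
    exact_mod_cast hk
  have hls : l * (1 / s) = 8 := by
    rw [hl]
    field_simp
  have hms1 : 4 ≤ m * (1 / s) := by
    have : l / 2 * (1 / s) ≤ m * (1 / s) := mul_le_mul_of_nonneg_right h1 (by positivity)
    linarith
  have hms2 : m * (1 / s) ≤ 16 := by
    have : m * (1 / s) ≤ 2 * l * (1 / s) := mul_le_mul_of_nonneg_right h2 (by positivity)
    linarith
  have st0 : ∀ k, k < s → 2 ≤ f k b - f (k + 1) b ∧ f k b - f (k + 1) b ≤ 296 := by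
    intro k hk
    rw [fb, fb, hx]
    obtain ⟨h3, h4⟩ := old_step (m := m) (d := 1 / s) hl0 h1 h2 (hk0 k) (by positivity) rfl
      (hk1 k hk)
    rw [hls] at h3 h4
    constructor <;> linarith
  have st1 : ∀ k, 12 ≤ f k (b + 1) - f (k + 1) (b + 1) ∧
      f k (b + 1) - f (k + 1) (b + 1) ≤ 24 := by
    intro k
    rw [fb1, fb1, hx]
    constructor <;> nlinarith
  have st2 : ∀ k, 32 ≤ f k (b + 2) - f (k + 1) (b + 2) ∧
      f k (b + 2) - f (k + 1) (b + 2) ≤ 44 := by
    intro k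
    rw [fb2, fb2, hx]
    constructor <;> nlinarith
  have hsum : ∀ F : ℕ → ℝ, ∑ c ∈ range C, F c = F b + F (b + 1) + F (b + 2) +
      ∑ c ∈ (range C).filter (fun c => c ≠ b ∧ c ≠ b + 1 ∧ c ≠ b + 2), F c := by
    intro F
    have hsplit := sum_filter_add_sum_filter_not (range C)
      (fun c => c ≠ b ∧ c ≠ b + 1 ∧ c ≠ b + 2) F
    have h3 : (range C).filter (fun c => ¬(c ≠ b ∧ c ≠ b + 1 ∧ c ≠ b + 2)) =
        {b, b + 1, b + 2} := by
      ext c
      simp only [mem_filter, mem_range, mem_insert, mem_singleton]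
      omega
    rw [h3, sum_insert (by simp), sum_insert (by simp), sum_singleton] at hsplit
    linarith
  refine ⟨f, ?_, ?_, ?_, ?_, ?_⟩
  · funext c
    by_cases c0 : c = b
    · subst c0
      rw [fb, g0]
      simp only [CharP.cast_eq_zero, zero_div]
      rw [G_zero, Real.sqrt_sq hl0.le]
    by_cases c1 : c = b + 1
    · subst c1
      rw [fb1, g1]
      simp
    by_cases c2 : c = b + 2
    · subst c2
      rw [fb2, g2]
      simp
    exact fo 0 c c0 c1 c2
  · funext c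
    have hss : (s : ℝ) / s = 1 := div_self hs0.ne'
    by_cases c0 : c = b
    · subst c0
      rw [fb, g0', hss, G_one]
    by_cases c1 : c = b + 1
    · subst c1
      rw [fb1, g1', hss]
      ring
    by_cases c2 : c = b + 2
    · subst c2
      rw [fb2, g2', hss]
      ring
    rw [fo s c c0 c1 c2, hg c c0 c1 c2]
  · intro k hk c
    by_cases c0 : c = b
    · subst c0
      right
      linarith [(st0 k hk).1]
    by_cases c1 : c = b + 1
    · subst c1
      right
      linarith [(st1 k).1]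
    by_cases c2 : c = b + 2
    · subst c2
      right
      linarith [(st2 k).1]
    left
    rw [fo k c c0 c1 c2, fo (k + 1) c c0 c1 c2]
  · intro k hk
    rw [hsum, hsum]
    have h3 : ∀ j ∈ ({k, k + 1} : Finset ℕ), (f j b) ^ 2 + (f j (b + 1)) ^ 2 +
        (f j (b + 2)) ^ 2 = 38 * l ^ 2 := by
      intro j hj
      have hj1 : (j : ℝ) / s ≤ 1 := by
        rw [div_le_one hs0]
        rw [mem_insert, mem_singleton] at hj
        have : j ≤ s := by omega
        exact_mod_cast this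
      rw [fb, fb1, fb2, neg_sq,
        Real.sq_sqrt (le_trans (by positivity) (G_ge hl0 h1 h2 (hk0 j) hj1))]
      unfold G
      ring
    have h4 := h3 k (by simp)
    have h5 := h3 (k + 1) (by simp)
    have h6 : ∑ c ∈ (range C).filter (fun c => c ≠ b ∧ c ≠ b + 1 ∧ c ≠ b + 2),
        (f (k + 1) c) ^ 2 = ∑ c ∈ (range C).filter (fun c => c ≠ b ∧ c ≠ b + 1 ∧ c ≠ b + 2),
        (f k c) ^ 2 := by
      refine sum_congr rfl fun c hc => ?_
      obtain ⟨-, c0, c1, c2⟩ := mem_filter.1 hc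
      rw [fo k c c0 c1 c2, fo (k + 1) c c0 c1 c2]
    rw [h6]
    linarith
  · have h3 : ∀ k ∈ range s, ∑ c ∈ range C, (f k c - f (k + 1) c) ^ 2 ≤ 100000 := by
      intro k hk
      rw [mem_range] at hk
      rw [hsum]
      have h6 : ∑ c ∈ (range C).filter (fun c => c ≠ b ∧ c ≠ b + 1 ∧ c ≠ b + 2),
          (f k c - f (k + 1) c) ^ 2 = 0 := by
        refine sum_eq_zero fun c hc => ?_
        obtain ⟨-, c0, c1, c2⟩ := mem_filter.1 hc
        rw [fo k c c0 c1 c2, fo (k + 1) c c0 c1 c2]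
        ring
      rw [h6]
      have a0 := st0 k hk
      have a1 := st1 k
      have a2 := st2 k
      have b0 : (f k b - f (k + 1) b) ^ 2 ≤ 296 ^ 2 :=
        pow_le_pow_left₀ (by linarith) a0.2 2
      have b1 : (f k (b + 1) - f (k + 1) (b + 1)) ^ 2 ≤ 24 ^ 2 :=
        pow_le_pow_left₀ (by linarith) a1.2 2
      have b2 : (f k (b + 2) - f (k + 1) (b + 2)) ^ 2 ≤ 44 ^ 2 :=
        pow_le_pow_left₀ (by linarith) a2.2 2
      linarith
    calc ∑ k ∈ range s, ∑ c ∈ range C, (f k c - f (k + 1) c) ^ 2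
        ≤ ∑ k ∈ range s, (100000 : ℝ) := sum_le_sum h3
      _ = 100000 * s := by simp [mul_comm]

/-- The states at the block boundaries. -/
noncomputable def st (s : ℕ → ℕ) (b c : ℕ) : ℝ :=
  if c < b then -Real.sqrt (38 * (8 * s c : ℝ) ^ 2 - 2 * (8 * s (c + 1) : ℝ) ^ 2) else
  if c = b then -(8 * s b : ℝ) else if c = b + 1 then (8 * s b : ℝ) else 6 * (8 * s (c - 2) : ℝ)

theorem chain_reach {C : ℕ} (s : ℕ → ℕ) (n : ℕ) (hn : n + 1 < C)
    (h0 : ∀ b < n, 1 ≤ s b) (h1 : ∀ b < n, s b ≤ 2 * s (b + 1))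
    (h2 : ∀ b < n, s (b + 1) ≤ 2 * s b) :
    Reach C (100000 * ∑ b ∈ range n, (s b : ℝ)) (∑ b ∈ range n, s b) (st s 0) (st s n) := by
  induction n with
  | zero =>
    simp only [range_zero, sum_empty, mul_zero]
    exact Reach.refl C _
  | succ n ih =>
    have h3 := ih (by omega) (fun b hb => h0 b (by omega)) (fun b hb => h1 b (by omega))
      (fun b hb => h2 b (by omega))
    rw [sum_range_succ, sum_range_succ, mul_add]
    refine h3.trans (block_reach (b := n) (l := 8 * s n) (m := 8 * s (n + 1)) (h0 n (by omega))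
      rfl ?_ ?_ (by omega) ?_ ?_ ?_ ?_ ?_ ?_ ?_)
    · have := h1 n (by omega)
      have h4 : (s n : ℝ) ≤ 2 * s (n + 1) := by exact_mod_cast this
      linarith
    · have := h2 n (by omega)
      have h4 : (s (n + 1) : ℝ) ≤ 2 * s n := by exact_mod_cast this
      linarith
    · simp [st]
    · simp [st]
    · simp [st]
    · simp [st]
    · simp [st]
    · simp [st]
    · intro c c0 c1 c2
      unfold st
      by_cases hc : c < n
      · rw [if_pos hc, if_pos (by omega)]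
      · rw [if_neg hc, if_neg (by omega), if_neg c1, if_neg c0, if_neg (by omega), if_neg c1]

end Pool.Agent.H62.DC
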