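import Mathlib

/-!
# Acyclic directed multigraphs with small directed cuts: unions and sizes
-/

set_option autoImplicit false

namespace Pool.Agent.H62.DC

open Finset

/-- There is an acyclic directed multigraph with multiplicities in `P`, with `m` arcs, all of whose
directed cuts have size at most `m / 4 + e`. -/
def Realizes (P : ℕ → Prop) (m : ℕ) (e : ℝ) : Prop :=
  ∃ (V : Type) (_ : Fintype V) (_ : DecidableEq V) (μ : V → V → ℕ),
    (∀ v, ¬ Relation.TransGen (fun x y => μ x y ≠ 0) v v) ∧ (∀ u v, P (μ u v)) ∧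
    ∑ u, ∑ v, μ u v = m ∧
    ∀ X : Finset V, ((∑ u ∈ X, ∑ v ∈ Xᶜ, μ u v : ℕ) : ℝ) ≤ m / 4 + e

theorem Realizes.mono {P : ℕ → Prop} {m : ℕ} {e e' : ℝ} (h : Realizes P m e) (he : e ≤ e') :
    Realizes P m e' := by
  obtain ⟨V, i1, i2, μ, h1, h2, h3, h4⟩ := h
  exact ⟨V, i1, i2, μ, h1, h2, h3, fun X => (h4 X).trans (by linarith)⟩

theorem Realizes.add {P : ℕ → Prop} (hP : P 0) {m1 m2 : ℕ} {e1 e2 : ℝ} (h1 : Realizes P m1 e1)
    (h2 : Realizes P m2 e2) : Realizes P (m1 + m2) (e1 + e2) := by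
  obtain ⟨V, i1, i2, μ, a1, a2, a3, a4⟩ := h1
  obtain ⟨W, j1, j2, ν, b1, b2, b3, b4⟩ := h2
  set ρ : V ⊕ W → V ⊕ W → ℕ := fun x y => match x, y with
    | Sum.inl u, Sum.inl v => μ u v
    | Sum.inr u, Sum.inr v => ν u v
    | _, _ => 0 with hρ
  refine ⟨V ⊕ W, inferInstance, inferInstance, ρ, ?_, ?_, ?_, ?_⟩
  · have key : ∀ x y : V ⊕ W, Relation.TransGen (fun x y => ρ x y ≠ 0) x y →
        (∃ u v, x = Sum.inl u ∧ y = Sum.inl v ∧ Relation.TransGen (fun x y => μ x y ≠ 0) u v) ∨
        (∃ u v, x = Sum.inr u ∧ y = Sum.inr v ∧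
          Relation.TransGen (fun x y => ν x y ≠ 0) u v) := by
      intro x y hxy
      induction hxy with
      | @single b hb =>
        rcases x with u | u <;> rcases b with v | v
        · exact Or.inl ⟨u, v, rfl, rfl, Relation.TransGen.single hb⟩
        · exact absurd rfl hb
        · exact absurd rfl hb
        · exact Or.inr ⟨u, v, rfl, rfl, Relation.TransGen.single hb⟩
      | @tail b c _ hc ih =>
        rcases ih with ⟨u, v, rfl, rfl, h⟩ | ⟨u, v, rfl, rfl, h⟩
        · rcases c with z | z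
          · exact Or.inl ⟨u, z, rfl, rfl, h.tail hc⟩
          · exact absurd rfl hc
        · rcases c with z | z
          · exact absurd rfl hc
          · exact Or.inr ⟨u, z, rfl, rfl, h.tail hc⟩
    intro x hx
    rcases key x x hx with ⟨u, v, rfl, h2, h⟩ | ⟨u, v, rfl, h2, h⟩
    · rw [Sum.inl.injEq] at h2
      subst h2
      exact a1 u h
    · rw [Sum.inr.injEq] at h2
      subst h2
      exact b1 u h
  · rintro (u | u) (v | v)
    · exact a2 u v
    · exact hP
    · exact hP
    · exact b2 u v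
  · rw [Fintype.sum_sum_type]
    have e1 : ∀ u : V, ∑ v, ρ (Sum.inl u) v = ∑ v, μ u v := by
      intro u
      rw [Fintype.sum_sum_type]
      simp [hρ]
    have e2 : ∀ u : W, ∑ v, ρ (Sum.inr u) v = ∑ v, ν u v := by
      intro u
      rw [Fintype.sum_sum_type]
      simp [hρ]
    simp only [e1, e2]
    rw [a3, b3]
  · intro X
    have h5 : ∑ u ∈ X, ∑ v ∈ Xᶜ, ρ u v =
        ∑ u ∈ X.toLeft, ∑ v ∈ X.toLeftᶜ, μ u v + ∑ u ∈ X.toRight, ∑ v ∈ X.toRightᶜ, ν u v := by
      have f0 : ∀ F : V ⊕ W → ℕ, ∑ x ∈ X, F x =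
          ∑ u ∈ X.toLeft, F (Sum.inl u) + ∑ u ∈ X.toRight, F (Sum.inr u) := by
        intro F
        conv_lhs => rw [← Finset.toLeft_disjSum_toRight (u := X)]
        rw [Finset.sum_disjSum]
      have f1 : ∀ F : V ⊕ W → ℕ, ∑ x ∈ Xᶜ, F x =
          ∑ u ∈ X.toLeftᶜ, F (Sum.inl u) + ∑ u ∈ X.toRightᶜ, F (Sum.inr u) := by
        intro F
        have h6 : Xᶜ = (X.toLeftᶜ).disjSum (X.toRightᶜ) := by
          ext x
          rcases x with x | x <;> simp
        rw [h6, Finset.sum_disjSum]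
      rw [f0]
      congr 1
      · refine sum_congr rfl fun u _ => ?_
        rw [f1]
        simp [hρ]
      · refine sum_congr rfl fun u _ => ?_
        rw [f1]
        simp [hρ]
    rw [h5]
    push_cast
    have c1 := a4 X.toLeft
    have c2 := b4 X.toRight
    push_cast at c1 c2
    linarith

theorem realizes_zero (P : ℕ → Prop) : Realizes P 0 0 :=
  ⟨Empty, inferInstance, inferInstance, fun _ _ => 0, fun v => v.elim, fun v => v.elim,
    by simp, fun X => by simp⟩

theorem realizes_one {P : ℕ → Prop} (hP : P 0) (hP1 : P 1) : Realizes P 1 1 := by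
  refine ⟨Bool, inferInstance, inferInstance, fun x y => if x = false ∧ y = true then 1 else 0,
    ?_, ?_, ?_, ?_⟩
  · have key : ∀ x y : Bool, Relation.TransGen
        (fun x y => (if x = false ∧ y = true then 1 else 0 : ℕ) ≠ 0) x y →
        x = false ∧ y = true := by
      intro x y hxy
      induction hxy with
      | single hb =>
        by_contra hcon
        exact hb (if_neg hcon)
      | tail _ hc ih =>
        exfalso
        apply hc
        rw [if_neg]
        rintro ⟨h, -⟩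
        rw [ih.2] at h
        exact Bool.noConfusion h
    intro v hv
    have := key v v hv
    rw [this.1] at this
    exact Bool.noConfusion this.2
  · intro u v
    beta_reduce
    split_ifs
    · exact hP1
    · exact hP
  · decide
  · intro X
    have : ∑ u ∈ X, ∑ v ∈ Xᶜ, (if u = false ∧ v = true then 1 else 0 : ℕ) ≤ 1 := by
      revert X
      decide
    have h2 : ((∑ u ∈ X, ∑ v ∈ Xᶜ, (if u = false ∧ v = true then 1 else 0 : ℕ) : ℕ) : ℝ) ≤ 1 := by
      exact_mod_cast this
    beta_reduce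
    norm_num
    norm_num at h2
    linarith

theorem realizes_small {P : ℕ → Prop} (hP : P 0) (hP1 : P 1) (m : ℕ) : Realizes P m m := by
  induction m with
  | zero => simpa using realizes_zero P
  | succ n ih =>
    have := ih.add hP (realizes_one hP hP1)
    push_cast
    exact this

/-- The sizes in between. -/
theorem realizes_all {P : ℕ → Prop} (hP : P 0) (hP1 : P 1) {α δ E : ℝ} {m0 : ℕ}
    (hα : 0 < α) (hδ : 0 < δ) (hδ1 : δ ≤ 1) (hE : 0 ≤ E)
    (h : ∀ m : ℕ, m0 ≤ m → ∃ m' : ℕ, m' ≤ m ∧ δ * m ≤ m' ∧ Realizes P m' (E * (m : ℝ) ^ α)) :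
    ∃ K : ℝ, ∀ m : ℕ, Realizes P m (K * (m : ℝ) ^ α) := by
  set θ : ℝ := (1 - δ) ^ α with hθ
  have hθ1 : θ < 1 := Real.rpow_lt_one (by linarith) (by linarith) hα
  have hθ0 : 0 ≤ θ := by positivity
  set K : ℝ := m0 + E / (1 - θ) with hK
  have h1θ : 0 < 1 - θ := by linarith
  have hEθ : 0 ≤ E / (1 - θ) := by positivity
  have hK0 : 0 ≤ K := by positivity
  refine ⟨K, fun m => ?_⟩
  induction m using Nat.strong_induction_on with
  | _ m ih =>
    rcases Nat.eq_zero_or_pos m with h0 | hpos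
    · subst h0
      have h5 : (K * ((0 : ℕ) : ℝ) ^ α) = 0 := by
        rw [Nat.cast_zero, Real.zero_rpow hα.ne', mul_zero]
      rw [h5]
      exact realizes_zero P
    have hm1 : (1 : ℝ) ≤ m := by exact_mod_cast hpos
    have hmα : (1 : ℝ) ≤ (m : ℝ) ^ α := Real.one_le_rpow hm1 hα.le
    rcases Nat.lt_or_ge m m0 with hlt | hge
    · refine (realizes_small hP hP1 m).mono ?_
      have h6 : (m : ℝ) ≤ m0 := by exact_mod_cast hlt.le
      have h7 : (m0 : ℝ) ≤ K := by rw [hK]; linarith
      nlinarith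
    · obtain ⟨m', hm', hδm, hreal⟩ := h m hge
      have hm'pos : 0 < m' := by
        have : (0 : ℝ) < m' := lt_of_lt_of_le (by positivity) hδm
        exact_mod_cast this
      have h8 := hreal.add hP (ih (m - m') (by omega))
      have h9 : m' + (m - m') = m := by omega
      rw [h9] at h8
      refine h8.mono ?_
      have h10 : ((m - m' : ℕ) : ℝ) ≤ (1 - δ) * m := by
        rw [Nat.cast_sub hm']
        linarith
      have h11 : ((m - m' : ℕ) : ℝ) ^ α ≤ θ * (m : ℝ) ^ α := by
        rw [hθ, ← Real.mul_rpow (by linarith) (by positivity)]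
        exact Real.rpow_le_rpow (by positivity) h10 hα.le
      have h12 : K * ((m - m' : ℕ) : ℝ) ^ α ≤ K * (θ * (m : ℝ) ^ α) :=
        mul_le_mul_of_nonneg_left h11 hK0
      have h13 : E ≤ K * (1 - θ) := by
        rw [hK, add_mul, div_mul_cancel₀ _ h1θ.ne']
        have : 0 ≤ (m0 : ℝ) * (1 - θ) := by positivity
        linarith
      nlinarith

/-- Transport to the vertex sets `Fin n`. -/
theorem Realizes.toFin {P : ℕ → Prop} {m : ℕ} {e : ℝ} (h : Realizes P m e) :
    ∃ (n : ℕ) (μ : Fin n → Fin n → ℕ),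
      (∀ v, ¬ Relation.TransGen (fun x y => μ x y ≠ 0) v v) ∧ (∀ u v, P (μ u v)) ∧
      ∑ u, ∑ v, μ u v = m ∧
      ∀ X : Finset (Fin n), ((∑ u ∈ X, ∑ v ∈ Xᶜ, μ u v : ℕ) : ℝ) ≤ m / 4 + e := by
  obtain ⟨V, i1, i2, μ, h1, h2, h3, h4⟩ := h
  set f := (Fintype.equivFin V).symm with hf
  refine ⟨Fintype.card V, fun x y => μ (f x) (f y), ?_, fun u v => h2 _ _, ?_, ?_⟩
  · intro v hv
    refine h1 (f v) ?_
    have key : ∀ x y, Relation.TransGen (fun x y => μ (f x) (f y) ≠ 0) x y →
        Relation.TransGen (fun x y => μ x y ≠ 0) (f x) (f y) := by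
      intro x y hxy
      induction hxy with
      | single hb => exact Relation.TransGen.single hb
      | tail _ hc ih => exact ih.tail hc
    exact key v v hv
  · rw [← h3, ← Equiv.sum_comp f (fun u => ∑ v, μ u v)]
    refine sum_congr rfl fun u _ => ?_
    rw [← Equiv.sum_comp f (fun v => μ (f u) v)]
  · intro X
    refine le_trans (le_of_eq ?_) (h4 (X.map f.toEmbedding))
    norm_cast
    rw [sum_map]
    refine sum_congr rfl fun u _ => ?_
    have : (X.map f.toEmbedding)ᶜ = Xᶜ.map f.toEmbedding := by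
      ext y
      simp only [mem_compl, mem_map, Equiv.coe_toEmbedding]
      constructor
      · intro hy
        exact ⟨f.symm y, fun hc => hy ⟨f.symm y, hc, by simp⟩, by simp⟩
      · rintro ⟨x, hx, rfl⟩ ⟨z, hz, hzx⟩
        exact hx (f.injective hzx ▸ hz)
    rw [this, sum_map]
    rfl

end Pool.Agent.H62.DC
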