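import Mathlib
import Pool.Agent.H62.DC.Path
import Pool.Agent.H62.DC.Realize

/-!
# Paths near a sphere with even steps and acyclic directed multigraphs
-/

set_option autoImplicit false

namespace Pool.Agent.H62.DC

open Finset

variable {κ : Type*}

/-- There is a path of `N` steps from `g` to `g'`, all of whose coordinates decrease by even natural
numbers, such that the changes of the sum of squares add up to at most `E` and the squared steps to
at most `A`. -/
def ReachM (S : Finset κ) (A E : ℝ) (N : ℕ) (g g' : κ → ℝ) : Prop :=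
  ∃ (f : ℕ → κ → ℝ) (v : ℕ → κ → ℕ), f 0 = g ∧ f N = g' ∧
    (∀ i < N, ∀ c, f i c - f (i + 1) c = 2 * v i c) ∧
    ∑ i ∈ range N, |∑ c ∈ S, ((f i c) ^ 2 - (f (i + 1) c) ^ 2)| ≤ E ∧
    ∑ i ∈ range N, ∑ c ∈ S, (f i c - f (i + 1) c) ^ 2 ≤ A

theorem ReachM.refl (S : Finset κ) (g : κ → ℝ) : ReachM S 0 0 0 g g :=
  ⟨fun _ => g, fun _ _ => 0, rfl, rfl, fun i hi => absurd hi (Nat.not_lt_zero i), by simp,
    by simp⟩

theorem ReachM.trans {S : Finset κ} {A B E F : ℝ} {N M : ℕ} {g g' g'' : κ → ℝ}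
    (h1 : ReachM S A E N g g') (h2 : ReachM S B F M g' g'') :
    ReachM S (A + B) (E + F) (N + M) g g'' := by
  obtain ⟨f, v, f0, fN, fs, fq, fA⟩ := h1
  obtain ⟨e, w, e0, eM, es, eq, eB⟩ := h2
  set G : ℕ → κ → ℝ := fun i => if i ≤ N then f i else e (i - N) with hG
  set U : ℕ → κ → ℕ := fun i => if i < N then v i else w (i - N) with hU
  have hlo : ∀ i, i ≤ N → G i = f i := fun i hi => by simp only [hG]; rw [if_pos hi]
  have hhi : ∀ i, G (N + i) = e i := by
    intro i
    rcases Nat.eq_zero_or_pos i with h | h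
    · subst h
      rw [Nat.add_zero, hlo N le_rfl, fN, e0]
    · simp only [hG]
      rw [if_neg (by omega)]
      congr 1
      omega
  have hUlo : ∀ i, i < N → U i = v i := fun i hi => by simp only [hU]; rw [if_pos hi]
  have hUhi : ∀ i, U (N + i) = w i := by
    intro i
    simp only [hU]
    rw [if_neg (by omega)]
    congr 1
    omega
  refine ⟨G, U, ?_, ?_, ?_, ?_, ?_⟩
  · rw [hlo 0 (Nat.zero_le _), f0]
  · rw [hhi, eM]
  · intro i hi c
    rcases lt_or_ge i N with h | h
    · rw [hlo i h.le, hlo (i + 1) h, hUlo i h]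
      exact fs i h c
    · obtain ⟨j, rfl⟩ := Nat.exists_eq_add_of_le h
      rw [hhi j, Nat.add_assoc, hhi (j + 1), hUhi j]
      exact es j (by omega) c
  · rw [sum_range_add]
    refine add_le_add (le_trans (le_of_eq ?_) fq) (le_trans (le_of_eq ?_) eq)
    · refine sum_congr rfl fun i hi => ?_
      rw [mem_range] at hi
      rw [hlo i hi.le, hlo (i + 1) hi]
    · refine sum_congr rfl fun i hi => ?_
      rw [hhi i, Nat.add_assoc, hhi (i + 1)]
  · rw [sum_range_add]
    refine add_le_add (le_trans (le_of_eq ?_) fA) (le_trans (le_of_eq ?_) eB)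
    · refine sum_congr rfl fun i hi => ?_
      rw [mem_range] at hi
      rw [hlo i hi.le, hlo (i + 1) hi]
    · refine sum_congr rfl fun i hi => ?_
      rw [hhi i, Nat.add_assoc, hhi (i + 1)]

/-- The weight between the times `i < j`. -/
noncomputable def WM (S : Finset κ) (f : ℕ → κ → ℝ) (i j : ℕ) : ℝ :=
  ∑ c ∈ S, ((f i c - f (i + 1) c) / 2) * ((f j c - f (j + 1) c) / 2)

/-- The total weight of a path. -/
theorem total_WM (S : Finset κ) (f : ℕ → κ → ℝ) (N : ℕ) :
    ∑ j ∈ range N, ∑ i ∈ range j, WM S f i j =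
      (1 / 8) * (∑ c ∈ S, (f 0 c - f N c) ^ 2 -
        ∑ i ∈ range N, ∑ c ∈ S, (f i c - f (i + 1) c) ^ 2) := by
  induction N with
  | zero => simp
  | succ n ih =>
    rw [sum_range_succ, ih, sum_range_succ]
    have h1 : ∑ i ∈ range n, WM S f i n =
        ∑ c ∈ S, ((f 0 c - f n c) / 2) * ((f n c - f (n + 1) c) / 2) := by
      unfold WM
      rw [sum_comm]
      refine sum_congr rfl fun c _ => ?_
      rw [← sum_mul]
      congr 1
      have : ∀ m, ∑ i ∈ range m, ((f i c - f (i + 1) c) / 2) = (f 0 c - f m c) / 2 := by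
        intro m
        induction m with
        | zero => simp
        | succ m ih => rw [sum_range_succ, ih]; ring
      exact this n
    rw [h1]
    have h2 : ∑ c ∈ S, (f 0 c - f (n + 1) c) ^ 2 =
        ∑ c ∈ S, (f 0 c - f n c) ^ 2 +
        8 * ∑ c ∈ S, ((f 0 c - f n c) / 2) * ((f n c - f (n + 1) c) / 2) +
        ∑ c ∈ S, (f n c - f (n + 1) c) ^ 2 := by
      rw [mul_sum, ← sum_add_distrib, ← sum_add_distrib]
      refine sum_congr rfl fun c _ => ?_
      ring
    rw [h2]
    ring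

/-- The cut inequality for a path. -/
theorem path_cutM (S : Finset κ) (f : ℕ → κ → ℝ) (N : ℕ) {E : ℝ}
    (hE : ∑ i ∈ range N, |∑ c ∈ S, ((f i c) ^ 2 - (f (i + 1) c) ^ 2)| ≤ E)
    (x : ℕ → ℝ) (hx : ∀ i, x i ^ 2 = 1) :
    ∑ j ∈ range N, ∑ i ∈ range j, WM S f i j * ((1 + x i) * (1 - x j) / 4) ≤
      (1 / 4) * ∑ j ∈ range N, ∑ i ∈ range j, WM S f i j + (1 / 16) * E +
      (1 / 32) * (∑ i ∈ range N, ∑ c ∈ S, (f i c - f (i + 1) c) ^ 2 +
        ∑ c ∈ S, (f 0 c + f N c) ^ 2) := by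
  have h1 : ∀ c ∈ S,
      ∑ j ∈ range N, ∑ i ∈ range j, ((f i c - f (i + 1) c) / 2) * ((f j c - f (j + 1) c) / 2) *
        ((1 + x i) * (1 - x j) - 1) ≤
      (1 / 4) * ∑ i ∈ range N, x i * ((f i c) ^ 2 - (f (i + 1) c) ^ 2)
      + (1 / 8) * (f 0 c + f N c) ^ 2 + (1 / 8) * ∑ i ∈ range N, (f i c - f (i + 1) c) ^ 2 :=
    fun c _ => one_clique_le (fun i => f i c) x hx N
  have h2 := sum_le_sum h1
  have h3 : ∑ c ∈ S, ((1 / 4) * ∑ i ∈ range N, x i * ((f i c) ^ 2 - (f (i + 1) c) ^ 2)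
      + (1 / 8) * (f 0 c + f N c) ^ 2 + (1 / 8) * ∑ i ∈ range N, (f i c - f (i + 1) c) ^ 2) ≤
      (1 / 4) * E + (1 / 8) * (∑ i ∈ range N, ∑ c ∈ S, (f i c - f (i + 1) c) ^ 2 +
        ∑ c ∈ S, (f 0 c + f N c) ^ 2) := by
    rw [sum_add_distrib, sum_add_distrib, ← mul_sum, ← mul_sum, ← mul_sum]
    have h4 : ∑ c ∈ S, ∑ i ∈ range N, x i * ((f i c) ^ 2 - (f (i + 1) c) ^ 2) ≤ E := by
      rw [sum_comm]
      refine le_trans (sum_le_sum fun i _ => ?_) hE
      rw [← mul_sum]
      refine (le_abs_self _).trans ?_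
      rw [abs_mul]
      have : |x i| = 1 := by
        have h9 := hx i
        rw [← sq_abs] at h9
        nlinarith [abs_nonneg (x i)]
      rw [this, one_mul]
    rw [sum_comm (s := S) (t := range N) (f := fun c i => (f i c - f (i + 1) c) ^ 2)]
    linarith
  have h5 : ∑ c ∈ S, ∑ j ∈ range N, ∑ i ∈ range j,
      ((f i c - f (i + 1) c) / 2) * ((f j c - f (j + 1) c) / 2) * ((1 + x i) * (1 - x j) - 1) =
      ∑ j ∈ range N, ∑ i ∈ range j, WM S f i j * ((1 + x i) * (1 - x j) - 1) := by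
    rw [sum_comm]
    refine sum_congr rfl fun j _ => ?_
    rw [sum_comm]
    refine sum_congr rfl fun i _ => ?_
    unfold WM
    rw [sum_mul]
  rw [h5] at h2
  have h6 : ∑ j ∈ range N, ∑ i ∈ range j, WM S f i j * ((1 + x i) * (1 - x j) / 4) =
      (1 / 4) * ∑ j ∈ range N, ∑ i ∈ range j, WM S f i j +
      (1 / 4) * ∑ j ∈ range N, ∑ i ∈ range j, WM S f i j * ((1 + x i) * (1 - x j) - 1) := by
    rw [mul_sum, mul_sum, ← sum_add_distrib]
    refine sum_congr rfl fun j _ => ?_
    rw [mul_sum, mul_sum, ← sum_add_distrib]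
    refine sum_congr rfl fun i _ => ?_
    ring
  rw [h6]
  linarith

/-- The multigraph of a path. -/
theorem ReachM.realizes {S : Finset κ} {A E B D : ℝ} {N : ℕ} {g g' : κ → ℝ}
    (h : ReachM S A E N g g') (hB : ∑ c ∈ S, (g c + g' c) ^ 2 ≤ B)
    (hD : ∑ c ∈ S, (g c - g' c) ^ 2 = D) :
    ∃ m : ℕ, (D - A) / 8 ≤ m ∧ (m : ℝ) ≤ D / 8 ∧
      Realizes (fun _ => True) m (E / 16 + (A + B) / 32) := by
  obtain ⟨f, v, f0, fN, fs, fq, fA⟩ := h
  have hA0 : 0 ≤ ∑ i ∈ range N, ∑ c ∈ S, (f i c - f (i + 1) c) ^ 2 :=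
    sum_nonneg fun i _ => sum_nonneg fun c _ => sq_nonneg _
  have hWv : ∀ i j, i < N → j < N → WM S f i j = ((∑ c ∈ S, v i c * v j c : ℕ) : ℝ) := by
    intro i j hi hj
    unfold WM
    push_cast
    refine sum_congr rfl fun c _ => ?_
    rw [fs i hi c, fs j hj c]
    ring
  set μ : Fin N → Fin N → ℕ := fun a b => if (a : ℕ) < b then ∑ c ∈ S, v a c * v b c else 0
    with hμ
  have hcut : ∀ y : ℕ → ℕ → ℝ, ∑ a : Fin N, ∑ b : Fin N, (μ a b : ℝ) * y a b =
      ∑ j ∈ range N, ∑ i ∈ range j, WM S f i j * y i j := by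
    intro y
    rw [sum_comm, ← Fin.sum_univ_eq_sum_range (fun j => ∑ i ∈ range j, WM S f i j * y i j)]
    refine sum_congr rfl fun b _ => ?_
    have h1 : ∑ a : Fin N, (μ a b : ℝ) * y a b =
        ∑ a : Fin N, (fun a : ℕ => if a < (b : ℕ) then WM S f a b * y a b else 0) a := by
      refine sum_congr rfl fun a _ => ?_
      simp only [hμ]
      split_ifs with h2
      · rw [hWv a b a.2 b.2]
      · simp
    rw [h1, Fin.sum_univ_eq_sum_range (fun a : ℕ => if a < (b : ℕ) then WM S f a b * y a b else 0),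
      ← sum_filter]
    refine sum_congr ?_ fun _ _ => rfl
    ext i
    simp only [mem_filter, mem_range]
    have := b.2
    omega
  have htot := total_WM S f N
  have hcut1 := hcut (fun _ _ => 1)
  simp only [mul_one] at hcut1
  set m : ℕ := ∑ a : Fin N, ∑ b : Fin N, μ a b with hm
  have hmr : (m : ℝ) = ∑ j ∈ range N, ∑ i ∈ range j, WM S f i j := by
    rw [← hcut1, hm]
    push_cast
    rfl
  rw [f0, fN, hD] at htot
  refine ⟨m, by rw [hmr, htot]; linarith, by rw [hmr, htot]; linarith, Fin N, inferInstance,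
    inferInstance, μ, ?_, fun _ _ => trivial, rfl, ?_⟩
  · have key : ∀ x y : Fin N, Relation.TransGen (fun x y => μ x y ≠ 0) x y → x < y := by
      have one : ∀ x y : Fin N, μ x y ≠ 0 → x < y := by
        intro x y h
        simp only [hμ] at h
        by_contra hcon
        rw [if_neg (fun h => hcon (Fin.lt_def.2 h))] at h
        exact h rfl
      intro x y hxy
      induction hxy with
      | single hb => exact one _ _ hb
      | tail _ hc ih => exact ih.trans (one _ _ hc)
    intro x hx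
    exact lt_irrefl _ (key x x hx)
  · intro X
    set x : ℕ → ℝ := fun i => if h : i < N then (if (⟨i, h⟩ : Fin N) ∈ X then 1 else -1) else 1
      with hxdef
    have hx : ∀ u : Fin N, x u = if u ∈ X then 1 else -1 := by
      intro u
      simp only [hxdef]
      rw [dif_pos u.2]
    have hx2 : ∀ i, x i ^ 2 = 1 := by
      intro i
      simp only [hxdef]
      split_ifs <;> norm_num
    have h1 := path_cutM S f N fq x hx2
    rw [f0, fN] at h1
    have h2 : ((∑ u ∈ X, ∑ w ∈ Xᶜ, μ u w : ℕ) : ℝ) =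
        ∑ u : Fin N, ∑ w : Fin N, (μ u w : ℝ) * ((1 + x u) * (1 - x w) / 4) := by
      push_cast
      rw [← sum_subset (subset_univ X)]
      · refine sum_congr rfl fun u hu => ?_
        rw [← sum_subset (subset_univ Xᶜ)]
        · refine sum_congr rfl fun w hw => ?_
          have hw' : w ∉ X := by simpa using hw
          rw [hx u, hx w, if_pos hu, if_neg hw']
          norm_num
        · intro w _ hw
          have hw' : w ∈ X := by simpa using hw
          rw [hx w, if_pos hw']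
          simp
      · intro u _ hu
        refine sum_eq_zero fun w _ => ?_
        rw [hx u, if_neg hu]
        simp
    rw [h2, hcut (fun i j => (1 + x i) * (1 - x j) / 4), hmr]
    linarith

end Pool.Agent.H62.DC
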