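import Mathlib

/-!
# Steered digits

A real number is written as `∑ d j * h j`, `h j = 2 * h (j + 1)`, with digits `d j` whose signs are
prescribed for `j ≥ 1`; hence the sums of the digits over a long time remain bounded.
-/

set_option autoImplicit false

namespace Pool.Agent.H62.DC

open Finset

theorem digits {h : ℕ → ℝ} (hpos : ∀ j, 0 < h j) (hh : ∀ j, h j = 2 * h (j + 1)) {τ : ℕ → ℤ}
    (hτ : ∀ j, τ j = 1 ∨ τ j = -1) (r : ℝ) (n : ℕ) :
    ∃ d : ℕ → ℤ, (∀ j, 1 ≤ j → 0 ≤ τ j * d j ∧ τ j * d j ≤ 2) ∧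
      |(d 0 : ℝ)| ≤ |r| / h 0 + 1 ∧
      0 ≤ (τ (n + 1) : ℝ) * (r - ∑ j ∈ range (n + 1), (d j : ℝ) * h j) ∧
      (τ (n + 1) : ℝ) * (r - ∑ j ∈ range (n + 1), (d j : ℝ) * h j) ≤ h n := by
  induction n with
  | zero =>
    have h0 := hpos 0
    have hr : r = r / h 0 * h 0 := (div_mul_cancel₀ r h0.ne').symm
    have habs : |r / h 0| = |r| / h 0 := by rw [abs_div, abs_of_pos h0]
    rcases hτ 1 with h1 | h1
    · refine ⟨fun j => if j = 0 then ⌊r / h 0⌋ else 0, ?_, ?_, ?_, ?_⟩
      · intro j hj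
        have : j ≠ 0 := by omega
        simp [this]
      · simp only [if_true]
        rw [← habs]
        have e1 := Int.floor_le (r / h 0)
        have e2 := Int.lt_floor_add_one (r / h 0)
        rw [abs_le]
        constructor
        · have := neg_abs_le (r / h 0)
          linarith
        · have := le_abs_self (r / h 0)
          linarith
      · simp only [zero_add, range_one, sum_singleton, if_true, h1, Int.cast_one, one_mul]
        have e1 := Int.floor_le (r / h 0)
        nlinarith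
      · simp only [zero_add, range_one, sum_singleton, if_true, h1, Int.cast_one, one_mul]
        have e2 := Int.lt_floor_add_one (r / h 0)
        nlinarith
    · refine ⟨fun j => if j = 0 then ⌈r / h 0⌉ else 0, ?_, ?_, ?_, ?_⟩
      · intro j hj
        have : j ≠ 0 := by omega
        simp [this]
      · simp only [if_true]
        rw [← habs]
        have e1 := Int.le_ceil (r / h 0)
        have e2 := Int.ceil_lt_add_one (r / h 0)
        rw [abs_le]
        constructor
        · have := neg_abs_le (r / h 0)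
          linarith
        · have := le_abs_self (r / h 0)
          linarith
      · simp only [zero_add, range_one, sum_singleton, if_true, h1, Int.cast_neg, Int.cast_one]
        have e1 := Int.le_ceil (r / h 0)
        nlinarith
      · simp only [zero_add, range_one, sum_singleton, if_true, h1, Int.cast_neg, Int.cast_one]
        have e2 := Int.ceil_lt_add_one (r / h 0)
        nlinarith
  | succ n ih =>
    obtain ⟨d, hd1, hd2, hd3, hd4⟩ := ih
    set R := r - ∑ j ∈ range (n + 1), (d j : ℝ) * h j with hR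
    have key : ∃ e : ℤ, (0 ≤ τ (n + 1) * e ∧ τ (n + 1) * e ≤ 2) ∧
        0 ≤ (τ (n + 1 + 1) : ℝ) * (R - e * h (n + 1)) ∧
        (τ (n + 1 + 1) : ℝ) * (R - e * h (n + 1)) ≤ h (n + 1) := by
      have hn := hh n
      have hp := hpos (n + 1)
      rcases hτ (n + 1) with h1 | h1 <;> rcases hτ (n + 1 + 1) with h2 | h2 <;>
        rw [h1] at hd3 hd4 ⊢ <;> rw [h2] <;> push_cast at hd3 hd4 ⊢
      · rcases le_or_gt R (h (n + 1)) with c | c
        · exact ⟨0, by norm_num, by push_cast; linarith, by push_cast; linarith⟩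
        · exact ⟨1, by norm_num, by push_cast; linarith, by push_cast; linarith⟩
      · rcases le_or_gt R (h (n + 1)) with c | c
        · exact ⟨1, by norm_num, by push_cast; linarith, by push_cast; linarith⟩
        · exact ⟨2, by norm_num, by push_cast; linarith, by push_cast; linarith⟩
      · rcases le_or_gt (-R) (h (n + 1)) with c | c
        · exact ⟨-1, by norm_num, by push_cast; linarith, by push_cast; linarith⟩
        · exact ⟨-2, by norm_num, by push_cast; linarith, by push_cast; linarith⟩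
      · rcases le_or_gt (-R) (h (n + 1)) with c | c
        · exact ⟨0, by norm_num, by push_cast; linarith, by push_cast; linarith⟩
        · exact ⟨-1, by norm_num, by push_cast; linarith, by push_cast; linarith⟩
    obtain ⟨e, he1, he2, he3⟩ := key
    have hsum : ∑ j ∈ range (n + 1 + 1), ((Function.update d (n + 1) e j : ℤ) : ℝ) * h j =
        ∑ j ∈ range (n + 1), (d j : ℝ) * h j + e * h (n + 1) := by
      rw [sum_range_succ, Function.update_self]
      congr 1
      refine sum_congr rfl fun j hj => ?_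
      rw [mem_range] at hj
      rw [Function.update_of_ne (by omega)]
    refine ⟨Function.update d (n + 1) e, ?_, ?_, ?_, ?_⟩
    · intro j hj
      by_cases hc : j = n + 1
      · subst hc
        rw [Function.update_self]
        exact he1
      · rw [Function.update_of_ne hc]
        exact hd1 j hj
    · rw [Function.update_of_ne (by omega)]
      exact hd2
    · rw [hsum]
      have : r - (∑ j ∈ range (n + 1), (d j : ℝ) * h j + e * h (n + 1)) = R - e * h (n + 1) := by
        rw [hR]; ring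
      rw [this]
      exact he2
    · rw [hsum]
      have : r - (∑ j ∈ range (n + 1), (d j : ℝ) * h j + e * h (n + 1)) = R - e * h (n + 1) := by
        rw [hR]; ring
      rw [this]
      exact he3

/-- The steering lemma. -/
theorem steer {h : ℕ → ℝ} (hpos : ∀ j, 0 < h j) (hh : ∀ j, h j = 2 * h (j + 1)) {J : ℕ}
    (hJ : 1 ≤ J) (T : ℕ → ℝ) :
    ∃ d : ℕ → ℕ → ℤ, ∀ i,
      (∀ j, 1 ≤ j → |∑ a ∈ range i, d a j| ≤ 2) ∧ (∀ j, 1 ≤ j → |d i j| ≤ 2) ∧
      |(d i 0 : ℝ)| ≤ |T i| / h 0 + 1 ∧ |T i + ∑ j ∈ range J, (d i j : ℝ) * h j| ≤ h (J - 1) := by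
  have one : ∀ (r : ℝ) (dev : ℕ → ℤ), ∃ d : ℕ → ℤ,
      (∀ j, 1 ≤ j → |dev j| ≤ 2 → |dev j + d j| ≤ 2) ∧ (∀ j, 1 ≤ j → |d j| ≤ 2) ∧
      |(d 0 : ℝ)| ≤ |r| / h 0 + 1 ∧ |r - ∑ j ∈ range J, (d j : ℝ) * h j| ≤ h (J - 1) := by
    intro r dev
    set τ : ℕ → ℤ := fun j => if 0 < dev j then -1 else 1 with hτdef
    have hτ : ∀ j, τ j = 1 ∨ τ j = -1 := by
      intro j
      simp only [hτdef]
      split_ifs
      · exact Or.inr rfl
      · exact Or.inl rfl
    obtain ⟨d, h1, h2, h3, h4⟩ := digits hpos hh hτ r (J - 1)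
    have hJ1 : J - 1 + 1 = J := by omega
    rw [hJ1] at h3 h4
    refine ⟨d, ?_, ?_, h2, ?_⟩
    · intro j hj hdev
      obtain ⟨a1, a2⟩ := h1 j hj
      simp only [hτdef] at a1 a2
      rw [abs_le] at hdev ⊢
      split_ifs at a1 a2 with hc <;> constructor <;> omega
    · intro j hj
      obtain ⟨a1, a2⟩ := h1 j hj
      rw [abs_le]
      rcases hτ j with hc | hc <;> rw [hc] at a1 a2 <;> constructor <;> omega
    · rcases hτ J with hc | hc <;> rw [hc] at h3 h4 <;> push_cast at h3 h4 <;> rw [abs_le] <;>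
        constructor <;> linarith
  choose F hF1 hF2 hF3 hF4 using one
  set dev : ℕ → (ℕ → ℤ) := fun i => Nat.rec (fun _ => 0)
    (fun i dv => fun j => dv j + F (-T i) dv j) i with hdev
  have hdev0 : ∀ j, dev 0 j = 0 := fun j => rfl
  have hdevs : ∀ i j, dev (i + 1) j = dev i j + F (-T i) (dev i) j := fun i j => rfl
  refine ⟨fun i => F (-T i) (dev i), fun i => ⟨?_, ?_, ?_, ?_⟩⟩
  · intro j hj
    have hs : ∀ i, ∑ a ∈ range i, F (-T a) (dev a) j = dev i j := by
      intro i
      induction i with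
      | zero => rw [hdev0]; simp
      | succ i ih => rw [sum_range_succ, ih, hdevs]
    have hb : ∀ i, |dev i j| ≤ 2 := by
      intro i
      induction i with
      | zero => rw [hdev0]; simp
      | succ i ih => rw [hdevs]; exact hF1 _ _ j hj ih
    rw [hs]
    exact hb i
  · intro j hj
    exact hF2 _ _ j hj
  · have := hF3 (-T i) (dev i)
    rwa [abs_neg] at this
  · have := hF4 (-T i) (dev i)
    rw [← abs_neg] at this
    refine le_trans (le_of_eq ?_) this
    congr 1
    ring

/-- The sum of the leading digits. -/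
theorem steer_top {h : ℕ → ℝ} (hpos : ∀ j, 0 < h j) (hh : ∀ j, h j = 2 * h (j + 1)) {J : ℕ}
    (hJ : 1 ≤ J) {T : ℕ → ℝ} {d : ℕ → ℕ → ℤ} {B : ℝ} {s : ℕ}
    (h1 : ∀ i j, 1 ≤ j → |∑ a ∈ range i, d a j| ≤ 2)
    (h2 : ∀ i, |T i + ∑ j ∈ range J, (d i j : ℝ) * h j| ≤ h (J - 1))
    (hB : ∀ i ≤ s, |∑ a ∈ range i, T a| ≤ B) (i : ℕ) (hi : i ≤ s) :
    |((∑ a ∈ range i, d a 0 : ℤ) : ℝ)| * h 0 ≤ B + 2 * h 0 + s * h (J - 1) := by
  have hJh := hpos (J - 1)
  have e1 : |∑ a ∈ range i, (T a + ∑ j ∈ range J, (d a j : ℝ) * h j)| ≤ i * h (J - 1) := by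
    refine (abs_sum_le_sum_abs _ _).trans ?_
    refine (sum_le_sum fun a _ => h2 a).trans (le_of_eq ?_)
    rw [sum_const, card_range, nsmul_eq_mul]
  have e2 : ∑ a ∈ range i, (T a + ∑ j ∈ range J, (d a j : ℝ) * h j) =
      ∑ a ∈ range i, T a + ∑ j ∈ range J, ((∑ a ∈ range i, d a j : ℤ) : ℝ) * h j := by
    rw [sum_add_distrib, sum_comm]
    congr 1
    refine sum_congr rfl fun j _ => ?_
    push_cast
    rw [sum_mul]
  obtain ⟨n, rfl⟩ : ∃ n, J = n + 1 := ⟨J - 1, by omega⟩
  rw [e2, sum_range_succ'] at e1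
  have e3 : |∑ j ∈ range n, ((∑ a ∈ range i, d a (j + 1) : ℤ) : ℝ) * h (j + 1)| ≤ 2 * h 0 := by
    refine (abs_sum_le_sum_abs _ _).trans ?_
    have e4 : ∀ j ∈ range n, |((∑ a ∈ range i, d a (j + 1) : ℤ) : ℝ) * h (j + 1)| ≤
        2 * (h j - h (j + 1)) := by
      intro j _
      rw [abs_mul, abs_of_pos (hpos (j + 1))]
      have e5 : |((∑ a ∈ range i, d a (j + 1) : ℤ) : ℝ)| ≤ 2 := by
        exact_mod_cast h1 i (j + 1) (by omega)
      have e6 := hh j
      have e7 : h j - h (j + 1) = h (j + 1) := by linarith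
      rw [e7]
      exact mul_le_mul_of_nonneg_right e5 (hpos (j + 1)).le
    refine (sum_le_sum e4).trans ?_
    rw [← mul_sum, sum_range_sub']
    have := hpos n
    linarith
  have e8 : (i : ℝ) * h (n + 1 - 1) ≤ s * h (n + 1 - 1) := by
    have : (i : ℝ) ≤ s := by exact_mod_cast hi
    exact mul_le_mul_of_nonneg_right this hJh.le
  have e9 := hB i hi
  rw [← abs_of_pos (hpos 0), ← abs_mul]
  rw [abs_of_pos (hpos 0)]
  rw [abs_le] at e1 e3 e9 ⊢
  constructor <;> linarith [e1.1, e1.2, e3.1, e3.2, e9.1, e9.2]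

end Pool.Agent.H62.DC
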