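import Mathlib

/-!
# The three trajectories of a block
-/

set_option autoImplicit false

namespace Pool.Agent.H62.DC

open Finset

/-- The youngest coordinate. -/
noncomputable def Yf (l m θ x : ℝ) : ℝ := 6 * l - (6 * l - (1 + θ) * m) * x

/-- The middle coordinate. -/
noncomputable def Mf (l m θ x : ℝ) : ℝ := (1 + θ) * l - (l + m) * x

/-- The square of the oldest coordinate. -/
noncomputable def Hf (k l m θ x : ℝ) : ℝ :=
  36 * l ^ 2 + (1 + θ) ^ 2 * l ^ 2 + (l - θ * k) ^ 2 - Yf l m θ x ^ 2 - Mf l m θ x ^ 2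

/-- The conditions on the parameters. -/
structure Par (k l m θ : ℝ) : Prop where
  l0 : 0 < l
  m1 : l / 2 ≤ m
  m2 : m ≤ 2 * l
  k1 : l / 2 ≤ k
  k2 : k ≤ 2 * l
  t1 : -(1 / 8) ≤ θ
  t2 : θ ≤ 1 / 8

variable {k l m θ : ℝ}

theorem Hf_diff (k l m θ x y : ℝ) : Hf k l m θ y - Hf k l m θ x =
    (y - x) * ((6 * l - (1 + θ) * m) * (12 * l - (6 * l - (1 + θ) * m) * (x + y)) +
      (l + m) * (2 * (1 + θ) * l - (l + m) * (x + y))) := by
  unfold Hf Yf Mf
  ring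

theorem br_ge (h : Par k l m θ) {t : ℝ} (ht : t ≤ 2) :
    0 ≤ (6 * l - (1 + θ) * m) * (12 * l - (6 * l - (1 + θ) * m) * t) +
      (l + m) * (2 * (1 + θ) * l - (l + m) * t) := by
  obtain ⟨l0, m1, m2, k1, k2, t1, t2⟩ := h
  set u := 1 + θ with hu
  have u1 : 7 / 8 ≤ u := by linarith
  have u2 : u ≤ 9 / 8 := by linarith
  have h3 : 0 ≤ (2 - t) * ((6 * l - u * m) ^ 2 + (l + m) ^ 2) :=
    mul_nonneg (by linarith) (by positivity)
  have h4 : (6 * l - u * m) * (12 * l - (6 * l - u * m) * t) +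
      (l + m) * (2 * u * l - (l + m) * t) =
      2 * (l * m * (7 * u - 2) - m ^ 2 * (1 + u ^ 2) + (u - 1) * l ^ 2) +
      (2 - t) * ((6 * l - u * m) ^ 2 + (l + m) ^ 2) := by ring
  rw [h4]
  have h5 : m ^ 2 ≤ 5 / 2 * (l * m) - l ^ 2 := by
    nlinarith [mul_nonneg (by linarith : 0 ≤ m - l / 2) (by linarith : 0 ≤ 2 * l - m)]
  have h6 : m ^ 2 * (1 + u ^ 2) ≤ (5 / 2 * (l * m) - l ^ 2) * (1 + u ^ 2) :=
    mul_le_mul_of_nonneg_right h5 (by positivity)
  have h7 : -(3 / 10) ≤ 7 * u - 9 / 2 - 5 / 2 * u ^ 2 := by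
    nlinarith [mul_nonneg (by linarith : 0 ≤ u - 7 / 8) (by linarith : 0 ≤ 9 / 8 - u)]
  have hlm : 0 ≤ l * m := mul_nonneg l0.le (by linarith)
  have h8 : l * m * (-(3 / 10)) ≤ l * m * (7 * u - 9 / 2 - 5 / 2 * u ^ 2) :=
    mul_le_mul_of_nonneg_left h7 hlm
  have h9 : l * m ≤ 2 * l ^ 2 := by nlinarith
  have h10 : 3 / 2 * l ^ 2 ≤ (u ^ 2 + u) * l ^ 2 :=
    mul_le_mul_of_nonneg_right (by nlinarith) (by positivity)
  have h11 : 0 ≤ l ^ 2 := by positivity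
  nlinarith

theorem br_le (h : Par k l m θ) {t : ℝ} (ht : 0 ≤ t) :
    (6 * l - (1 + θ) * m) * (12 * l - (6 * l - (1 + θ) * m) * t) +
      (l + m) * (2 * (1 + θ) * l - (l + m) * t) ≤ 80 * l ^ 2 := by
  obtain ⟨l0, m1, m2, k1, k2, t1, t2⟩ := h
  set u := 1 + θ with hu
  have u1 : 7 / 8 ≤ u := by linarith
  have u2 : u ≤ 9 / 8 := by linarith
  have h3 : 0 ≤ t * ((6 * l - u * m) ^ 2 + (l + m) ^ 2) := mul_nonneg ht (by positivity)
  have hlm : 0 ≤ l * m := mul_nonneg l0.le (by linarith)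
  have h9 : l * m ≤ 2 * l ^ 2 := by nlinarith
  have h4 : (6 * l - u * m) * (12 * l - (6 * l - u * m) * t) +
      (l + m) * (2 * u * l - (l + m) * t) =
      72 * l ^ 2 - 10 * u * (l * m) + 2 * u * l ^ 2 - t * ((6 * l - u * m) ^ 2 + (l + m) ^ 2) := by
    ring
  rw [h4]
  have h5 : 0 ≤ u * (l * m) := mul_nonneg (by linarith) hlm
  have h6 : u * l ^ 2 ≤ 9 / 8 * l ^ 2 := mul_le_mul_of_nonneg_right u2 (by positivity)
  have h11 : 0 ≤ l ^ 2 := by positivity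
  nlinarith

theorem Hf_mono (h : Par k l m θ) {x y : ℝ} (hx : 0 ≤ x) (hxy : x ≤ y) (hy : y ≤ 1) :
    Hf k l m θ x ≤ Hf k l m θ y ∧ Hf k l m θ y - Hf k l m θ x ≤ (y - x) * (80 * l ^ 2) := by
  have h1 := Hf_diff k l m θ x y
  have h2 := br_ge h (t := x + y) (by linarith)
  have h3 := br_le h (t := x + y) (by linarith)
  constructor
  · have := mul_nonneg (sub_nonneg.2 hxy) h2
    linarith
  · rw [h1]
    exact mul_le_mul_of_nonneg_left h3 (by linarith)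

theorem Hf_zero (k l m θ : ℝ) : Hf k l m θ 0 = (l - θ * k) ^ 2 := by
  unfold Hf Yf Mf
  ring

theorem start_ge (h : Par k l m θ) : 3 / 4 * l ≤ l - θ * k := by
  obtain ⟨l0, m1, m2, k1, k2, t1, t2⟩ := h
  have h1 : θ * k ≤ 1 / 8 * k := mul_le_mul_of_nonneg_right t2 (by linarith)
  linarith

theorem Hf_ge (h : Par k l m θ) {x : ℝ} (hx : 0 ≤ x) (hx1 : x ≤ 1) :
    (3 / 4 * l) ^ 2 ≤ Hf k l m θ x := by
  have h1 := (Hf_mono h le_rfl hx hx1).1
  rw [Hf_zero] at h1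
  have h2 := start_ge h
  have h3 : (3 / 4 * l) ^ 2 ≤ (l - θ * k) ^ 2 :=
    pow_le_pow_left₀ (by have := h.l0; positivity) h2 2
  linarith

theorem Hf_le (h : Par k l m θ) (x : ℝ) : Hf k l m θ x ≤ (7 * l) ^ 2 := by
  obtain ⟨l0, m1, m2, k1, k2, t1, t2⟩ := h
  unfold Hf
  have h1 : (1 + θ) ^ 2 ≤ (9 / 8) ^ 2 := pow_le_pow_left₀ (by linarith) (by linarith) 2
  have h2 : (1 + θ) ^ 2 * l ^ 2 ≤ (9 / 8) ^ 2 * l ^ 2 :=
    mul_le_mul_of_nonneg_right h1 (by positivity)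
  have h3 : -(1 / 8 * k) ≤ θ * k := by
    have := mul_le_mul_of_nonneg_right t1 (by linarith : 0 ≤ k)
    linarith
  have h5 : θ * k ≤ 1 / 8 * k := mul_le_mul_of_nonneg_right t2 (by linarith)
  have h4 : (l - θ * k) ^ 2 ≤ (5 / 4 * l) ^ 2 :=
    pow_le_pow_left₀ (by linarith) (by linarith) 2
  nlinarith [sq_nonneg (Yf l m θ x), sq_nonneg (Mf l m θ x), sq_nonneg l]

/-- The oldest coordinate. -/
noncomputable def Of (k l m θ x : ℝ) : ℝ := -Real.sqrt (Hf k l m θ x)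

theorem Of_zero (h : Par k l m θ) : Of k l m θ 0 = -(l - θ * k) := by
  unfold Of
  rw [Hf_zero, Real.sqrt_sq]
  have := start_ge h
  have := h.l0
  linarith

theorem Of_sq (h : Par k l m θ) {x : ℝ} (hx : 0 ≤ x) (hx1 : x ≤ 1) :
    Of k l m θ x ^ 2 = Hf k l m θ x := by
  unfold Of
  rw [neg_sq, Real.sq_sqrt (le_trans (by positivity) (Hf_ge h hx hx1))]

theorem Of_le (h : Par k l m θ) {x : ℝ} (hx : 0 ≤ x) (hx1 : x ≤ 1) :
    Of k l m θ x ≤ -(3 / 4 * l) := by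
  unfold Of
  have := Real.le_sqrt_of_sq_le (Hf_ge h hx hx1)
  linarith

theorem Of_ge (h : Par k l m θ) (x : ℝ) : -(7 * l) ≤ Of k l m θ x := by
  unfold Of
  have h1 : Real.sqrt (Hf k l m θ x) ≤ 7 * l := by
    rw [Real.sqrt_le_left (by have := h.l0; positivity)]
    exact Hf_le h x
  linarith

theorem Of_step (h : Par k l m θ) {x y : ℝ} (hx : 0 ≤ x) (hxy : x ≤ y) (hy : y ≤ 1) :
    Of k l m θ y ≤ Of k l m θ x ∧
      Of k l m θ x - Of k l m θ y ≤ 54 * (l * (y - x)) := by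
  obtain ⟨h1, h2⟩ := Hf_mono h hx hxy hy
  have l0 := h.l0
  constructor
  · unfold Of
    exact neg_le_neg (Real.sqrt_le_sqrt h1)
  · have a1 := Of_le h hx (by linarith)
    have a2 := Of_le h (by linarith : 0 ≤ y) hy
    have b1 := Of_sq h hx (by linarith : x ≤ 1)
    have b2 := Of_sq h (by linarith : 0 ≤ y) hy
    set p := Of k l m θ x
    set q := Of k l m θ y
    have e1 : (p - q) * (-(p + q)) = Hf k l m θ y - Hf k l m θ x := by
      rw [← b1, ← b2]; ring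
    by_contra hcon
    push Not at hcon
    have h3 : 0 ≤ l * (y - x) := mul_nonneg l0.le (by linarith)
    have h4 : (p - q) * (3 / 2 * l) ≤ (p - q) * (-(p + q)) :=
      mul_le_mul_of_nonneg_left (by linarith) (by linarith)
    have h5 : 54 * (l * (y - x)) * (3 / 2 * l) < (p - q) * (3 / 2 * l) :=
      mul_lt_mul_of_pos_right hcon (by linarith)
    nlinarith

theorem Yf_step (h : Par k l m θ) {x y : ℝ} (hxy : x ≤ y) :
    Yf l m θ y ≤ Yf l m θ x ∧ Yf l m θ x - Yf l m θ y ≤ 6 * (l * (y - x)) := by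
  obtain ⟨l0, m1, m2, k1, k2, t1, t2⟩ := h
  have e1 : Yf l m θ x - Yf l m θ y = (6 * l - (1 + θ) * m) * (y - x) := by
    unfold Yf
    ring
  have h1 : 0 ≤ (1 + θ) * m := mul_nonneg (by linarith) (by linarith)
  have h2 : (1 + θ) * m ≤ 9 / 8 * (2 * l) := mul_le_mul (by linarith) m2 (by linarith) (by norm_num)
  have h3 : 0 ≤ (6 * l - (1 + θ) * m) * (y - x) := mul_nonneg (by linarith) (by linarith)
  have h4 : (6 * l - (1 + θ) * m) * (y - x) ≤ 6 * l * (y - x) :=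
    mul_le_mul_of_nonneg_right (by linarith) (by linarith)
  constructor
  · linarith
  · rw [e1]
    linarith

theorem Yf_zero (l m θ : ℝ) : Yf l m θ 0 = 6 * l := by unfold Yf; ring

theorem Yf_one (l m θ : ℝ) : Yf l m θ 1 = (1 + θ) * m := by unfold Yf; ring

theorem Yf_bd (h : Par k l m θ) {x : ℝ} (hx : 0 ≤ x) (hx1 : x ≤ 1) : |Yf l m θ x| ≤ 7 * l := by
  have h1 := (Yf_step h hx).1
  have h2 := (Yf_step h hx1).1
  rw [Yf_zero] at h1
  rw [Yf_one] at h2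
  have h3 : 0 ≤ (1 + θ) * m := mul_nonneg (by linarith [h.t1]) (by linarith [h.l0, h.m1])
  rw [abs_le]
  have := h.l0
  constructor <;> linarith

theorem Of_bd (h : Par k l m θ) {x : ℝ} (hx : 0 ≤ x) (hx1 : x ≤ 1) : |Of k l m θ x| ≤ 7 * l := by
  rw [abs_le]
  have h1 := Of_ge h x
  have h2 := Of_le h hx hx1
  have := h.l0
  constructor <;> linarith

theorem sphere (h : Par k l m θ) {x : ℝ} (hx : 0 ≤ x) (hx1 : x ≤ 1) :
    Yf l m θ x ^ 2 + Mf l m θ x ^ 2 + Of k l m θ x ^ 2 =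
      36 * l ^ 2 + (1 + θ) ^ 2 * l ^ 2 + (l - θ * k) ^ 2 := by
  rw [Of_sq h hx hx1]
  unfold Hf
  ring

/-- Rounding of a decreasing function: the number of steps of size `2` up to time `i`. -/
noncomputable def rd (F : ℕ → ℝ) (i : ℕ) : ℕ := ⌊(F 0 - F i) / 2⌋₊

theorem rd_zero (F : ℕ → ℝ) : rd F 0 = 0 := by simp [rd]

theorem rd_le {F : ℕ → ℝ} {i : ℕ} (h : F i ≤ F 0) : (rd F i : ℝ) ≤ (F 0 - F i) / 2 :=
  Nat.floor_le (by linarith)

theorem rd_gt (F : ℕ → ℝ) (i : ℕ) : (F 0 - F i) / 2 - 1 < rd F i := Nat.sub_one_lt_floor _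

theorem rd_mono {F : ℕ → ℝ} {i : ℕ} (h : F (i + 1) ≤ F i) : rd F i ≤ rd F (i + 1) :=
  Nat.floor_le_floor (by linarith)

/-- The rounding errors have bounded weighted sums. -/
theorem rd_abel {F : ℕ → ℝ} {s : ℕ} {B : ℝ} (hF : ∀ i < s, F (i + 1) ≤ F i)
    (hB : ∀ i ≤ s, |F i| ≤ B) (i : ℕ) (hi : i ≤ s) :
    |∑ a ∈ range i, ((rd F (a + 1) : ℝ) - rd F a - (F a - F (a + 1)) / 2) *
      ((F a + F (a + 1)) / 2)| ≤ 3 * B := by
  have hanti : ∀ i ≤ s, F i ≤ F 0 := by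
    intro i
    induction i with
    | zero => intro _; exact le_rfl
    | succ i ih => intro hi; exact (hF i (by omega)).trans (ih (by omega))
  set e : ℕ → ℝ := fun i => rd F i - (F 0 - F i) / 2 with he
  have he1 : ∀ i ≤ s, |e i| ≤ 1 := by
    intro i hi
    simp only [he]
    rw [abs_le]
    constructor
    · linarith [rd_gt F i]
    · linarith [rd_le (hanti i hi)]
  have he0 : e 0 = 0 := by simp [he, rd_zero]
  have key : ∀ i ≤ s, ∑ a ∈ range i, ((rd F (a + 1) : ℝ) - rd F a - (F a - F (a + 1)) / 2) *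
      ((F a + F (a + 1)) / 2) =
      e i * F i + (1 / 2) * ∑ a ∈ range i, (F a - F (a + 1)) * (e a + e (a + 1)) := by
    intro i
    induction i with
    | zero => intro _; simp [he0]
    | succ i ih =>
      intro hi
      rw [sum_range_succ, ih (by omega), sum_range_succ]
      simp only [he]
      ring
  rw [key i hi]
  have h1 : |e i * F i| ≤ B := by
    rw [abs_mul]
    calc |e i| * |F i| ≤ 1 * B :=
          mul_le_mul (he1 i hi) (hB i hi) (abs_nonneg _) (by norm_num)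
      _ = B := one_mul B
  have h2 : |∑ a ∈ range i, (F a - F (a + 1)) * (e a + e (a + 1))| ≤
      ∑ a ∈ range i, 2 * (F a - F (a + 1)) := by
    refine (abs_sum_le_sum_abs _ _).trans (sum_le_sum fun a ha => ?_)
    rw [mem_range] at ha
    have c1 : 0 ≤ F a - F (a + 1) := by linarith [hF a (by omega)]
    have c2 : |e a + e (a + 1)| ≤ 2 := by
      refine (abs_add_le _ _).trans ?_
      linarith [he1 a (by omega), he1 (a + 1) (by omega)]
    rw [abs_mul, abs_of_nonneg c1, mul_comm]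
    exact mul_le_mul_of_nonneg_right c2 c1
  have h3 : ∑ a ∈ range i, 2 * (F a - F (a + 1)) ≤ 4 * B := by
    rw [← mul_sum, sum_range_sub']
    have c1 := hB 0 (by omega)
    have c2 := hB i hi
    rw [abs_le] at c1 c2
    linarith [c1.2, c2.1]
  have h4 : |(1 / 2) * ∑ a ∈ range i, (F a - F (a + 1)) * (e a + e (a + 1))| ≤ 2 * B := by
    rw [abs_mul, abs_of_pos (by norm_num : (0 : ℝ) < 1 / 2)]
    linarith
  exact (abs_add_le _ _).trans (by linarith)

end Pool.Agent.H62.DC
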