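import Mathlib
import Pool.Agent.H62.DC.PathM
import Pool.Agent.H62.DC.Steer
import Pool.Agent.H62.DC.Traj

/-!
# One block of the path of integer steps
-/

set_option autoImplicit false

namespace Pool.Agent.H62.DC

open Finset

/-- A coordinate is given by the level, the sign and the number of the clique. -/
abbrev Ix := ℕ × Bool × ℕ

/-- The sign. -/
def sg (σ : Bool) : ℤ := if σ then 1 else -1

/-- The relative offsets. -/
noncomputable def th (j : ℕ) (σ : Bool) : ℝ := (sg σ : ℝ) * ((1 / 8) * (1 / 2) ^ j)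

/-- The coordinates in use. -/
def SS (J C : ℕ) : Finset Ix := range J ×ˢ ((univ : Finset Bool) ×ˢ range C)

theorem th_bd (j : ℕ) (σ : Bool) : -(1 / 8) ≤ th j σ ∧ th j σ ≤ 1 / 8 := by
  have h1 : (0 : ℝ) ≤ (1 / 2) ^ j := by positivity
  have h2 : ((1 : ℝ) / 2) ^ j ≤ 1 := pow_le_one₀ (by norm_num) (by norm_num)
  unfold th sg
  cases σ
  · simp only [Bool.false_eq_true, if_false]
    push_cast
    constructor <;> linarith
  · simp only [if_true]
    push_cast
    constructor <;> linarith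

theorem sum_SS (J C : ℕ) (F : Ix → ℝ) : ∑ x ∈ SS J C, F x =
    ∑ j ∈ range J, (∑ c ∈ range C, F (j, true, c) + ∑ c ∈ range C, F (j, false, c)) := by
  unfold SS
  rw [sum_product]
  refine sum_congr rfl fun j _ => ?_
  rw [sum_product]
  rw [Fintype.sum_bool]

/-- The states at the boundaries of the blocks. -/
structure StM (J : ℕ) (lam : ℕ → ℝ) (b : ℕ) (g : Ix → ℝ) : Prop where
  old : ∀ j σ c, c < b →
    |g (j, σ, c) + Real.sqrt (Hf (lam (c - 1)) (lam c) (lam (c + 1)) (th j σ) 1)| ≤ 688 * J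
  cur : ∀ j σ, |g (j, σ, b) + (lam b - th j σ * lam (b - 1))| ≤ 686 * J
  mid : ∀ j σ, |g (j, σ, b + 1) - (1 + th j σ) * lam b| ≤ 2
  fut : ∀ j σ c, b + 2 ≤ c → g (j, σ, c) = 6 * lam (c - 2)

theorem sum_three {C b : ℕ} (hb : b + 2 < C) (F : ℕ → ℝ)
    (h : ∀ c, c ≠ b → c ≠ b + 1 → c ≠ b + 2 → F c = 0) :
    ∑ c ∈ range C, F c = F b + F (b + 1) + F (b + 2) := by
  have h1 : ∑ c ∈ range C, F c = ∑ c ∈ ({b, b + 1, b + 2} : Finset ℕ), F c := by
    symm
    refine sum_subset ?_ ?_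
    · intro c hc
      simp only [mem_insert, mem_singleton] at hc
      rw [mem_range]
      omega
    · intro c _ hc
      simp only [mem_insert, mem_singleton, not_or] at hc
      exact h c hc.1 hc.2.1 hc.2.2
  rw [h1, sum_insert (by simp), sum_insert (by simp), sum_singleton]
  ring

theorem block_step {J ρ s b C : ℕ} {lam : ℕ → ℝ} (hJ : 1 ≤ J) (hρ : ρ = 120 * J) (hs : 1 ≤ s)
    (hls : lam b + lam (b + 1) = 2 * ρ * s) (hp : ∀ σ j, Par (lam (b - 1)) (lam b) (lam (b + 1))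
    (th j σ)) (hC : b + 2 < C) (hh : (1 / 2) ^ (J - 1) * lam b / 4 ≤ 1) {g : Ix → ℝ}
    (hg : StM J lam b g) : ∃ g', ReachM (SS J C) (170000000 * J ^ 3 * s) (26000000 * J ^ 3 * s) s g g'
      ∧ StM J lam (b + 1) g' := by
  set l := lam b with hl
  set m := lam (b + 1) with hm
  set k := lam (b - 1) with hk
  have hJr : (1 : ℝ) ≤ J := by exact_mod_cast hJ
  have hρr : (ρ : ℝ) = 120 * J := by rw [hρ]; push_cast; ring
  have hs0 : (0 : ℝ) < s := by exact_mod_cast hs
  have hs1 : (1 : ℝ) ≤ s := by exact_mod_cast hs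
  have hp0 := hp true 0
  have l0 := hp0.l0
  have m1 := hp0.m1
  have m2 := hp0.m2
  have hρ0 : (120 : ℝ) ≤ ρ := by rw [hρr]; linarith
  have hls1 : l * (1 / s) ≤ 4 / 3 * ρ := by
    rw [mul_one_div, div_le_iff₀ hs0]
    linarith
  have hsl : (s : ℝ) ≤ l := by
    have h1 : 2 * (ρ : ℝ) * s ≤ 3 * l := by linarith
    have h2 : 2 * 120 * (s : ℝ) ≤ 2 * (ρ : ℝ) * s := by
      refine mul_le_mul_of_nonneg_right ?_ hs0.le
      linarith
    linarith
  -- the trajectories
  set Fy : ℕ → Bool → ℕ → ℝ := fun j σ i => Yf l m (th j σ) (i / s) with hFy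
  set Fo : ℕ → Bool → ℕ → ℝ := fun j σ i => Of k l m (th j σ) (i / s) with hFo
  set Fm : ℕ → Bool → ℕ → ℝ := fun j σ i => Mf l m (th j σ) (i / s) with hFm
  have hx0 : ∀ i : ℕ, (0 : ℝ) ≤ (i : ℝ) / s := fun i => by positivity
  have hx1 : ∀ i : ℕ, i ≤ s → (i : ℝ) / s ≤ 1 := fun i hi => by
    rw [div_le_one hs0]
    exact_mod_cast hi
  have hxs : ∀ i : ℕ, ((i + 1 : ℕ) : ℝ) / s = (i : ℝ) / s + 1 / s := fun i => by
    push_cast
    ring
  have hys : ∀ j σ i, Fy j σ (i + 1) ≤ Fy j σ i ∧ Fy j σ i - Fy j σ (i + 1) ≤ 8 * ρ := by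
    intro j σ i
    have h1 := Yf_step (hp σ j) (x := (i : ℝ) / s) (y := ((i + 1 : ℕ) : ℝ) / s)
      (by rw [hxs]; linarith [one_div_pos.2 hs0])
    refine ⟨h1.1, h1.2.trans ?_⟩
    rw [hxs, add_sub_cancel_left]
    linarith
  have hos : ∀ j σ i, i < s → Fo j σ (i + 1) ≤ Fo j σ i ∧
      Fo j σ i - Fo j σ (i + 1) ≤ 72 * ρ := by
    intro j σ i hi
    have h1 := Of_step (hp σ j) (x := (i : ℝ) / s) (y := ((i + 1 : ℕ) : ℝ) / s) (hx0 i)
      (by rw [hxs]; linarith [one_div_pos.2 hs0]) (hx1 (i + 1) hi)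
    refine ⟨h1.1, h1.2.trans ?_⟩
    rw [hxs, add_sub_cancel_left]
    linarith
  have hms : ∀ j σ i, Fm j σ i = (1 + th j σ) * l - 2 * ρ * i := by
    intro j σ i
    simp only [hFm]
    unfold Mf
    have : (l + m) * ((i : ℝ) / s) = 2 * ρ * i := by
      rw [hls]
      field_simp
    rw [this]
  have hyB : ∀ j σ i, i ≤ s → |Fy j σ i| ≤ 7 * l := fun j σ i hi =>
    Yf_bd (hp σ j) (hx0 i) (hx1 i hi)
  have hoB : ∀ j σ i, i ≤ s → |Fo j σ i| ≤ 7 * l := fun j σ i hi =>
    Of_bd (hp σ j) (hx0 i) (hx1 i hi)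
  have hy0 : ∀ j σ, Fy j σ 0 = 6 * l := by
    intro j σ
    simp only [hFy, Nat.cast_zero, zero_div]
    exact Yf_zero l m _
  have ho0 : ∀ j σ, Fo j σ 0 = -(l - th j σ * k) := by
    intro j σ
    simp only [hFo, Nat.cast_zero, zero_div]
    exact Of_zero (hp σ j)
  have hya : ∀ j σ i, Fy j σ i ≤ Fy j σ 0 := by
    intro j σ i
    induction i with
    | zero => exact le_rfl
    | succ i ih => exact (hys j σ i).1.trans ih
  have hoa : ∀ j σ i, i ≤ s → Fo j σ i ≤ Fo j σ 0 := by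
    intro j σ i
    induction i with
    | zero => intro _; exact le_rfl
    | succ i ih => intro hi; exact (hos j σ i (by omega)).1.trans (ih (by omega))
  -- the rounding errors
  set ey : ℕ → Bool → ℕ → ℝ := fun j σ i =>
    (rd (Fy j σ) (i + 1) : ℝ) - rd (Fy j σ) i - (Fy j σ i - Fy j σ (i + 1)) / 2 with hey
  set eo : ℕ → Bool → ℕ → ℝ := fun j σ i =>
    (rd (Fo j σ) (i + 1) : ℝ) - rd (Fo j σ) i - (Fo j σ i - Fo j σ (i + 1)) / 2 with heo
  have hey1 : ∀ j σ i, |ey j σ i| ≤ 1 := by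
    intro j σ i
    simp only [hey]
    have a1 := rd_le (hya j σ i)
    have a2 := rd_le (hya j σ (i + 1))
    have a3 := rd_gt (Fy j σ) i
    have a4 := rd_gt (Fy j σ) (i + 1)
    rw [abs_le]
    constructor <;> linarith
  have heo1 : ∀ j σ i, i < s → |eo j σ i| ≤ 1 := by
    intro j σ i hi
    simp only [heo]
    have a1 := rd_le (hoa j σ i hi.le)
    have a2 := rd_le (hoa j σ (i + 1) hi)
    have a3 := rd_gt (Fo j σ) i
    have a4 := rd_gt (Fo j σ) (i + 1)
    rw [abs_le]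
    constructor <;> linarith
  set ty : ℕ → Bool → ℕ → ℝ := fun j σ i => ey j σ i * ((Fy j σ i + Fy j σ (i + 1)) / 2) with hty
  set tz : ℕ → Bool → ℕ → ℝ := fun j σ i => eo j σ i * ((Fo j σ i + Fo j σ (i + 1)) / 2) with htz
  set T : ℕ → ℝ := fun i => ∑ j ∈ range J,
    ((ty j true i + tz j true i) + (ty j false i + tz j false i)) with hT
  have havg : ∀ {a c B : ℝ}, |a| ≤ B → |c| ≤ B → |(a + c) / 2| ≤ B := by
    intro a c B ha hc
    rw [abs_le] at ha hc ⊢
    constructor <;> linarith [ha.1, ha.2, hc.1, hc.2]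
  have hTb : ∀ i, i < s → |T i| ≤ 28 * J * l := by
    intro i hi
    have h1 : ∀ j σ, |ty j σ i| ≤ 7 * l := by
      intro j σ
      simp only [hty]
      rw [abs_mul]
      calc |ey j σ i| * |(Fy j σ i + Fy j σ (i + 1)) / 2| ≤ 1 * (7 * l) :=
            mul_le_mul (hey1 j σ i) (havg (hyB j σ i hi.le) (hyB j σ (i + 1) hi))
              (abs_nonneg _) (by norm_num)
        _ = 7 * l := one_mul _
    have h2 : ∀ j σ, |tz j σ i| ≤ 7 * l := by
      intro j σ
      simp only [htz]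
      rw [abs_mul]
      calc |eo j σ i| * |(Fo j σ i + Fo j σ (i + 1)) / 2| ≤ 1 * (7 * l) :=
            mul_le_mul (heo1 j σ i hi) (havg (hoB j σ i hi.le) (hoB j σ (i + 1) hi))
              (abs_nonneg _) (by norm_num)
        _ = 7 * l := one_mul _
    calc |T i| ≤ ∑ j ∈ range J, |(ty j true i + tz j true i) + (ty j false i + tz j false i)| :=
          abs_sum_le_sum_abs _ _
      _ ≤ ∑ j ∈ range J, 28 * l := by
          refine sum_le_sum fun j _ => ?_
          have a1 := abs_le.1 (h1 j true)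
          have a2 := abs_le.1 (h2 j true)
          have a3 := abs_le.1 (h1 j false)
          have a4 := abs_le.1 (h2 j false)
          rw [abs_le]
          constructor <;> linarith [a1.1, a1.2, a2.1, a2.2, a3.1, a3.2, a4.1, a4.2]
      _ = 28 * J * l := by rw [sum_const, card_range, nsmul_eq_mul]; ring
  have hTs : ∀ i ≤ s, |∑ a ∈ range i, T a| ≤ 84 * J * l := by
    intro i hi
    have h0 : ∑ a ∈ range i, T a = ∑ j ∈ range J,
        ((∑ a ∈ range i, ty j true a + ∑ a ∈ range i, tz j true a) +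
        (∑ a ∈ range i, ty j false a + ∑ a ∈ range i, tz j false a)) := by
      simp only [hT]
      rw [sum_comm]
      refine sum_congr rfl fun j _ => ?_
      simp only [sum_add_distrib]
    have h1 : ∀ j σ, |∑ a ∈ range i, ty j σ a| ≤ 3 * (7 * l) := fun j σ =>
      rd_abel (F := Fy j σ) (s := s) (fun a _ => (hys j σ a).1) (fun a ha => hyB j σ a ha) i hi
    have h2 : ∀ j σ, |∑ a ∈ range i, tz j σ a| ≤ 3 * (7 * l) := fun j σ =>
      rd_abel (F := Fo j σ) (s := s) (fun a ha => (hos j σ a ha).1) (fun a ha => hoB j σ a ha) i hi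
    rw [h0]
    calc _ ≤ ∑ j ∈ range J, |(∑ a ∈ range i, ty j true a + ∑ a ∈ range i, tz j true a) +
        (∑ a ∈ range i, ty j false a + ∑ a ∈ range i, tz j false a)| := abs_sum_le_sum_abs _ _
      _ ≤ ∑ j ∈ range J, 84 * l := by
          refine sum_le_sum fun j _ => ?_
          have a1 := abs_le.1 (h1 j true)
          have a2 := abs_le.1 (h2 j true)
          have a3 := abs_le.1 (h1 j false)
          have a4 := abs_le.1 (h2 j false)
          rw [abs_le]
          constructor <;> linarith [a1.1, a1.2, a2.1, a2.2, a3.1, a3.2, a4.1, a4.2]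
      _ = 84 * J * l := by rw [sum_const, card_range, nsmul_eq_mul]; ring
  -- the digits
  set h : ℕ → ℝ := fun j => (1 / 2) ^ j * l / 4 with hhdef
  have hpos : ∀ j, 0 < h j := fun j => by simp only [hhdef]; positivity
  have hhalf : ∀ j, h j = 2 * h (j + 1) := fun j => by simp only [hhdef]; ring
  have hh0 : h 0 = l / 4 := by simp only [hhdef]; ring
  obtain ⟨d, hd⟩ := steer hpos hhalf hJ T
  have hD0 := steer_top hpos hhalf hJ (T := T) (d := d) (B := 84 * J * l) (s := s)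
    (fun i j hj => (hd i).1 j hj) (fun i => (hd i).2.2.2) hTs
  have hdb : ∀ i, i < s → ∀ j, |(d i j : ℝ)| ≤ ρ := by
    intro i hi j
    rcases Nat.eq_zero_or_pos j with h1 | h1
    · subst h1
      have h2 := (hd i).2.2.1
      have h3 : |T i| / h 0 ≤ 112 * J := by
        rw [hh0, div_le_iff₀ (by positivity)]
        have := hTb i hi
        linarith
      rw [hρr]
      linarith
    · have h2 : |(d i j : ℝ)| ≤ 2 := by exact_mod_cast (hd i).2.1 j h1
      linarith
  have hDb : ∀ i, i ≤ s → ∀ j, |((∑ a ∈ range i, d a j : ℤ) : ℝ)| ≤ 342 * J := by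
    intro i hi j
    rcases Nat.eq_zero_or_pos j with h1 | h1
    · subst h1
      have h2 := hD0 i hi
      rw [hh0] at h2
      have h3 : (s : ℝ) * h (J - 1) ≤ l := by
        calc (s : ℝ) * h (J - 1) ≤ s * 1 := mul_le_mul_of_nonneg_left hh hs0.le
          _ ≤ l := by linarith
      have h4 : |((∑ a ∈ range i, d a 0 : ℤ) : ℝ)| * (l / 4) ≤ (342 * J) * (l / 4) := by
        nlinarith
      exact le_of_mul_le_mul_right h4 (by positivity)
    · have h2 : |((∑ a ∈ range i, d a j : ℤ) : ℝ)| ≤ 2 := by exact_mod_cast (hd i).1 j h1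
      linarith
  -- the path
  set f : ℕ → Ix → ℝ := fun i x => if x.2.2 = b then g x - 2 * rd (Fo x.1 x.2.1) i else
    if x.2.2 = b + 1 then g x - 2 * (ρ * i + (sg x.2.1 : ℝ) * ((∑ a ∈ range i, d a x.1 : ℤ) : ℝ))
    else if x.2.2 = b + 2 then g x - 2 * rd (Fy x.1 x.2.1) i else g x with hf
  set v : ℕ → Ix → ℕ := fun i x => if x.2.2 = b then rd (Fo x.1 x.2.1) (i + 1) -
      rd (Fo x.1 x.2.1) i else
    if x.2.2 = b + 1 then (ρ + sg x.2.1 * d i x.1).toNat
    else if x.2.2 = b + 2 then rd (Fy x.1 x.2.1) (i + 1) - rd (Fy x.1 x.2.1) i else 0 with hv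
  have fb : ∀ i j σ, f i (j, σ, b) = g (j, σ, b) - 2 * rd (Fo j σ) i := fun i j σ => by
    simp [hf]
  have fb1 : ∀ i j σ, f i (j, σ, b + 1) = g (j, σ, b + 1) -
      2 * (ρ * i + (sg σ : ℝ) * ((∑ a ∈ range i, d a j : ℤ) : ℝ)) := fun i j σ => by
    simp [hf]
  have fb2 : ∀ i j σ, f i (j, σ, b + 2) = g (j, σ, b + 2) - 2 * rd (Fy j σ) i := fun i j σ => by
    simp [hf]
  have fo : ∀ i j σ c, c ≠ b → c ≠ b + 1 → c ≠ b + 2 → f i (j, σ, c) = g (j, σ, c) :=
    fun i j σ c h0 h1 h2 => by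
      simp only [hf]
      rw [if_neg h0, if_neg h1, if_neg h2]
  have hsg : ∀ σ, (sg σ : ℝ) = 1 ∨ (sg σ : ℝ) = -1 := by
    intro σ
    cases σ <;> simp [sg]
  have hsgabs : ∀ σ (y : ℝ), |(sg σ : ℝ) * y| = |y| := by
    intro σ y
    rcases hsg σ with h1 | h1 <;> rw [h1] <;> simp
  have hvm : ∀ i, i < s → ∀ j σ, 0 ≤ (ρ : ℤ) + sg σ * d i j := by
    intro i hi j σ
    have h1 := hdb i hi j
    rw [← hsgabs σ] at h1
    have h2 := (abs_le.1 h1).1
    have h3 : (0 : ℝ) ≤ ρ + sg σ * d i j := by linarith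
    exact_mod_cast h3
  have hstep : ∀ i < s, ∀ x, f i x - f (i + 1) x = 2 * v i x := by
    rintro i hi ⟨j, σ, c⟩
    by_cases c0 : c = b
    · subst c0
      rw [fb, fb]
      simp only [hv, if_true]
      rw [Nat.cast_sub (rd_mono (hos j σ i hi).1)]
      ring
    by_cases c1 : c = b + 1
    · subst c1
      rw [fb1, fb1]
      have e1 : ((v i (j, σ, b + 1) : ℕ) : ℝ) = ρ + sg σ * d i j := by
        simp only [hv]
        rw [if_neg (by omega), if_true]
        have h1 := hvm i hi j σ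
        have h2 : (((ρ + sg σ * d i j).toNat : ℕ) : ℤ) = ρ + sg σ * d i j := Int.toNat_of_nonneg h1
        have h3 : (((ρ + sg σ * d i j).toNat : ℕ) : ℝ) = ((ρ + sg σ * d i j : ℤ) : ℝ) := by
          rw [← h2]
          push_cast
          rfl
        rw [h3]
        push_cast
        ring
      rw [e1, sum_range_succ]
      push_cast
      ring
    by_cases c2 : c = b + 2
    · subst c2
      rw [fb2, fb2]
      simp only [hv]
      rw [if_neg (by omega), if_neg (by omega), if_true, Nat.cast_sub (rd_mono (hys j σ i).1)]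
      ring
    · rw [fo i j σ c c0 c1 c2, fo (i + 1) j σ c c0 c1 c2]
      simp only [hv]
      rw [if_neg c0, if_neg c1, if_neg c2]
      simp
  have hgy : ∀ j σ, g (j, σ, b + 2) = 6 * l := by
    intro j σ
    have := hg.fut j σ (b + 2) le_rfl
    rwa [Nat.add_sub_cancel] at this
  -- the deviations
  have do1 : ∀ i, i ≤ s → ∀ j σ, |f i (j, σ, b) - Fo j σ i| ≤ 688 * J := by
    intro i hi j σ
    rw [fb]
    have a1 := rd_le (hoa j σ i hi)
    have a2 := rd_gt (Fo j σ) i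
    have a3 := abs_le.1 (hg.cur j σ)
    have a4 := ho0 j σ
    rw [a4] at a1 a2
    rw [abs_le]
    constructor <;> linarith [a3.1, a3.2]
  have dm1 : ∀ i, i ≤ s → ∀ j σ, |f i (j, σ, b + 1) - Fm j σ i| ≤ 686 * J := by
    intro i hi j σ
    rw [fb1, hms]
    have a1 := hDb i hi j
    rw [← hsgabs σ] at a1
    have a2 := abs_le.1 a1
    have a3 := abs_le.1 (hg.mid j σ)
    rw [abs_le]
    constructor <;> linarith [a2.1, a2.2, a3.1, a3.2]
  have dy1 : ∀ i, ∀ j σ, |f i (j, σ, b + 2) - Fy j σ i| ≤ 2 := by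
    intro i j σ
    rw [fb2, hgy]
    have a1 := rd_le (hya j σ i)
    have a2 := rd_gt (Fy j σ) i
    have a4 := hy0 j σ
    rw [a4] at a1 a2
    rw [abs_le]
    constructor <;> linarith
  -- the sizes of the steps
  have vo1 : ∀ i, i < s → ∀ j σ, 0 ≤ (f i (j, σ, b) - f (i + 1) (j, σ, b)) / 2 ∧
      (f i (j, σ, b) - f (i + 1) (j, σ, b)) / 2 ≤ 37 * ρ := by
    intro i hi j σ
    have e1 : (f i (j, σ, b) - f (i + 1) (j, σ, b)) / 2 =
        eo j σ i + (Fo j σ i - Fo j σ (i + 1)) / 2 := by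
      rw [fb, fb]
      simp only [heo]
      ring
    constructor
    · rw [hstep i hi]
      positivity
    · rw [e1]
      have a1 := abs_le.1 (heo1 j σ i hi)
      have a2 := (hos j σ i hi).2
      linarith [a1.2]
  have vy1 : ∀ i, i < s → ∀ j σ, 0 ≤ (f i (j, σ, b + 2) - f (i + 1) (j, σ, b + 2)) / 2 ∧
      (f i (j, σ, b + 2) - f (i + 1) (j, σ, b + 2)) / 2 ≤ 5 * ρ := by
    intro i hi j σ
    have e1 : (f i (j, σ, b + 2) - f (i + 1) (j, σ, b + 2)) / 2 =
        ey j σ i + (Fy j σ i - Fy j σ (i + 1)) / 2 := by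
      rw [fb2, fb2]
      simp only [hey]
      ring
    constructor
    · rw [hstep i hi]
      positivity
    · rw [e1]
      have a1 := abs_le.1 (hey1 j σ i)
      have a2 := (hys j σ i).2
      linarith [a1.2]
  have em1 : ∀ i j σ, (f i (j, σ, b + 1) - f (i + 1) (j, σ, b + 1)) / 2 =
        ρ + sg σ * d i j := by
    intro i j σ
    rw [fb1, fb1, sum_range_succ]
    push_cast
    ring
  have vm1 : ∀ i, i < s → ∀ j σ, 0 ≤ (f i (j, σ, b + 1) - f (i + 1) (j, σ, b + 1)) / 2 ∧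
      (f i (j, σ, b + 1) - f (i + 1) (j, σ, b + 1)) / 2 ≤ 2 * ρ := by
    intro i hi j σ
    rw [em1]
    have h1 := hdb i hi j
    rw [← hsgabs σ] at h1
    have h2 := abs_le.1 h1
    constructor <;> linarith [h2.1, h2.2]
  -- the change of the sum of squares, for one level and sign
  have hone : ∀ i, i < s → ∀ j σ, |∑ c ∈ range C, ((f i (j, σ, c)) ^ 2 -
      (f (i + 1) (j, σ, c)) ^ 2) - 4 * (ty j σ i + tz j σ i) -
      2 * (sg σ * d i j) * (Fm j σ i + Fm j σ (i + 1))| ≤ 108000 * ρ * J := by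
    intro i hi j σ
    rw [sum_three hC (fun c => (f i (j, σ, c)) ^ 2 - (f (i + 1) (j, σ, c)) ^ 2)
      (fun c c0 c1 c2 => by
        beta_reduce
        rw [fo i j σ c c0 c1 c2, fo (i + 1) j σ c c0 c1 c2, sub_self])]
    have hsp1 := sphere (hp σ j) (hx0 i) (hx1 i hi.le)
    have hsp2 := sphere (hp σ j) (hx0 (i + 1)) (hx1 (i + 1) hi)
    have hsp : Fy j σ i ^ 2 + Fm j σ i ^ 2 + Fo j σ i ^ 2 =
        Fy j σ (i + 1) ^ 2 + Fm j σ (i + 1) ^ 2 + Fo j σ (i + 1) ^ 2 := hsp1.trans hsp2.symm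
    have hmd : Fm j σ i - Fm j σ (i + 1) = 2 * ρ := by
      rw [hms, hms]
      push_cast
      ring
    obtain ⟨o1, o2⟩ := vo1 i hi j σ
    obtain ⟨y1, y2⟩ := vy1 i hi j σ
    obtain ⟨n1, n2⟩ := vm1 i hi j σ
    have no := em1 i j σ
    have eo' : (f i (j, σ, b) - f (i + 1) (j, σ, b)) / 2 =
        eo j σ i + (Fo j σ i - Fo j σ (i + 1)) / 2 := by
      rw [fb, fb]
      simp only [heo]
      ring
    have ey' : (f i (j, σ, b + 2) - f (i + 1) (j, σ, b + 2)) / 2 =
        ey j σ i + (Fy j σ i - Fy j σ (i + 1)) / 2 := by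
      rw [fb2, fb2]
      simp only [hey]
      ring
    have p1 := abs_le.1 (do1 i hi.le j σ)
    have p2 := abs_le.1 (do1 (i + 1) hi j σ)
    have p3 := abs_le.1 (dm1 i hi.le j σ)
    have p4 := abs_le.1 (dm1 (i + 1) hi j σ)
    have p5 := abs_le.1 (dy1 i j σ)
    have p6 := abs_le.1 (dy1 (i + 1) j σ)
    simp only [hty, htz]
    generalize f i (j, σ, b) = fo1 at *
    generalize f (i + 1) (j, σ, b) = fo2 at *
    generalize f i (j, σ, b + 1) = fm1 at *
    generalize f (i + 1) (j, σ, b + 1) = fm2 at *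
    generalize f i (j, σ, b + 2) = fy1 at *
    generalize f (i + 1) (j, σ, b + 2) = fy2 at *
    generalize Fo j σ i = Fo1 at *
    generalize Fo j σ (i + 1) = Fo2 at *
    generalize Fm j σ i = Fm1 at *
    generalize Fm j σ (i + 1) = Fm2 at *
    generalize Fy j σ i = Fy1 at *
    generalize Fy j σ (i + 1) = Fy2 at *
    generalize ey j σ i = ey1 at *
    generalize eo j σ i = eo1 at *
    have key : fo1 ^ 2 - fo2 ^ 2 + (fm1 ^ 2 - fm2 ^ 2) + (fy1 ^ 2 - fy2 ^ 2) -
        4 * (ey1 * ((Fy1 + Fy2) / 2) + eo1 * ((Fo1 + Fo2) / 2)) -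
        2 * (sg σ * d i j) * (Fm1 + Fm2) =
        2 * ((fo1 - fo2) / 2) * ((fo1 - Fo1) + (fo2 - Fo2)) +
        2 * ((fm1 - fm2) / 2) * ((fm1 - Fm1) + (fm2 - Fm2)) +
        2 * ((fy1 - fy2) / 2) * ((fy1 - Fy1) + (fy2 - Fy2)) := by
      have q1 : eo1 = (fo1 - fo2) / 2 - (Fo1 - Fo2) / 2 := by linarith
      have q2 : ey1 = (fy1 - fy2) / 2 - (Fy1 - Fy2) / 2 := by linarith
      have q3 : (sg σ : ℝ) * d i j = (fm1 - fm2) / 2 - (Fm1 - Fm2) / 2 := by linarith
      rw [q1, q2, q3]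
      linear_combination hsp
    rw [key]
    have z1 : |2 * ((fo1 - fo2) / 2) * ((fo1 - Fo1) + (fo2 - Fo2))| ≤
        2 * (37 * ρ) * (1376 * J) := by
      rw [abs_mul, abs_of_nonneg (by linarith : 0 ≤ 2 * ((fo1 - fo2) / 2))]
      refine mul_le_mul (by linarith) ?_ (abs_nonneg _) (by positivity)
      rw [abs_le]
      constructor <;> linarith [p1.1, p1.2, p2.1, p2.2]
    have z2 : |2 * ((fm1 - fm2) / 2) * ((fm1 - Fm1) + (fm2 - Fm2))| ≤
        2 * (2 * ρ) * (1372 * J) := by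
      rw [abs_mul, abs_of_nonneg (by linarith : 0 ≤ 2 * ((fm1 - fm2) / 2))]
      refine mul_le_mul (by linarith) ?_ (abs_nonneg _) (by positivity)
      rw [abs_le]
      constructor <;> linarith [p3.1, p3.2, p4.1, p4.2]
    have z3 : |2 * ((fy1 - fy2) / 2) * ((fy1 - Fy1) + (fy2 - Fy2))| ≤
        2 * (5 * ρ) * (4 * J) := by
      rw [abs_mul, abs_of_nonneg (by linarith : 0 ≤ 2 * ((fy1 - fy2) / 2))]
      refine mul_le_mul (by linarith) ?_ (abs_nonneg _) (by positivity)
      rw [abs_le]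
      constructor <;> linarith [p5.1, p5.2, p6.1, p6.2]
    have z4 : (0 : ℝ) ≤ ρ * J := by positivity
    have z5 := abs_le.1 z1
    have z6 := abs_le.1 z2
    have z7 := abs_le.1 z3
    rw [abs_le]
    constructor <;> linarith [z5.1, z5.2, z6.1, z6.2, z7.1, z7.2]
  -- the change of the sum of squares, all levels
  have henergy : ∀ i, i < s → |∑ x ∈ SS J C, ((f i x) ^ 2 - (f (i + 1) x) ^ 2)| ≤
      26000000 * (J : ℝ) ^ 3 := by
    intro i hi
    rw [sum_SS]
    have h1 : ∀ j ∈ range J, |(∑ c ∈ range C, ((f i (j, true, c)) ^ 2 -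
        (f (i + 1) (j, true, c)) ^ 2) + ∑ c ∈ range C, ((f i (j, false, c)) ^ 2 -
        (f (i + 1) (j, false, c)) ^ 2)) - 4 * ((ty j true i + tz j true i) +
        (ty j false i + tz j false i)) - 4 * ((d i j : ℝ) * h j)| ≤ 216000 * ρ * J := by
      intro j _
      have a1 := abs_le.1 (hone i hi j true)
      have a2 := abs_le.1 (hone i hi j false)
      have a3 : 2 * ((sg true : ℝ) * d i j) * (Fm j true i + Fm j true (i + 1)) +
          2 * ((sg false : ℝ) * d i j) * (Fm j false i + Fm j false (i + 1)) =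
          4 * ((d i j : ℝ) * h j) := by
        rw [hms, hms, hms, hms]
        simp only [hhdef]
        unfold th sg
        simp only [if_true, Bool.false_eq_true, if_false]
        push_cast
        ring
      rw [abs_le]
      constructor <;> linarith [a1.1, a1.2, a2.1, a2.2]
    have h2 := (abs_sum_le_sum_abs (fun j => (∑ c ∈ range C, ((f i (j, true, c)) ^ 2 -
        (f (i + 1) (j, true, c)) ^ 2) + ∑ c ∈ range C, ((f i (j, false, c)) ^ 2 -
        (f (i + 1) (j, false, c)) ^ 2)) - 4 * ((ty j true i + tz j true i) +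
        (ty j false i + tz j false i)) - 4 * ((d i j : ℝ) * h j)) (range J)).trans
        (sum_le_sum h1)
    rw [sum_sub_distrib, sum_sub_distrib, ← mul_sum, ← mul_sum, sum_const, card_range,
      nsmul_eq_mul] at h2
    have h3 := (hd i).2.2.2
    have h4 : h (J - 1) ≤ 1 := hh
    have h5 : T i = ∑ j ∈ range J, ((ty j true i + tz j true i) +
        (ty j false i + tz j false i)) := rfl
    rw [← h5] at h2
    have a1 := abs_le.1 h2
    have a2 := abs_le.1 h3
    have h6 : (J : ℝ) * (216000 * ρ * J) = 25920000 * (J : ℝ) ^ 3 := by rw [hρr]; ring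
    rw [h6] at a1
    have h7 : (1 : ℝ) ≤ (J : ℝ) ^ 3 := one_le_pow₀ hJr
    rw [abs_le]
    constructor <;> linarith [a1.1, a1.2, a2.1, a2.2]
  have htrace : ∀ i, i < s → ∑ x ∈ SS J C, (f i x - f (i + 1) x) ^ 2 ≤
      170000000 * (J : ℝ) ^ 3 := by
    intro i hi
    rw [sum_SS]
    have h1 : ∀ j σ, ∑ c ∈ range C, (f i (j, σ, c) - f (i + 1) (j, σ, c)) ^ 2 ≤
        5592 * (ρ : ℝ) ^ 2 := by
      intro j σ
      rw [sum_three hC (fun c => (f i (j, σ, c) - f (i + 1) (j, σ, c)) ^ 2)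
        (fun c c0 c1 c2 => by
          beta_reduce
          rw [fo i j σ c c0 c1 c2, fo (i + 1) j σ c c0 c1 c2]
          ring)]
      obtain ⟨o1, o2⟩ := vo1 i hi j σ
      obtain ⟨y1, y2⟩ := vy1 i hi j σ
      obtain ⟨n1, n2⟩ := vm1 i hi j σ
      have z1 : (f i (j, σ, b) - f (i + 1) (j, σ, b)) ^ 2 ≤ (74 * ρ : ℝ) ^ 2 :=
        pow_le_pow_left₀ (by linarith) (by linarith) 2
      have z2 : (f i (j, σ, b + 1) - f (i + 1) (j, σ, b + 1)) ^ 2 ≤ (4 * ρ : ℝ) ^ 2 :=
        pow_le_pow_left₀ (by linarith) (by linarith) 2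
      have z3 : (f i (j, σ, b + 2) - f (i + 1) (j, σ, b + 2)) ^ 2 ≤ (10 * ρ : ℝ) ^ 2 :=
        pow_le_pow_left₀ (by linarith) (by linarith) 2
      nlinarith
    calc _ ≤ ∑ j ∈ range J, (5592 * (ρ : ℝ) ^ 2 + 5592 * (ρ : ℝ) ^ 2) :=
          sum_le_sum fun j _ => add_le_add (h1 j true) (h1 j false)
      _ = J * (5592 * (ρ : ℝ) ^ 2 + 5592 * (ρ : ℝ) ^ 2) := by
          rw [sum_const, card_range, nsmul_eq_mul]
      _ ≤ 170000000 * (J : ℝ) ^ 3 := by
          rw [hρr]
          have : (0 : ℝ) ≤ (J : ℝ) ^ 3 := by positivity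
          nlinarith
  refine ⟨f s, ⟨f, v, ?_, rfl, hstep, ?_, ?_⟩, ?_⟩
  · funext x
    obtain ⟨j, σ, c⟩ := x
    by_cases c0 : c = b
    · subst c0
      rw [fb, rd_zero]
      simp
    by_cases c1 : c = b + 1
    · subst c1
      rw [fb1]
      simp
    by_cases c2 : c = b + 2
    · subst c2
      rw [fb2, rd_zero]
      simp
    · exact fo 0 j σ c c0 c1 c2
  · calc _ ≤ ∑ i ∈ range s, 26000000 * (J : ℝ) ^ 3 :=
          sum_le_sum fun i hi => henergy i (mem_range.1 hi)
      _ = 26000000 * (J : ℝ) ^ 3 * s := by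
          rw [sum_const, card_range, nsmul_eq_mul]
          ring
  · calc _ ≤ ∑ i ∈ range s, 170000000 * (J : ℝ) ^ 3 :=
          sum_le_sum fun i hi => htrace i (mem_range.1 hi)
      _ = 170000000 * (J : ℝ) ^ 3 * s := by
          rw [sum_const, card_range, nsmul_eq_mul]
          ring
  · have hss : (s : ℝ) / s = 1 := div_self hs0.ne'
    refine ⟨?_, ?_, ?_, ?_⟩
    · intro j σ c hc
      rcases Nat.lt_succ_iff_lt_or_eq.1 hc with h1 | h1
      · rw [fo s j σ c (by omega) (by omega) (by omega)]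
        exact hg.old j σ c h1
      · subst h1
        have h2 := do1 s le_rfl j σ
        have h3 : Fo j σ s = -Real.sqrt (Hf k l m (th j σ) 1) := by
          simp only [hFo]
          rw [hss]
          rfl
        rw [h3, sub_neg_eq_add] at h2
        exact h2
    · intro j σ
      have h2 := dm1 s le_rfl j σ
      have h3 : Fm j σ s = -(m - th j σ * l) := by
        simp only [hFm]
        rw [hss]
        unfold Mf
        ring
      rw [h3, sub_neg_eq_add] at h2
      rw [Nat.add_sub_cancel]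
      exact h2
    · intro j σ
      have h2 := dy1 s j σ
      have h3 : Fy j σ s = (1 + th j σ) * m := by
        simp only [hFy]
        rw [hss]
        exact Yf_one l m _
      rw [h3] at h2
      exact h2
    · intro j σ c hc
      rw [fo s j σ c (by omega) (by omega) (by omega)]
      exact hg.fut j σ c (by omega)

end Pool.Agent.H62.DC
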