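import Mathlib

/-!
# Directed cuts in acyclic weighted digraphs
-/

set_option autoImplicit false

namespace Pool.Agent.H62.DC

open Finset

/-- A weighted digraph on `n` vertices is given by the weights `a u v` of the arcs from `u` to `v`,
with `a u v = 0` if there is no such arc. It is acyclic if there is no directed cycle. -/
def Acyclic {n : ℕ} (a : Fin n → Fin n → ℝ) : Prop :=
  ∀ v, ¬ Relation.TransGen (fun x y => a x y ≠ 0) v v

/-- The weight of the directed cut of the arcs with tail in `X` and head outside of `X`. -/
def dicut {n : ℕ} (a : Fin n → Fin n → ℝ) (X : Finset (Fin n)) : ℝ :=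
  ∑ u ∈ X, ∑ v ∈ Xᶜ, a u v

/-- `hOmega w` is the supremum of the reals `g` such that every acyclic weighted digraph with all
arc weights at least `1` and total weight `w` has a directed cut of weight at least `g`. -/
noncomputable def hOmega (w : ℝ) : ℝ :=
  sSup {g : ℝ | ∀ (n : ℕ) (a : Fin n → Fin n → ℝ), Acyclic a → (∀ u v, a u v = 0 ∨ 1 ≤ a u v) →
    ∑ u, ∑ v, a u v = w → ∃ X : Finset (Fin n), g ≤ dicut a X}

end Pool.Agent.H62.DC
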