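import Mathlib
import Pool.Agent.H62.DC.Defs
import Pool.Agent.H62.DC.Block

/-!
# The upper bound for weighted digraphs
-/

set_option autoImplicit false

namespace Pool.Agent.H62.DC

open Finset

/-- Arcs go from smaller to larger vertices. -/
theorem acyclic_of_lt {n : ℕ} {a : Fin n → Fin n → ℝ} (h : ∀ u v, a u v ≠ 0 → u < v) :
    Acyclic a := by
  intro v hv
  have h1 : ∀ x y : Fin n, Relation.TransGen (fun x y => a x y ≠ 0) x y → x < y := by
    intro x y hxy
    induction hxy with
    | single h2 => exact h _ _ h2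
    | tail _ h2 ih => exact ih.trans (h _ _ h2)
  exact lt_irrefl v (h1 v v hv)

/-- The digraph of a function of pairs `i < j`, multiplied by `κ`. -/
noncomputable def gr (κ : ℝ) (w : ℕ → ℕ → ℝ) (N : ℕ) (u v : Fin N) : ℝ :=
  if (u : ℕ) < v then κ * w u v else 0

theorem sum_gr (κ : ℝ) (w : ℕ → ℕ → ℝ) (N : ℕ) :
    ∑ u, ∑ v, gr κ w N u v = κ * ∑ j ∈ range N, ∑ i ∈ range j, w i j := by
  rw [sum_comm, mul_sum, ← Fin.sum_univ_eq_sum_range (fun j => κ * ∑ i ∈ range j, w i j)]
  refine sum_congr rfl fun v _ => ?_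
  have h1 : ∑ u, gr κ w N u v = ∑ u : Fin N, (fun u : ℕ => if u < (v : ℕ) then κ * w u v else 0) u :=
    rfl
  rw [h1, Fin.sum_univ_eq_sum_range (fun u : ℕ => if u < (v : ℕ) then κ * w u v else 0), mul_sum,
    ← sum_filter]
  refine sum_congr ?_ fun _ _ => rfl
  ext i
  simp only [mem_filter, mem_range]
  have := v.2
  omega

theorem dicut_gr (κ : ℝ) (w : ℕ → ℕ → ℝ) (N : ℕ) (X : Finset (Fin N)) (x : ℕ → ℝ)
    (hx : ∀ u : Fin N, x u = if u ∈ X then 1 else -1) :
    dicut (gr κ w N) X = κ * ∑ j ∈ range N, ∑ i ∈ range j, w i j * ((1 + x i) * (1 - x j) / 4) := by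
  have h1 := sum_gr κ (fun i j => w i j * ((1 + x i) * (1 - x j) / 4)) N
  rw [← h1]
  unfold dicut
  rw [← sum_subset (subset_univ X)]
  · refine sum_congr rfl fun u hu => ?_
    rw [← sum_subset (subset_univ Xᶜ)]
    · refine sum_congr rfl fun v hv => ?_
      have hv' : v ∉ X := by simpa using hv
      unfold gr
      beta_reduce
      rw [hx u, hx v, if_pos hu, if_neg hv']
      norm_num
    · intro v _ hv
      have hv' : v ∈ X := by simpa using hv
      unfold gr
      beta_reduce
      rw [hx v, if_pos hv']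
      simp
  · intro u _ hu
    refine sum_eq_zero fun v _ => ?_
    unfold gr
    beta_reduce
    rw [hx u, if_neg hu]
    simp

/-- The digraph of a path. -/
theorem reach_graph {C N : ℕ} {A B E : ℝ} {g g' : ℕ → ℝ} (h : Reach C A N g g')
    (hB : ∑ c ∈ range C, (g c + g' c) ^ 2 ≤ B) (hE : ∑ c ∈ range C, (g c - g' c) ^ 2 = E) :
    ∃ w : ℝ, (E - A) / 8 ≤ w ∧ w ≤ E / 8 ∧ ∀ κ : ℝ, 1 ≤ κ → ∃ a : Fin N → Fin N → ℝ, Acyclic a ∧
      (∀ u v, a u v = 0 ∨ 1 ≤ a u v) ∧ ∑ u, ∑ v, a u v = κ * w ∧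
      ∀ X, dicut a X ≤ κ * w / 4 + κ * ((A + B) / 32) := by
  obtain ⟨f, f0, fN, fs, fq, fA⟩ := h
  have hA0 : 0 ≤ ∑ i ∈ range N, ∑ c ∈ range C, (f i c - f (i + 1) c) ^ 2 :=
    sum_nonneg fun i _ => sum_nonneg fun c _ => sq_nonneg _
  have hw := total_W C f N
  rw [f0, fN, hE] at hw
  refine ⟨∑ j ∈ range N, ∑ i ∈ range j, W C f i j, by rw [hw]; linarith, by rw [hw]; linarith,
    fun κ hκ => ⟨gr κ (W C f) N, ?_, ?_, ?_, ?_⟩⟩
  · refine acyclic_of_lt fun u v huv => ?_
    unfold gr at huv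
    by_contra hcon
    rw [if_neg (fun h => hcon (Fin.lt_def.2 h))] at huv
    exact huv rfl
  · intro u v
    unfold gr
    split_ifs with huv
    · by_cases hz : ∀ c ∈ range C, ((f u c - f (u + 1) c) / 2) * ((f v c - f (v + 1) c) / 2) = 0
      · left
        unfold W
        rw [sum_eq_zero hz, mul_zero]
      · right
        push Not at hz
        obtain ⟨c, hc, hne⟩ := hz
        have hge : ∀ c, 0 ≤ ((f u c - f (u + 1) c) / 2) * ((f v c - f (v + 1) c) / 2) := by
          intro c
          refine mul_nonneg ?_ ?_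
          · rcases fs u u.2 c with h1 | h1 <;> linarith
          · rcases fs v v.2 c with h1 | h1 <;> linarith
        have h2 : 1 ≤ ((f u c - f (u + 1) c) / 2) * ((f v c - f (v + 1) c) / 2) := by
          rcases fs u u.2 c with h1 | h1
          · rw [h1] at hne
            simp at hne
          · rcases fs v v.2 c with h3 | h3
            · rw [h3] at hne
              simp at hne
            · nlinarith
        have h3 : 1 ≤ W C f u v :=
          le_trans h2 (single_le_sum (f := fun c => ((f u c - f (u + 1) c) / 2) *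
            ((f v c - f (v + 1) c) / 2)) (fun c _ => hge c) hc)
        nlinarith
    · left
      rfl
  · rw [sum_gr]
  · intro X
    set x : ℕ → ℝ := fun i => if h : i < N then (if (⟨i, h⟩ : Fin N) ∈ X then 1 else -1) else 1
      with hxdef
    have hx : ∀ u : Fin N, x u = if u ∈ X then 1 else -1 := by
      intro u
      simp only [hxdef]
      rw [dif_pos u.2]
    have hx2 : ∀ i, x i ^ 2 = 1 := by
      intro i
      simp only [hxdef]
      split_ifs <;> norm_num
    rw [dicut_gr κ (W C f) N X x hx]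
    have h1 := path_cut C f N fq x hx2
    rw [f0, fN] at h1
    set S := ∑ j ∈ range N, ∑ i ∈ range j, W C f i j
    have h2 : ∑ j ∈ range N, ∑ i ∈ range j, W C f i j * ((1 + x i) * (1 - x j) / 4) ≤
        S / 4 + (A + B) / 32 := by linarith
    calc κ * ∑ j ∈ range N, ∑ i ∈ range j, W C f i j * ((1 + x i) * (1 - x j) / 4)
        ≤ κ * (S / 4 + (A + B) / 32) := mul_le_mul_of_nonneg_left h2 (by linarith)
      _ = κ * S / 4 + κ * ((A + B) / 32) := by ring

end Pool.Agent.H62.DC
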