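import Mathlib
import Pool.Agent.H62.DC.Upper

/-!
# The choice of the block sizes and the upper bound
-/

set_option autoImplicit false

namespace Pool.Agent.H62.DC

open Finset

/-- The block sizes. -/
def tent (q b : ℕ) : ℕ := q * (1 + min b (2 * q - b))

theorem tent_pos {q : ℕ} (hq : 1 ≤ q) (b : ℕ) : 1 ≤ tent q b := by
  unfold tent
  exact Nat.mul_pos hq (by omega)

theorem tent_step1 (q b : ℕ) : tent q b ≤ tent q (b + 1) + q := by
  unfold tent
  have h : 1 + min b (2 * q - b) ≤ (1 + min (b + 1) (2 * q - (b + 1))) + 1 := by omega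
  calc q * (1 + min b (2 * q - b)) ≤ q * ((1 + min (b + 1) (2 * q - (b + 1))) + 1) :=
        Nat.mul_le_mul_left q h
    _ = _ := by ring

theorem tent_step2 (q b : ℕ) : tent q (b + 1) ≤ tent q b + q := by
  unfold tent
  have h : 1 + min (b + 1) (2 * q - (b + 1)) ≤ (1 + min b (2 * q - b)) + 1 := by omega
  calc q * (1 + min (b + 1) (2 * q - (b + 1))) ≤ q * ((1 + min b (2 * q - b)) + 1) :=
        Nat.mul_le_mul_left q h
    _ = _ := by ring

theorem tent_ge (q b : ℕ) : q ≤ tent q b := by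
  unfold tent
  exact Nat.le_mul_of_pos_right q (by omega)

theorem tent_le {q : ℕ} (hq : 1 ≤ q) (b : ℕ) : tent q b ≤ 2 * q ^ 2 := by
  unfold tent
  have h : 1 + min b (2 * q - b) ≤ 2 * q := by omega
  calc q * (1 + min b (2 * q - b)) ≤ q * (2 * q) := Nat.mul_le_mul_left q h
    _ = _ := by ring

theorem reach_tent {q : ℕ} (hq : 1 ≤ q) :
    Reach (2 * q + 2) (100000 * ∑ b ∈ range (2 * q), (tent q b : ℝ))
      (∑ b ∈ range (2 * q), tent q b) (st (tent q) 0) (st (tent q) (2 * q)) := by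
  refine chain_reach (tent q) (2 * q) (by omega) (fun b _ => tent_pos hq b) (fun b _ => ?_)
    (fun b _ => ?_)
  · have := tent_step1 q b
    have := tent_ge q (b + 1)
    omega
  · have := tent_step2 q b
    have := tent_ge q b
    omega

/-- The final value of a coordinate. -/
theorem final_near {l m d : ℝ} (hl : 0 < l) (h1 : l / 2 ≤ m) (h2 : m ≤ 2 * l)
    (h3 : |l - m| ≤ d) : |Real.sqrt (38 * l ^ 2 - 2 * m ^ 2) - 6 * l| ≤ d := by
  have hge : l ^ 2 ≤ 38 * l ^ 2 - 2 * m ^ 2 := by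
    have := G_ge (x := 1) hl h1 h2 (by norm_num) le_rfl
    rwa [G_one] at this
  set D := Real.sqrt (38 * l ^ 2 - 2 * m ^ 2) with hD
  have hD0 : 0 ≤ D := Real.sqrt_nonneg _
  have hD2 : D ^ 2 = 38 * l ^ 2 - 2 * m ^ 2 := Real.sq_sqrt (le_trans (by positivity) hge)
  have e1 : (D - 6 * l) * (D + 6 * l) = 2 * ((l - m) * (l + m)) := by
    have : (D - 6 * l) * (D + 6 * l) = D ^ 2 - 36 * l ^ 2 := by ring
    rw [this, hD2]
    ring
  have e2 : |D - 6 * l| * (D + 6 * l) = 2 * (|l - m| * (l + m)) := by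
    have h4 : |D + 6 * l| = D + 6 * l := abs_of_nonneg (by linarith)
    have h5 : |l + m| = l + m := abs_of_nonneg (by linarith)
    have := congrArg abs e1
    rw [abs_mul, abs_mul, abs_mul, h4, h5, abs_two] at this
    exact this
  have hd0 : 0 ≤ d := le_trans (abs_nonneg _) h3
  have e3 : |l - m| * (l + m) ≤ d * (3 * l) :=
    mul_le_mul h3 (by linarith) (by linarith) hd0
  have e4 : |D - 6 * l| * (6 * l) ≤ |D - 6 * l| * (D + 6 * l) :=
    mul_le_mul_of_nonneg_left (by linarith) (abs_nonneg _)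
  by_contra hcon
  push Not at hcon
  have : d * (6 * l) < |D - 6 * l| * (6 * l) := mul_lt_mul_of_pos_right hcon (by linarith)
  linarith

/-- The final values of the coordinates for the tent. -/
theorem tent_final {q : ℕ} (hq : 1 ≤ q) (c : ℕ) :
    |Real.sqrt (38 * (8 * tent q c : ℝ) ^ 2 - 2 * (8 * tent q (c + 1) : ℝ) ^ 2) -
      6 * (8 * tent q c)| ≤ 8 * q := by
  have h1 := tent_step1 q c
  have h2 := tent_step2 q c
  have h3 := tent_ge q c
  have h4 := tent_ge q (c + 1)
  have h5 := tent_pos hq c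
  have h1' : (tent q c : ℝ) ≤ tent q (c + 1) + q := by exact_mod_cast h1
  have h2' : (tent q (c + 1) : ℝ) ≤ tent q c + q := by exact_mod_cast h2
  have h3' : (q : ℝ) ≤ tent q c := by exact_mod_cast h3
  have h4' : (q : ℝ) ≤ tent q (c + 1) := by exact_mod_cast h4
  have h5' : (1 : ℝ) ≤ tent q c := by exact_mod_cast h5
  refine final_near (by linarith) (by linarith) (by linarith) ?_
  rw [abs_le]
  constructor <;> linarith

theorem tent_zero (q : ℕ) : tent q 0 = q := by simp [tent]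

theorem tent_one {q : ℕ} (hq : 2 ≤ q) : tent q 1 ≤ 2 * q := by
  unfold tent
  have : 1 + min 1 (2 * q - 1) ≤ 2 := by omega
  calc q * (1 + min 1 (2 * q - 1)) ≤ q * 2 := Nat.mul_le_mul_left q this
    _ = _ := by ring

theorem tent_end0 (q : ℕ) : tent q (2 * q) = q := by simp [tent]

theorem tent_end1 {q : ℕ} (hq : 2 ≤ q) : tent q (2 * q - 1) ≤ 2 * q := by
  unfold tent
  have : 1 + min (2 * q - 1) (2 * q - (2 * q - 1)) ≤ 2 := by omega
  calc q * _ ≤ q * 2 := Nat.mul_le_mul_left q this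
    _ = _ := by ring

theorem tent_end2 {q : ℕ} (hq : 2 ≤ q) : tent q (2 * q - 2) ≤ 3 * q := by
  unfold tent
  have : 1 + min (2 * q - 2) (2 * q - (2 * q - 2)) ≤ 3 := by omega
  calc q * _ ≤ q * 3 := Nat.mul_le_mul_left q this
    _ = _ := by ring

/-- The end points are nearly antipodal. -/
theorem antipodal {q : ℕ} (hq : 2 ≤ q) (c : ℕ) (hc : c < 2 * q + 2) :
    |st (tent q) 0 c + st (tent q) (2 * q) c| ≤ 200 * q := by
  have hq1 : 1 ≤ q := by omega
  have hq0 : (0 : ℝ) ≤ q := Nat.cast_nonneg q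
  have hf := tent_final hq1 c
  rw [abs_le] at hf
  rcases Nat.lt_or_ge c (2 * q) with h | h
  · have e1 : st (tent q) (2 * q) c =
        -Real.sqrt (38 * (8 * tent q c : ℝ) ^ 2 - 2 * (8 * tent q (c + 1) : ℝ) ^ 2) := by
      unfold st
      rw [if_pos h]
    rw [e1]
    rcases Nat.lt_or_ge c 2 with h2 | h2
    · interval_cases c
      · have e2 : st (tent q) 0 0 = -(8 * tent q 0 : ℝ) := by simp [st]
        rw [e2]
        have e3 : (tent q 0 : ℝ) = q := by rw [tent_zero]
        rw [e3] at hf ⊢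
        rw [abs_le]
        constructor <;> linarith
      · have e2 : st (tent q) 0 1 = (8 * tent q 0 : ℝ) := by simp [st]
        rw [e2]
        have e3 : (tent q 0 : ℝ) = q := by rw [tent_zero]
        have e4 : (tent q 1 : ℝ) ≤ 2 * q := by exact_mod_cast tent_one hq
        have e5 : (q : ℝ) ≤ tent q 1 := by exact_mod_cast tent_ge q 1
        rw [e3]
        rw [abs_le]
        constructor <;> linarith
    · have e2 : st (tent q) 0 c = 6 * (8 * tent q (c - 2) : ℝ) := by
        unfold st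
        rw [if_neg (by omega), if_neg (by omega), if_neg (by omega)]
      rw [e2]
      obtain ⟨d, rfl⟩ : ∃ d, c = d + 2 := ⟨c - 2, by omega⟩
      have a1 : (tent q d : ℝ) ≤ tent q (d + 1) + q := by exact_mod_cast tent_step1 q d
      have a2 : (tent q (d + 1) : ℝ) ≤ tent q (d + 2) + q := by
        exact_mod_cast tent_step1 q (d + 1)
      have a3 : (tent q (d + 1) : ℝ) ≤ tent q d + q := by exact_mod_cast tent_step2 q d
      have a4 : (tent q (d + 2) : ℝ) ≤ tent q (d + 1) + q := by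
        exact_mod_cast tent_step2 q (d + 1)
      have a5 : d + 2 - 2 = d := by omega
      rw [a5]
      rw [abs_le]
      constructor <;> linarith
  · have hcc : c = 2 * q ∨ c = 2 * q + 1 := by omega
    rcases hcc with rfl | rfl
    · have e1 : st (tent q) (2 * q) (2 * q) = -(8 * tent q (2 * q) : ℝ) := by simp [st]
      have e2 : st (tent q) 0 (2 * q) = 6 * (8 * tent q (2 * q - 2) : ℝ) := by
        unfold st
        rw [if_neg (by omega), if_neg (by omega), if_neg (by omega)]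
      have e3 : (tent q (2 * q) : ℝ) = q := by rw [tent_end0]
      have e4 : (tent q (2 * q - 2) : ℝ) ≤ 3 * q := by exact_mod_cast tent_end2 hq
      have e5 : (q : ℝ) ≤ tent q (2 * q - 2) := by exact_mod_cast tent_ge q _
      rw [e1, e2, e3, abs_le]
      constructor <;> linarith
    · have e1 : st (tent q) (2 * q) (2 * q + 1) = (8 * tent q (2 * q) : ℝ) := by simp [st]
      have e2 : st (tent q) 0 (2 * q + 1) = 6 * (8 * tent q (2 * q - 1) : ℝ) := by
        unfold st
        rw [if_neg (by omega), if_neg (by omega), if_neg (by omega)]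
        rfl
      have e3 : (tent q (2 * q) : ℝ) = q := by rw [tent_end0]
      have e4 : (tent q (2 * q - 1) : ℝ) ≤ 2 * q := by exact_mod_cast tent_end1 hq
      have e5 : (q : ℝ) ≤ tent q (2 * q - 1) := by exact_mod_cast tent_ge q _
      rw [e1, e2, e3, abs_le]
      constructor <;> linarith

theorem st_abs_le {q : ℕ} (hq : 1 ≤ q) (b c : ℕ) : |st (tent q) b c| ≤ 112 * (q : ℝ) ^ 2 := by
  have h1 : ∀ d, (tent q d : ℝ) ≤ 2 * (q : ℝ) ^ 2 := fun d => by exact_mod_cast tent_le hq d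
  have h0 : ∀ d, (0 : ℝ) ≤ tent q d := fun d => Nat.cast_nonneg _
  unfold st
  split_ifs with h2 h3 h4
  · rw [abs_neg, abs_of_nonneg (Real.sqrt_nonneg _), Real.sqrt_le_left (by positivity)]
    have h5 : (38 : ℝ) * (8 * tent q c : ℝ) ^ 2 ≤ 38 * (8 * (2 * (q : ℝ) ^ 2)) ^ 2 := by
      have := h0 c
      have := h1 c
      gcongr
    have h6 : (0 : ℝ) ≤ 2 * (8 * tent q (c + 1) : ℝ) ^ 2 := by positivity
    nlinarith [sq_nonneg ((q : ℝ) ^ 2)]
  · rw [abs_neg, abs_of_nonneg (by have := h0 b; linarith)]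
    have := h1 b
    nlinarith [sq_nonneg (q : ℝ)]
  · rw [abs_of_nonneg (by have := h0 b; linarith)]
    have := h1 b
    nlinarith [sq_nonneg (q : ℝ)]
  · rw [abs_of_nonneg (by have := h0 (c - 2); linarith)]
    have := h1 (c - 2)
    nlinarith [sq_nonneg (q : ℝ)]

theorem sum_sq_ge (q : ℕ) : (q : ℝ) ^ 3 / 3 ≤ ∑ b ∈ range q, ((1 : ℝ) + b) ^ 2 := by
  induction q with
  | zero => simp
  | succ n ih =>
    rw [sum_range_succ]
    push_cast
    have h0 : (0 : ℝ) ≤ n := Nat.cast_nonneg n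
    nlinarith

/-- The weighted digraphs of the construction. -/
theorem family_graphs {q : ℕ} (hq : 33 ≤ q) : ∃ (N : ℕ) (w : ℝ), 48 * (q : ℝ) ^ 5 ≤ w ∧
    w ≤ 50000 * (q : ℝ) ^ 5 ∧ ∀ κ : ℝ, 1 ≤ κ → ∃ a : Fin N → Fin N → ℝ, Acyclic a ∧
      (∀ u v, a u v = 0 ∨ 1 ≤ a u v) ∧ ∑ u, ∑ v, a u v = κ * w ∧
      ∀ X, dicut a X ≤ κ * w / 4 + κ * (17500 * (q : ℝ) ^ 3) := by
  have hq1 : 1 ≤ q := by omega
  have hqr : (33 : ℝ) ≤ q := by exact_mod_cast hq
  have hB : ∑ c ∈ range (2 * q + 2), (st (tent q) 0 c + st (tent q) (2 * q) c) ^ 2 ≤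
      160000 * (q : ℝ) ^ 3 := by
    calc ∑ c ∈ range (2 * q + 2), (st (tent q) 0 c + st (tent q) (2 * q) c) ^ 2
        ≤ ∑ c ∈ range (2 * q + 2), (200 * (q : ℝ)) ^ 2 := by
          refine sum_le_sum fun c hc => ?_
          have h := antipodal (by omega : 2 ≤ q) c (mem_range.1 hc)
          rw [← sq_abs]
          exact pow_le_pow_left₀ (abs_nonneg _) h 2
      _ = (2 * q + 2) * (200 * (q : ℝ)) ^ 2 := by
          rw [sum_const, card_range, nsmul_eq_mul]
          push_cast
          ring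
      _ ≤ 160000 * (q : ℝ) ^ 3 := by nlinarith [sq_nonneg (q : ℝ)]
  have hA : (100000 : ℝ) * ∑ b ∈ range (2 * q), (tent q b : ℝ) ≤ 400000 * (q : ℝ) ^ 3 := by
    have h1 : ∑ b ∈ range (2 * q), (tent q b : ℝ) ≤ ∑ b ∈ range (2 * q), (2 * (q : ℝ) ^ 2) :=
      sum_le_sum fun b _ => by exact_mod_cast tent_le hq1 b
    rw [sum_const, card_range, nsmul_eq_mul] at h1
    push_cast at h1
    nlinarith
  have hE2 : ∑ c ∈ range (2 * q + 2), (st (tent q) 0 c - st (tent q) (2 * q) c) ^ 2 ≤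
      8 * (50000 * (q : ℝ) ^ 5) := by
    calc ∑ c ∈ range (2 * q + 2), (st (tent q) 0 c - st (tent q) (2 * q) c) ^ 2
        ≤ ∑ c ∈ range (2 * q + 2), (224 * (q : ℝ) ^ 2) ^ 2 := by
          refine sum_le_sum fun c hc => ?_
          have h1 := st_abs_le hq1 0 c
          have h2 := st_abs_le hq1 (2 * q) c
          rw [← sq_abs]
          refine pow_le_pow_left₀ (abs_nonneg _) ?_ 2
          calc |st (tent q) 0 c - st (tent q) (2 * q) c|
              ≤ |st (tent q) 0 c| + |st (tent q) (2 * q) c| := abs_sub _ _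
            _ ≤ 224 * (q : ℝ) ^ 2 := by linarith
      _ = (2 * q + 2) * (224 * (q : ℝ) ^ 2) ^ 2 := by
          rw [sum_const, card_range, nsmul_eq_mul]
          push_cast
          ring
      _ ≤ 8 * (50000 * (q : ℝ) ^ 5) := by
          have h4 : (0 : ℝ) ≤ (q : ℝ) ^ 4 := by positivity
          nlinarith [mul_nonneg h4 (by linarith : (0 : ℝ) ≤ q - 33)]
  have hE1 : 768 * (q : ℝ) ^ 5 ≤
      ∑ c ∈ range (2 * q + 2), (st (tent q) 0 c - st (tent q) (2 * q) c) ^ 2 := by
    have h1 : ∑ b ∈ range q, (48 * ((q : ℝ) * (1 + b))) ^ 2 ≤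
        ∑ c ∈ range (2 * q + 2), (st (tent q) 0 c - st (tent q) (2 * q) c) ^ 2 := by
      have h2 : ∑ b ∈ range q, (48 * ((q : ℝ) * (1 + b))) ^ 2 ≤
          ∑ b ∈ range q, (st (tent q) 0 (b + 2) - st (tent q) (2 * q) (b + 2)) ^ 2 := by
        refine sum_le_sum fun b hb => ?_
        rw [mem_range] at hb
        have e1 : st (tent q) 0 (b + 2) = 48 * ((q : ℝ) * (1 + b)) := by
          unfold st
          rw [if_neg (by omega), if_neg (by omega), if_neg (by omega)]
          have : b + 2 - 2 = b := by omega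
          rw [this]
          unfold tent
          have h3 : min b (2 * q - b) = b := by omega
          rw [h3]
          push_cast
          ring
        have e2 : st (tent q) (2 * q) (b + 2) ≤ 0 := by
          unfold st
          rw [if_pos (by omega)]
          have := Real.sqrt_nonneg
            (38 * (8 * tent q (b + 2) : ℝ) ^ 2 - 2 * (8 * tent q (b + 2 + 1) : ℝ) ^ 2)
          linarith
        rw [e1]
        refine pow_le_pow_left₀ (by positivity) (by linarith) 2
      refine h2.trans ?_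
      have h3 : ∑ b ∈ range q, (st (tent q) 0 (b + 2) - st (tent q) (2 * q) (b + 2)) ^ 2 =
          ∑ c ∈ (range q).image (fun b => b + 2),
            (st (tent q) 0 c - st (tent q) (2 * q) c) ^ 2 := by
        rw [sum_image]
        intro x _ y _ hxy
        exact Nat.add_right_cancel hxy
      rw [h3]
      refine sum_le_sum_of_subset_of_nonneg ?_ (fun _ _ _ => sq_nonneg _)
      intro c hc
      rw [mem_image] at hc
      obtain ⟨b, hb, rfl⟩ := hc
      rw [mem_range] at hb ⊢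
      omega
    refine le_trans ?_ h1
    have h4 : ∑ b ∈ range q, (48 * ((q : ℝ) * (1 + b))) ^ 2 =
        2304 * (q : ℝ) ^ 2 * ∑ b ∈ range q, ((1 : ℝ) + b) ^ 2 := by
      rw [mul_sum]
      refine sum_congr rfl fun b _ => ?_
      ring
    rw [h4]
    have h5 := sum_sq_ge q
    have h6 : 2304 * (q : ℝ) ^ 2 * ((q : ℝ) ^ 3 / 3) ≤
        2304 * (q : ℝ) ^ 2 * ∑ b ∈ range q, ((1 : ℝ) + b) ^ 2 :=
      mul_le_mul_of_nonneg_left h5 (by positivity)
    nlinarith
  obtain ⟨w, hw1, hw2, hw3⟩ := reach_graph (reach_tent hq1) hB rfl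
  refine ⟨∑ b ∈ range (2 * q), tent q b, w, ?_, by linarith, fun κ hκ => ?_⟩
  · have h7 : (400000 : ℝ) * (q : ℝ) ^ 3 ≤ 384 * (q : ℝ) ^ 5 := by
      have h8 : (0 : ℝ) ≤ (q : ℝ) ^ 3 := by positivity
      have h9 : (1089 : ℝ) ≤ (q : ℝ) ^ 2 := by nlinarith
      nlinarith
    linarith
  · obtain ⟨a, ha1, ha2, ha3, ha4⟩ := hw3 κ hκ
    refine ⟨a, ha1, ha2, ha3, fun X => (ha4 X).trans ?_⟩
    have h8 : (100000 * ∑ b ∈ range (2 * q), (tent q b : ℝ) + 160000 * (q : ℝ) ^ 3) / 32 ≤
        17500 * (q : ℝ) ^ 3 := by linarith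
    have h9 := mul_le_mul_of_nonneg_left h8 (by linarith : (0 : ℝ) ≤ κ)
    linarith

end Pool.Agent.H62.DC
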