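import Mathlib
import Pool.Agent.H62.DC.BlockM
import Pool.Agent.H62.DC.Tent

/-!
# The chain of all blocks
-/

set_option autoImplicit false

namespace Pool.Agent.H62.DC

open Finset

/-- The profile. -/
noncomputable def lamT (J q : ℕ) (b : ℕ) : ℝ := 240 * J * tent q b

theorem lamT_ge {J q : ℕ} (b : ℕ) : 240 * J * (q : ℝ) ≤ lamT J q b := by
  unfold lamT
  have : (q : ℝ) ≤ tent q b := by exact_mod_cast tent_ge q b
  exact mul_le_mul_of_nonneg_left this (by positivity)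

theorem lamT_le {J q : ℕ} (hq : 1 ≤ q) (b : ℕ) : lamT J q b ≤ 480 * J * (q : ℝ) ^ 2 := by
  unfold lamT
  have : (tent q b : ℝ) ≤ 2 * (q : ℝ) ^ 2 := by exact_mod_cast tent_le hq b
  have h0 : (0 : ℝ) ≤ 240 * J := by positivity
  nlinarith [mul_le_mul_of_nonneg_left this h0]

theorem lamT_bd {J q T b : ℕ} (h : tent q b ≤ T * q) : lamT J q b ≤ 240 * T * (J * (q : ℝ)) := by
  unfold lamT
  have : (tent q b : ℝ) ≤ T * q := by exact_mod_cast h
  have h0 : (0 : ℝ) ≤ 240 * J := by positivity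
  nlinarith [mul_le_mul_of_nonneg_left this h0]

theorem lamT_step (J q b : ℕ) : |lamT J q b - lamT J q (b + 1)| ≤ 240 * (J * (q : ℝ)) := by
  have h1 : (tent q b : ℝ) ≤ tent q (b + 1) + q := by exact_mod_cast tent_step1 q b
  have h2 : (tent q (b + 1) : ℝ) ≤ tent q b + q := by exact_mod_cast tent_step2 q b
  have h0 : (0 : ℝ) ≤ 240 * J := by positivity
  unfold lamT
  rw [abs_le]
  constructor
  · nlinarith [mul_le_mul_of_nonneg_left h2 h0]
  · nlinarith [mul_le_mul_of_nonneg_left h1 h0]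

theorem par_tent {J q : ℕ} (hJ : 1 ≤ J) (hq : 1 ≤ q) (b : ℕ) {θ : ℝ} (t1 : -(1 / 8) ≤ θ)
    (t2 : θ ≤ 1 / 8) : Par (lamT J q (b - 1)) (lamT J q b) (lamT J q (b + 1)) θ := by
  have hJr : (1 : ℝ) ≤ J := by exact_mod_cast hJ
  have hqr : (1 : ℝ) ≤ q := by exact_mod_cast hq
  have hpos : (0 : ℝ) < 240 * J * (q : ℝ) := by positivity
  have h1 := lamT_step J q b
  have h2 : |lamT J q b - lamT J q (b - 1)| ≤ 240 * (J * (q : ℝ)) := by
    rcases b with _ | b
    · simp only [Nat.zero_sub, sub_self, abs_zero]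
      positivity
    · rw [abs_sub_comm]
      exact lamT_step J q b
  have h3 := lamT_ge (J := J) (q := q) b
  have h4 := lamT_ge (J := J) (q := q) (b + 1)
  have h5 := lamT_ge (J := J) (q := q) (b - 1)
  rw [abs_le] at h1 h2
  have e : 240 * (J * (q : ℝ)) = 240 * J * (q : ℝ) := by ring
  rw [e] at h1 h2
  exact ⟨by linarith, by linarith, by linarith, by linarith, by linarith, t1, t2⟩

/-- The initial state. -/
noncomputable def g0M (J q : ℕ) : Ix → ℝ := fun x =>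
  if x.2.2 = 0 then -(lamT J q 0 - th x.1 x.2.1 * lamT J q 0)
  else if x.2.2 = 1 then (1 + th x.1 x.2.1) * lamT J q 0
  else 6 * lamT J q (x.2.2 - 2)

theorem g0M_zero (J q j : ℕ) (σ : Bool) :
    g0M J q (j, σ, 0) = -(lamT J q 0 - th j σ * lamT J q 0) := by simp [g0M]

theorem g0M_one (J q j : ℕ) (σ : Bool) :
    g0M J q (j, σ, 1) = (1 + th j σ) * lamT J q 0 := by simp [g0M]

theorem g0M_two (J q j : ℕ) (σ : Bool) {c : ℕ} (hc : 2 ≤ c) :
    g0M J q (j, σ, c) = 6 * lamT J q (c - 2) := by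
  have h0 : c ≠ 0 := by omega
  have h1 : c ≠ 1 := by omega
  simp [g0M, h0, h1]

theorem start_state (J q : ℕ) : StM J (lamT J q) 0 (g0M J q) := by
  refine ⟨fun j σ c hc => absurd hc (Nat.not_lt_zero c), fun j σ => ?_, fun j σ => ?_,
    fun j σ c hc => g0M_two J q j σ hc⟩
  · rw [g0M_zero]
    simp only [Nat.zero_sub, neg_add_cancel, abs_zero]
    positivity
  · rw [zero_add, g0M_one, sub_self, abs_zero]
    norm_num

/-- The number of steps. -/
def stp (q b : ℕ) : ℕ := ∑ i ∈ range b, (tent q i + tent q (i + 1))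

theorem chainM {J q : ℕ} (hJ : 1 ≤ J) (hq : 1 ≤ q)
    (hh : (1 / 2 : ℝ) ^ (J - 1) * (480 * J * (q : ℝ) ^ 2) / 4 ≤ 1) (b : ℕ) (hb : b ≤ 2 * q) :
    ∃ g', ReachM (SS J (2 * q + 2)) (170000000 * J ^ 3 * (stp q b : ℕ))
      (26000000 * J ^ 3 * (stp q b : ℕ)) (stp q b) (g0M J q) g' ∧ StM J (lamT J q) b g' := by
  induction b with
  | zero =>
    refine ⟨g0M J q, ?_, start_state J q⟩
    have := ReachM.refl (SS J (2 * q + 2)) (g0M J q)
    simpa [stp] using this
  | succ b ih =>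
    obtain ⟨g, h1, h2⟩ := ih (by omega)
    obtain ⟨g', h3, h4⟩ := block_step (ρ := 120 * J) (s := tent q b + tent q (b + 1)) (b := b)
      (C := 2 * q + 2) (lam := lamT J q) hJ rfl (by have := tent_pos hq b; omega)
      (by unfold lamT; push_cast; ring)
      (fun σ j => par_tent hJ hq b (th_bd j σ).1 (th_bd j σ).2) (by omega)
      (le_trans (by
        refine div_le_div_of_nonneg_right ?_ (by norm_num)
        exact mul_le_mul_of_nonneg_left (lamT_le hq b) (by positivity)) hh) h2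
    refine ⟨g', ?_, h4⟩
    have h5 := h1.trans h3
    have e1 : stp q (b + 1) = stp q b + (tent q b + tent q (b + 1)) := by
      unfold stp
      rw [sum_range_succ]
    rw [e1]
    convert h5 using 1
    · push_cast
      ring
    · push_cast
      ring

theorem stp_le {q : ℕ} (hq : 1 ≤ q) : (stp q (2 * q) : ℝ) ≤ 8 * (q : ℝ) ^ 3 := by
  have h : stp q (2 * q) ≤ 8 * q ^ 3 := by
    unfold stp
    calc ∑ i ∈ range (2 * q), (tent q i + tent q (i + 1)) ≤ ∑ i ∈ range (2 * q), (4 * q ^ 2) := by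
          refine sum_le_sum fun i _ => ?_
          have := tent_le hq i
          have := tent_le hq (i + 1)
          omega
      _ = 8 * q ^ 3 := by
          rw [sum_const, card_range, smul_eq_mul]
          ring
  exact_mod_cast h

theorem final_nearM {k l m θ d : ℝ} (h : Par k l m θ) (h1 : |l - m| ≤ d) (h2 : |l - k| ≤ d) :
    |Real.sqrt (Hf k l m θ 1) - 6 * l| ≤ 3 / 2 * d := by
  have hH := Hf_ge h (x := 1) (by norm_num) le_rfl
  obtain ⟨l0, m1, m2, k1, k2, t1, t2⟩ := h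
  have hR := Real.le_sqrt_of_sq_le hH
  have hsq : Real.sqrt (Hf k l m θ 1) ^ 2 = Hf k l m θ 1 :=
    Real.sq_sqrt (le_trans (by positivity) hH)
  set R := Real.sqrt (Hf k l m θ 1) with hRd
  have hd0 : 0 ≤ d := (abs_nonneg _).trans h1
  have e1 : (R - 6 * l) * (R + 6 * l) = (1 + θ) ^ 2 * ((l - m) * (l + m)) +
      ((l - m) + θ * (l - k)) * (l + m - θ * (k + l)) := by
    have : (R - 6 * l) * (R + 6 * l) = R ^ 2 - 36 * l ^ 2 := by ring
    rw [this, hsq]
    unfold Hf Yf Mf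
    ring
  have b1 : |(1 + θ) ^ 2 * ((l - m) * (l + m))| ≤ 81 / 64 * (d * (3 * l)) := by
    rw [abs_mul, abs_mul, abs_of_nonneg (sq_nonneg (1 + θ)),
      abs_of_nonneg (by linarith : 0 ≤ l + m)]
    have c1 : (1 + θ) ^ 2 ≤ 81 / 64 := by nlinarith
    have c2 : |l - m| * (l + m) ≤ d * (3 * l) :=
      mul_le_mul h1 (by linarith) (by linarith) hd0
    exact mul_le_mul c1 c2 (mul_nonneg (abs_nonneg _) (by linarith)) (by norm_num)
  have b2 : |((l - m) + θ * (l - k)) * (l + m - θ * (k + l))| ≤ 9 / 8 * d * (27 / 8 * l) := by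
    rw [abs_mul]
    have a0 : |θ| ≤ 1 / 8 := abs_le.2 ⟨t1, t2⟩
    have c1 : |(l - m) + θ * (l - k)| ≤ 9 / 8 * d := by
      refine (abs_add_le _ _).trans ?_
      rw [abs_mul]
      have := mul_le_mul a0 h2 (abs_nonneg _) (by norm_num)
      linarith
    have c2 : |l + m - θ * (k + l)| ≤ 27 / 8 * l := by
      have c3 : |θ * (k + l)| ≤ 1 / 8 * (3 * l) := by
        rw [abs_mul, abs_of_nonneg (by linarith : 0 ≤ k + l)]
        exact mul_le_mul a0 (by linarith) (by linarith) (by norm_num)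
      rw [abs_le] at c3 ⊢
      constructor <;> linarith [c3.1, c3.2]
    exact mul_le_mul c1 c2 (abs_nonneg _) (by positivity)
  have b3 : |(R - 6 * l) * (R + 6 * l)| ≤ 243 / 32 * (d * l) := by
    rw [e1]
    refine (abs_add_le _ _).trans ?_
    linarith
  rw [abs_mul, abs_of_nonneg (by linarith : 0 ≤ R + 6 * l)] at b3
  have b4 : |R - 6 * l| * (27 / 4 * l) ≤ |R - 6 * l| * (R + 6 * l) :=
    mul_le_mul_of_nonneg_left (by linarith) (abs_nonneg _)
  have b5 : |R - 6 * l| * (27 / 4 * l) ≤ 9 / 8 * d * (27 / 4 * l) := by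
    have : 243 / 32 * (d * l) = 9 / 8 * d * (27 / 4 * l) := by ring
    linarith
  have b6 : |R - 6 * l| ≤ 9 / 8 * d := le_of_mul_le_mul_right b5 (by positivity)
  linarith

/-- The state at the end is nearly antipodal to the state at the start. -/
theorem antipodalM {J q : ℕ} (hJ : 1 ≤ J) (hq : 2 ≤ q) {g : Ix → ℝ}
    (hg : StM J (lamT J q) (2 * q) g) (j : ℕ) (σ : Bool) (c : ℕ) (hc : c < 2 * q + 2) :
    |g0M J q (j, σ, c) + g (j, σ, c)| ≤ 7200 * (J * (q : ℝ)) := by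
  have hq1 : 1 ≤ q := by omega
  have hJr : (1 : ℝ) ≤ J := by exact_mod_cast hJ
  have hqr : (2 : ℝ) ≤ q := by exact_mod_cast hq
  set X : ℝ := J * (q : ℝ) with hX
  have hJX : 2 * (J : ℝ) ≤ X := by
    rw [hX]
    nlinarith
  have hX2 : 2 ≤ X := by linarith
  obtain ⟨t1, t2⟩ := th_bd j σ
  have hP := fun b => par_tent hJ hq1 b t1 t2
  have hsq : ∀ b, 0 ≤ Real.sqrt (Hf (lamT J q (b - 1)) (lamT J q b) (lamT J q (b + 1))
      (th j σ) 1) ∧ Real.sqrt (Hf (lamT J q (b - 1)) (lamT J q b) (lamT J q (b + 1))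
      (th j σ) 1) ≤ 7 * lamT J q b := by
    intro b
    refine ⟨Real.sqrt_nonneg _, ?_⟩
    have h1 := Of_ge (hP b) 1
    unfold Of at h1
    linarith
  have l0 : ∀ b, 0 ≤ lamT J q b := fun b => by unfold lamT; positivity
  have a0 : lamT J q 0 ≤ 240 * X := by
    have := lamT_bd (J := J) (q := q) (b := 0) (T := 1) (by rw [tent_zero]; omega)
    rw [hX]
    push_cast at this
    linarith
  have a1 : lamT J q 1 ≤ 480 * X := by
    have := lamT_bd (J := J) (q := q) (b := 1) (T := 2) (tent_one hq)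
    rw [hX]
    push_cast at this
    linarith
  have e0 : lamT J q (2 * q) ≤ 240 * X := by
    have := lamT_bd (J := J) (q := q) (b := 2 * q) (T := 1) (by rw [tent_end0]; omega)
    rw [hX]
    push_cast at this
    linarith
  have e1 : lamT J q (2 * q - 1) ≤ 480 * X := by
    have := lamT_bd (J := J) (q := q) (b := 2 * q - 1) (T := 2) (tent_end1 hq)
    rw [hX]
    push_cast at this
    linarith
  have e2 : lamT J q (2 * q - 2) ≤ 720 * X := by
    have := lamT_bd (J := J) (q := q) (b := 2 * q - 2) (T := 3) (tent_end2 hq)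
    rw [hX]
    push_cast at this
    linarith
  have tb : ∀ {x B : ℝ}, 0 ≤ x → x ≤ B → |th j σ * x| ≤ B / 8 := by
    intro x B hx hB
    rw [abs_mul, abs_of_nonneg hx]
    have := mul_le_mul (abs_le.2 ⟨t1, t2⟩) hB hx (by norm_num)
    linarith
  rcases Nat.lt_or_ge c (2 * q) with h | h
  · have h1 := abs_le.1 (hg.old j σ c h)
    rcases Nat.lt_or_ge c 2 with h2 | h2
    · have h3 : c = 0 ∨ c = 1 := by omega
      rcases h3 with rfl | rfl
      · rw [g0M_zero]
        have h4 := abs_le.1 (tb (l0 0) a0)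
        have h5 := hsq 0
        rw [abs_le]
        constructor <;> linarith [h1.1, h1.2, h4.1, h4.2, h5.1, h5.2, l0 0]
      · rw [g0M_one]
        have h4 := abs_le.1 (tb (l0 0) a0)
        have h5 := hsq 1
        rw [abs_le]
        constructor <;> linarith [h1.1, h1.2, h4.1, h4.2, h5.1, h5.2, l0 0]
    · rw [g0M_two J q j σ h2]
      have h3 := abs_le.1 (lamT_step J q (c - 2))
      have h4 := abs_le.1 (lamT_step J q (c - 1))
      have h5 := lamT_step J q c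
      have i1 : c - 2 + 1 = c - 1 := by omega
      have i2 : c - 1 + 1 = c := by omega
      rw [i1] at h3
      rw [i2] at h4
      have h6 : |lamT J q c - lamT J q (c - 1)| ≤ 240 * X := by
        rw [abs_le]
        constructor <;> linarith [h4.1, h4.2]
      have h7 := abs_le.1 (final_nearM (hP c) h5 h6)
      rw [abs_le]
      constructor <;> linarith [h1.1, h1.2, h3.1, h3.2, h4.1, h4.2, h7.1, h7.2]
  · have h3 : c = 2 * q ∨ c = 2 * q + 1 := by omega
    rcases h3 with rfl | rfl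
    · rw [g0M_two J q j σ (by omega)]
      have h1 := abs_le.1 (hg.cur j σ)
      have h4 := abs_le.1 (tb (l0 (2 * q - 1)) e1)
      rw [abs_le]
      constructor <;> linarith [h1.1, h1.2, h4.1, h4.2, l0 (2 * q), l0 (2 * q - 2)]
    · rw [g0M_two J q j σ (by omega)]
      have h1 := abs_le.1 (hg.mid j σ)
      have i1 : 2 * q + 1 - 2 = 2 * q - 1 := by omega
      rw [i1]
      have h4 := abs_le.1 (tb (l0 (2 * q)) e0)
      rw [abs_le]
      constructor <;> linarith [h1.1, h1.2, h4.1, h4.2, l0 (2 * q), l0 (2 * q - 1)]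

/-- The coordinates are not too big. -/
theorem diff_leM {J q : ℕ} (hJ : 1 ≤ J) (hq : 2 ≤ q) {g : Ix → ℝ}
    (hg : StM J (lamT J q) (2 * q) g) (j : ℕ) (σ : Bool) (c : ℕ) (hc : c < 2 * q + 2) :
    |g0M J q (j, σ, c) - g (j, σ, c)| ≤ 13000 * (J * (q : ℝ) ^ 2) := by
  have hq1 : 1 ≤ q := by omega
  have hJr : (1 : ℝ) ≤ J := by exact_mod_cast hJ
  have hqr : (2 : ℝ) ≤ q := by exact_mod_cast hq
  have h1 := antipodalM hJ hq hg j σ c hc
  have h2 : |g0M J q (j, σ, c)| ≤ 2880 * (J * (q : ℝ) ^ 2) := by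
    obtain ⟨t1, t2⟩ := th_bd j σ
    have l0 : ∀ b, 0 ≤ lamT J q b := fun b => by unfold lamT; positivity
    have l1 := fun b => lamT_le (J := J) hq1 b
    have h4 : |th j σ * lamT J q 0| ≤ 1 / 8 * (480 * J * (q : ℝ) ^ 2) := by
      rw [abs_mul, abs_of_nonneg (l0 0)]
      exact mul_le_mul (abs_le.2 ⟨t1, t2⟩) (l1 0) (l0 0) (by norm_num)
    have h5 := abs_le.1 h4
    have hY : 0 ≤ J * (q : ℝ) ^ 2 := by positivity
    rcases Nat.lt_or_ge c 2 with h2 | h2
    · have h3 : c = 0 ∨ c = 1 := by omega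
      rcases h3 with rfl | rfl
      · rw [g0M_zero, abs_le]
        constructor <;> linarith [h5.1, h5.2, l0 0, l1 0]
      · rw [g0M_one, abs_le]
        constructor <;> linarith [h5.1, h5.2, l0 0, l1 0]
    · rw [g0M_two J q j σ h2, abs_le]
      constructor <;> linarith [l0 (c - 2), l1 (c - 2)]
  have h3 : (J : ℝ) * q ≤ (J * (q : ℝ) ^ 2) / 2 := by nlinarith [mul_nonneg (by linarith : (0:ℝ) ≤ J) (by linarith : (0:ℝ) ≤ q)]
  have h4 : g0M J q (j, σ, c) - g (j, σ, c) =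
      2 * g0M J q (j, σ, c) - (g0M J q (j, σ, c) + g (j, σ, c)) := by ring
  rw [h4]
  refine (abs_sub _ _).trans ?_
  rw [abs_mul, abs_two]
  have hY : 0 ≤ J * (q : ℝ) ^ 2 := by positivity
  linarith

/-- The distance of the end points. -/
theorem dist_geM {J q : ℕ} (hJ : 1 ≤ J) (hq : 4 ≤ q) {g : Ix → ℝ}
    (hg : StM J (lamT J q) (2 * q) g) (j : ℕ) (σ : Bool) :
    691200 * (J : ℝ) ^ 2 * (q : ℝ) ^ 5 ≤
      ∑ c ∈ range (2 * q + 2), (g0M J q (j, σ, c) - g (j, σ, c)) ^ 2 := by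
  have hq1 : 1 ≤ q := by omega
  have hJr : (1 : ℝ) ≤ J := by exact_mod_cast hJ
  have hqr : (4 : ℝ) ≤ q := by exact_mod_cast hq
  obtain ⟨t1, t2⟩ := th_bd j σ
  have h0 : ∑ c ∈ range (q + 2), (g0M J q (j, σ, c) - g (j, σ, c)) ^ 2 ≤
      ∑ c ∈ range (2 * q + 2), (g0M J q (j, σ, c) - g (j, σ, c)) ^ 2 :=
    sum_le_sum_of_subset_of_nonneg (range_subset_range.2 (by omega)) fun _ _ _ => sq_nonneg _
  have h1 : ∑ b ∈ range q, (g0M J q (j, σ, b + 2) - g (j, σ, b + 2)) ^ 2 ≤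
      ∑ c ∈ range (q + 2), (g0M J q (j, σ, c) - g (j, σ, c)) ^ 2 := by
    rw [sum_range_succ' _ (q + 1), sum_range_succ' _ q]
    have a1 := sq_nonneg (g0M J q (j, σ, 0) - g (j, σ, 0))
    have a2 := sq_nonneg (g0M J q (j, σ, 0 + 1) - g (j, σ, 0 + 1))
    linarith
  refine le_trans ?_ (h1.trans h0)
  have h2 : ∀ b ∈ range q, 2073600 * (J : ℝ) ^ 2 * (q : ℝ) ^ 2 * ((1 : ℝ) + b) ^ 2 ≤
      (g0M J q (j, σ, b + 2) - g (j, σ, b + 2)) ^ 2 := by
    intro b hb
    rw [mem_range] at hb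
    have h3 := abs_le.1 (hg.old j σ (b + 2) (by omega))
    have hR := Real.le_sqrt_of_sq_le (Hf_ge (par_tent hJ hq1 (b + 2) t1 t2) (x := 1)
      (by norm_num) le_rfl)
    have h4 := lamT_ge (J := J) (q := q) (b + 2)
    have h5 : g (j, σ, b + 2) ≤ 0 := by
      have : 240 * (J : ℝ) * 4 ≤ 240 * J * (q : ℝ) := by
        refine mul_le_mul_of_nonneg_left hqr (by positivity)
      linarith [h3.2]
    rw [g0M_two J q j σ (by omega)]
    have h6 : b + 2 - 2 = b := by omega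
    rw [h6]
    have h7 : lamT J q b = 240 * J * (q * (1 + b)) := by
      unfold lamT tent
      rw [min_eq_left (by omega : b ≤ 2 * q - b)]
      push_cast
      ring
    have h8 : 0 ≤ lamT J q b := by unfold lamT; positivity
    calc 2073600 * (J : ℝ) ^ 2 * (q : ℝ) ^ 2 * ((1 : ℝ) + b) ^ 2 = (6 * lamT J q b) ^ 2 := by
          rw [h7]; ring
      _ ≤ _ := pow_le_pow_left₀ (by positivity) (by linarith) 2
  refine le_trans ?_ (sum_le_sum h2)
  rw [← mul_sum]
  have h3 := sum_sq_ge q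
  have h4 : 0 ≤ 2073600 * (J : ℝ) ^ 2 * (q : ℝ) ^ 2 := by positivity
  have h5 := mul_le_mul_of_nonneg_left h3 h4
  refine le_trans (le_of_eq ?_) h5
  ring

/-- The multigraphs. -/
theorem familyM {J q : ℕ} (hJ : 1 ≤ J) (hq : 50 ≤ q)
    (hh : (1 / 2 : ℝ) ^ (J - 1) * (480 * J * (q : ℝ) ^ 2) / 4 ≤ 1) :
    ∃ m : ℕ, 100000 * ((J : ℝ) ^ 3 * (q : ℝ) ^ 5) ≤ m ∧
      (m : ℝ) ≤ 130000000 * ((J : ℝ) ^ 3 * (q : ℝ) ^ 5) ∧
      Realizes (fun _ => True) m (70000000 * ((J : ℝ) ^ 3 * (q : ℝ) ^ 3)) := by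
  have hq1 : 1 ≤ q := by omega
  have hJr : (1 : ℝ) ≤ J := by exact_mod_cast hJ
  have hqr : (50 : ℝ) ≤ q := by exact_mod_cast hq
  obtain ⟨g, h1, h2⟩ := chainM hJ hq1 hh (2 * q) le_rfl
  have hB : ∑ x ∈ SS J (2 * q + 2), (g0M J q x + g x) ^ 2 ≤
      311040000 * ((J : ℝ) ^ 3 * (q : ℝ) ^ 3) := by
    rw [sum_SS]
    have a1 : ∀ j σ, ∑ c ∈ range (2 * q + 2), (g0M J q (j, σ, c) + g (j, σ, c)) ^ 2 ≤
        (3 * q) * (7200 * (J * (q : ℝ))) ^ 2 := by
      intro j σ
      calc _ ≤ ∑ c ∈ range (2 * q + 2), (7200 * (J * (q : ℝ))) ^ 2 := by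
            refine sum_le_sum fun c hc => ?_
            rw [mem_range] at hc
            rw [← sq_abs]
            exact pow_le_pow_left₀ (abs_nonneg _)
              (antipodalM hJ (by omega) h2 j σ c hc) 2
        _ = (2 * q + 2) * (7200 * (J * (q : ℝ))) ^ 2 := by
            rw [sum_const, card_range, nsmul_eq_mul]
            push_cast
            ring
        _ ≤ _ := mul_le_mul_of_nonneg_right (by linarith) (sq_nonneg _)
    calc _ ≤ ∑ j ∈ range J, ((3 * q) * (7200 * (J * (q : ℝ))) ^ 2 +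
          (3 * q) * (7200 * (J * (q : ℝ))) ^ 2) :=
          sum_le_sum fun j _ => add_le_add (a1 j true) (a1 j false)
      _ = _ := by
          rw [sum_const, card_range, nsmul_eq_mul]
          ring
  set D := ∑ x ∈ SS J (2 * q + 2), (g0M J q x - g x) ^ 2 with hD
  have hD1 : 1382400 * ((J : ℝ) ^ 3 * (q : ℝ) ^ 5) ≤ D := by
    rw [hD, sum_SS]
    calc 1382400 * ((J : ℝ) ^ 3 * (q : ℝ) ^ 5) = ∑ j ∈ range J,
          (691200 * (J : ℝ) ^ 2 * (q : ℝ) ^ 5 + 691200 * (J : ℝ) ^ 2 * (q : ℝ) ^ 5) := by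
          rw [sum_const, card_range, nsmul_eq_mul]
          ring
      _ ≤ _ := sum_le_sum fun j _ => add_le_add (dist_geM hJ (by omega) h2 j true)
          (dist_geM hJ (by omega) h2 j false)
  have hD2 : D ≤ 1040000000 * ((J : ℝ) ^ 3 * (q : ℝ) ^ 5) := by
    rw [hD, sum_SS]
    have a1 : ∀ j σ, ∑ c ∈ range (2 * q + 2), (g0M J q (j, σ, c) - g (j, σ, c)) ^ 2 ≤
        (3 * q) * (13000 * (J * (q : ℝ) ^ 2)) ^ 2 := by
      intro j σ
      calc _ ≤ ∑ c ∈ range (2 * q + 2), (13000 * (J * (q : ℝ) ^ 2)) ^ 2 := by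
            refine sum_le_sum fun c hc => ?_
            rw [mem_range] at hc
            rw [← sq_abs]
            exact pow_le_pow_left₀ (abs_nonneg _)
              (diff_leM hJ (by omega) h2 j σ c hc) 2
        _ = (2 * q + 2) * (13000 * (J * (q : ℝ) ^ 2)) ^ 2 := by
            rw [sum_const, card_range, nsmul_eq_mul]
            push_cast
            ring
        _ ≤ _ := mul_le_mul_of_nonneg_right (by linarith) (sq_nonneg _)
    calc _ ≤ ∑ j ∈ range J, ((3 * q) * (13000 * (J * (q : ℝ) ^ 2)) ^ 2 +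
          (3 * q) * (13000 * (J * (q : ℝ) ^ 2)) ^ 2) :=
          sum_le_sum fun j _ => add_le_add (a1 j true) (a1 j false)
      _ = 1014000000 * ((J : ℝ) ^ 3 * (q : ℝ) ^ 5) := by
          rw [sum_const, card_range, nsmul_eq_mul]
          ring
      _ ≤ _ := by
          have : 0 ≤ (J : ℝ) ^ 3 * (q : ℝ) ^ 5 := by positivity
          linarith
  obtain ⟨m, m1, m2, m3⟩ := h1.realizes hB rfl
  have hs := stp_le hq1
  have hJ3 : (0 : ℝ) ≤ (J : ℝ) ^ 3 := by positivity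
  have hA : 170000000 * (J : ℝ) ^ 3 * (stp q (2 * q) : ℕ) ≤
      1360000000 * ((J : ℝ) ^ 3 * (q : ℝ) ^ 3) := by
    have := mul_le_mul_of_nonneg_left hs hJ3
    linarith
  have hE : 26000000 * (J : ℝ) ^ 3 * (stp q (2 * q) : ℕ) ≤
      208000000 * ((J : ℝ) ^ 3 * (q : ℝ) ^ 3) := by
    have := mul_le_mul_of_nonneg_left hs hJ3
    linarith
  have hq2 : 2500 * ((J : ℝ) ^ 3 * (q : ℝ) ^ 3) ≤ (J : ℝ) ^ 3 * (q : ℝ) ^ 5 := by
    have a1 : (2500 : ℝ) ≤ (q : ℝ) ^ 2 := by nlinarith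
    have a2 : (0 : ℝ) ≤ (J : ℝ) ^ 3 * (q : ℝ) ^ 3 := by positivity
    have a3 := mul_le_mul_of_nonneg_right a1 a2
    have a4 : (q : ℝ) ^ 2 * ((J : ℝ) ^ 3 * (q : ℝ) ^ 3) = (J : ℝ) ^ 3 * (q : ℝ) ^ 5 := by ring
    linarith
  have hpos : (0 : ℝ) ≤ (J : ℝ) ^ 3 * (q : ℝ) ^ 3 := by positivity
  refine ⟨m, ?_, ?_, m3.mono ?_⟩
  · change (D - _) / 8 ≤ _ at m1
    linarith
  · change _ ≤ D / 8 at m2
    linarith
  · linarith

end Pool.Agent.H62.DC
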