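import Mathlib

/-!
# Directed cuts in acyclic digraphs and acyclic directed multigraphs
-/

set_option autoImplicit false

namespace Pool.Agent.H62.DC

open Finset

/-- A directed multigraph on `n` vertices is given by the numbers `μ u v` of the arcs from `u` to
`v`. It is acyclic if there is no directed cycle. -/
def AcyclicN {n : ℕ} (μ : Fin n → Fin n → ℕ) : Prop :=
  ∀ v, ¬ Relation.TransGen (fun x y => μ x y ≠ 0) v v

/-- The size of the directed cut of the arcs with tail in `X` and head outside of `X`. -/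
def cutSize {n : ℕ} (μ : Fin n → Fin n → ℕ) (X : Finset (Fin n)) : ℕ :=
  ∑ u ∈ X, ∑ v ∈ Xᶜ, μ u v

/-- The largest `k` such that every acyclic digraph (without parallel arcs) with `m` arcs has a
directed cut of size at least `k`. -/
noncomputable def hSimple (m : ℕ) : ℕ :=
  sSup {k : ℕ | ∀ (n : ℕ) (μ : Fin n → Fin n → ℕ), AcyclicN μ → (∀ u v, μ u v ≤ 1) →
    ∑ u, ∑ v, μ u v = m → ∃ X : Finset (Fin n), k ≤ cutSize μ X}

/-- The largest `k` such that every acyclic directed multigraph with `m` arcs has a directed cut of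
size at least `k`. -/
noncomputable def hMulti (m : ℕ) : ℕ :=
  sSup {k : ℕ | ∀ (n : ℕ) (μ : Fin n → Fin n → ℕ), AcyclicN μ →
    ∑ u, ∑ v, μ u v = m → ∃ X : Finset (Fin n), k ≤ cutSize μ X}

end Pool.Agent.H62.DC
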