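import Mathlib
import Pool.Agent.H62.DC.Path
import Pool.Agent.H62.DC.Realize

/-!
# Lattice points of a thin ellipse: simple acyclic digraphs with small directed cuts
-/

set_option autoImplicit false

namespace Pool.Agent.H62.DC.Ell

open Finset

/-- The quadratic form of the ellipse. -/
def Q (t : ℕ) (a b : ℤ) : ℤ := (t : ℤ) ^ 2 * (a - b) ^ 2 + 2 * a * b

theorem Q_comm (t : ℕ) (a b : ℤ) : Q t a b = Q t b a := by unfold Q; ring

/-- A row of the ellipse. -/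
noncomputable def R (t : ℕ) (b : ℤ) : Finset ℤ :=
  (Icc (-(t : ℤ) ^ 3) ((t : ℤ) ^ 3)).filter (fun a => Q t a b ≤ (t : ℤ) ^ 6)

theorem abs_le_of_Q {t : ℕ} (ht : 1 ≤ t) {a b : ℤ} (h : Q t a b ≤ (t : ℤ) ^ 6) :
    -(t : ℤ) ^ 3 ≤ a ∧ a ≤ (t : ℤ) ^ 3 := by
  have ht' : (1 : ℤ) ≤ (t : ℤ) ^ 2 := by
    have : (1 : ℤ) ≤ t := by exact_mod_cast ht
    nlinarith
  unfold Q at h
  rw [← abs_le]
  refine abs_le_of_sq_le_sq ?_ (by positivity)
  have e1 : (t : ℤ) ^ 6 = ((t : ℤ) ^ 3) ^ 2 := by ring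
  rw [← e1]
  -- `t² (a - b)² + 2 a b = a² + b² + (t² - 1) (a - b)²`
  nlinarith [mul_nonneg (by linarith : (0 : ℤ) ≤ (t : ℤ) ^ 2 - 1) (sq_nonneg (a - b)),
    sq_nonneg b]

theorem mem_R {t : ℕ} (ht : 1 ≤ t) {a b : ℤ} : a ∈ R t b ↔ Q t a b ≤ (t : ℤ) ^ 6 := by
  unfold R
  rw [mem_filter, mem_Icc]
  exact ⟨fun h => h.2, fun h => ⟨abs_le_of_Q ht h, h⟩⟩

theorem mem_R_comm {t : ℕ} (ht : 1 ≤ t) {a b : ℤ} : a ∈ R t b ↔ b ∈ R t a := by
  rw [mem_R ht, mem_R ht, Q_comm]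

theorem R_empty {t : ℕ} (ht : 1 ≤ t) {b : ℤ} (hb : ¬ (-(t : ℤ) ^ 3 ≤ b ∧ b ≤ (t : ℤ) ^ 3)) :
    R t b = ∅ := by
  rw [eq_empty_iff_forall_notMem]
  intro a ha
  rw [mem_R ht, Q_comm] at ha
  exact hb (abs_le_of_Q ht ha)

/-- The rows are intervals whose centre is near the diagonal. -/
theorem row_interval {t : ℕ} (ht : 1 ≤ t) {b : ℤ} (hne : (R t b).Nonempty) :
    ∃ p q : ℤ, p ≤ q ∧ R t b = Icc p q ∧ |p + q - 2 * b| ≤ 2 * t + 1 ∧ q - p ≤ 2 * (t : ℤ) ^ 2 := by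
  have ht0 : (1 : ℤ) ≤ t := by exact_mod_cast ht
  have ht2 : (1 : ℤ) ≤ (t : ℤ) ^ 2 := by nlinarith
  set p := (R t b).min' hne with hp
  set q := (R t b).max' hne with hq
  have hpm : p ∈ R t b := min'_mem _ _
  have hqm : q ∈ R t b := max'_mem _ _
  have hpq : p ≤ q := min'_le_max' _ _
  have hQp := (mem_R ht).1 hpm
  have hQq := (mem_R ht).1 hqm
  have hp1 : ¬ Q t (p - 1) b ≤ (t : ℤ) ^ 6 := by
    intro hcon
    have := min'_le _ _ ((mem_R ht).2 hcon)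
    omega
  have hq1 : ¬ Q t (q + 1) b ≤ (t : ℤ) ^ 6 := by
    intro hcon
    have := le_max' _ _ ((mem_R ht).2 hcon)
    omega
  push Not at hp1 hq1
  have hb := abs_le_of_Q ht (by rw [Q_comm]; exact hQp : Q t b p ≤ (t : ℤ) ^ 6)
  refine ⟨p, q, hpq, ?_, ?_, ?_⟩
  · ext a
    rw [mem_Icc]
    constructor
    · intro ha
      exact ⟨min'_le _ _ ha, le_max' _ _ ha⟩
    · rintro ⟨h1, h2⟩
      rw [mem_R ht]
      rcases eq_or_lt_of_le hpq with heq | hlt
      · have : a = p := by omega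
        rw [this]
        exact hQp
      · have e1 : (q - p) * Q t a b = (q - a) * Q t p b + (a - p) * Q t q b -
            (t : ℤ) ^ 2 * ((q - a) * (a - p) * (q - p)) := by
          unfold Q
          ring
        have e2 : (q - a) * Q t p b ≤ (q - a) * (t : ℤ) ^ 6 :=
          mul_le_mul_of_nonneg_left hQp (by omega)
        have e3 : (a - p) * Q t q b ≤ (a - p) * (t : ℤ) ^ 6 :=
          mul_le_mul_of_nonneg_left hQq (by omega)
        have e4 : 0 ≤ (t : ℤ) ^ 2 * ((q - a) * (a - p) * (q - p)) :=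
          mul_nonneg (by positivity) (mul_nonneg (mul_nonneg (by omega) (by omega)) (by omega))
        have e5 : (q - p) * Q t a b ≤ (q - p) * (t : ℤ) ^ 6 := by linarith
        exact le_of_mul_le_mul_left e5 (by omega)
  · -- the centre
    have d1 : Q t (p - 1) b - Q t q b =
        (p - 1 - q) * ((t : ℤ) ^ 2 * (p - 1 + q - 2 * b) + 2 * b) := by
      unfold Q
      ring
    have d2 : Q t (q + 1) b - Q t p b =
        (q + 1 - p) * ((t : ℤ) ^ 2 * (q + 1 + p - 2 * b) + 2 * b) := by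
      unfold Q
      ring
    have g1 : (t : ℤ) ^ 2 * (p - 1 + q - 2 * b) + 2 * b < 0 := by
      by_contra hcon
      push Not at hcon
      have : (p - 1 - q) * ((t : ℤ) ^ 2 * (p - 1 + q - 2 * b) + 2 * b) ≤ 0 :=
        mul_nonpos_of_nonpos_of_nonneg (by omega) hcon
      linarith
    have g2 : 0 < (t : ℤ) ^ 2 * (q + 1 + p - 2 * b) + 2 * b := by
      by_contra hcon
      push Not at hcon
      have : (q + 1 - p) * ((t : ℤ) ^ 2 * (q + 1 + p - 2 * b) + 2 * b) ≤ 0 :=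
        mul_nonpos_of_nonneg_of_nonpos (by omega) hcon
      linarith
    rw [abs_le]
    constructor
    · by_contra hcon
      push Not at hcon
      have h3 : q + 1 + p - 2 * b ≤ -(2 * t + 1) := by omega
      have h4 : (t : ℤ) ^ 2 * (q + 1 + p - 2 * b) ≤ (t : ℤ) ^ 2 * (-(2 * t + 1)) :=
        mul_le_mul_of_nonneg_left h3 (by positivity)
      nlinarith
    · by_contra hcon
      push Not at hcon
      have h3 : 2 * (t : ℤ) + 1 ≤ p - 1 + q - 2 * b := by omega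
      have h4 : (t : ℤ) ^ 2 * (2 * (t : ℤ) + 1) ≤ (t : ℤ) ^ 2 * (p - 1 + q - 2 * b) :=
        mul_le_mul_of_nonneg_left h3 (by positivity)
      nlinarith
  · -- the length
    have key : ∀ a : ℤ, Q t a b ≤ (t : ℤ) ^ 6 →
        |(t : ℤ) ^ 2 * a - ((t : ℤ) ^ 2 - 1) * b| ≤ (t : ℤ) ^ 4 := by
      intro a ha
      refine abs_le_of_sq_le_sq ?_ (by positivity)
      have e1 : ((t : ℤ) ^ 2 * a - ((t : ℤ) ^ 2 - 1) * b) ^ 2 =
          (t : ℤ) ^ 2 * Q t a b - (2 * (t : ℤ) ^ 2 - 1) * b ^ 2 := by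
        unfold Q
        ring
      rw [e1]
      have e2 : (t : ℤ) ^ 2 * Q t a b ≤ (t : ℤ) ^ 2 * (t : ℤ) ^ 6 :=
        mul_le_mul_of_nonneg_left ha (by positivity)
      have e3 : 0 ≤ (2 * (t : ℤ) ^ 2 - 1) * b ^ 2 :=
        mul_nonneg (by linarith) (sq_nonneg b)
      have e4 : ((t : ℤ) ^ 4) ^ 2 = (t : ℤ) ^ 2 * (t : ℤ) ^ 6 := by ring
      linarith
    have k1 := abs_le.1 (key p hQp)
    have k2 := abs_le.1 (key q hQq)
    have k3 : (t : ℤ) ^ 2 * (q - p) ≤ (t : ℤ) ^ 2 * (2 * (t : ℤ) ^ 2) := by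
      have : (t : ℤ) ^ 4 = (t : ℤ) ^ 2 * (t : ℤ) ^ 2 := by ring
      nlinarith [k1.1, k2.2]
    exact le_of_mul_le_mul_left k3 (by positivity)

/-- Sums over an interval of integers. -/
theorem sum_Icc_int {M : Type*} [AddCommMonoid M] (p q : ℤ) (hpq : p ≤ q) (F : ℤ → M) :
    ∑ a ∈ Icc p q, F a = ∑ i ∈ range (q + 1 - p).toNat, F (p + i) := by
  symm
  refine sum_bij (fun i _ => p + i) ?_ ?_ ?_ ?_
  · intro i hi
    rw [mem_range] at hi
    rw [mem_Icc]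
    omega
  · intro i _ j _ hij
    omega
  · intro a ha
    rw [mem_Icc] at ha
    exact ⟨(a - p).toNat, by rw [mem_range]; omega, by omega⟩
  · intro i _
    rfl

theorem sum_Icc_lt {M : Type*} [AddCommMonoid M] (p q a : ℤ) (ha : a ∈ Icc p q)
    (F : ℤ → M) :
    ∑ c ∈ (Icc p q).filter (· < a), F c = ∑ i ∈ range (a - p).toNat, F (p + i) := by
  rw [mem_Icc] at ha
  symm
  refine sum_bij (fun i _ => p + i) ?_ ?_ ?_ ?_
  · intro i hi
    rw [mem_range] at hi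
    rw [mem_filter, mem_Icc]
    omega
  · intro i _ j _ hij
    omega
  · intro c hc
    rw [mem_filter, mem_Icc] at hc
    exact ⟨(c - p).toNat, by rw [mem_range]; omega, by omega⟩
  · intro i _
    rfl

/-- The cut inequality for one row. -/
theorem row_cut {t : ℕ} (ht : 1 ≤ t) (b : ℤ) (x : ℤ → ℝ) (hx : ∀ a, x a ^ 2 = 1) :
    ∑ a' ∈ R t b, ∑ a ∈ (R t b).filter (· < a'), ((1 + x a) * (1 - x a') - 1) ≤
      ∑ a ∈ R t b, x a * (2 * b - 2 * a) + (1 / 2) * (2 * t + 1 : ℝ) ^ 2 +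
        (1 / 2) * (R t b).card := by
  rcases (R t b).eq_empty_or_nonempty with he | hne
  · rw [he]
    simp only [sum_empty, card_empty]
    positivity
  obtain ⟨p, q, hpq, hR, hY, -⟩ := row_interval ht hne
  rw [hR]
  set N := (q + 1 - p).toNat with hN
  set f : ℕ → ℝ := fun i => 2 * (b - p - i) + 1 with hf
  have hfd : ∀ i, (f i - f (i + 1)) / 2 = 1 := by
    intro i
    simp only [hf]
    push_cast
    ring
  have hfd2 : ∀ i, (f i - f (i + 1)) ^ 2 = 4 := by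
    intro i
    simp only [hf]
    push_cast
    ring
  have h1 := one_clique_le f (fun i => x (p + i)) (fun i => hx _) N
  have e1 : ∑ a' ∈ Icc p q, ∑ a ∈ (Icc p q).filter (· < a'), ((1 + x a) * (1 - x a') - 1) =
      ∑ j ∈ range N, ∑ i ∈ range j, ((f i - f (i + 1)) / 2) * ((f j - f (j + 1)) / 2) *
        ((1 + x (p + i)) * (1 - x (p + j)) - 1) := by
    have e0 : ∀ a' ∈ Icc p q, ∑ a ∈ (Icc p q).filter (· < a'), ((1 + x a) * (1 - x a') - 1) =
        (fun a' => ∑ i ∈ range (a' - p).toNat, ((1 + x (p + i)) * (1 - x a') - 1)) a' :=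
      fun a' ha' => sum_Icc_lt p q a' ha' _
    rw [sum_congr rfl e0, sum_Icc_int p q hpq]
    refine sum_congr rfl fun j _ => ?_
    beta_reduce
    have e2 : (p + (j : ℤ) - p).toNat = j := by omega
    rw [e2]
    refine sum_congr rfl fun i _ => ?_
    rw [hfd, hfd]
    ring
  rw [e1]
  have g1 : (1 / 4) * ∑ i ∈ range N, x (p + i) * (f i ^ 2 - f (i + 1) ^ 2) =
      ∑ a ∈ Icc p q, x a * (2 * b - 2 * a) := by
    rw [sum_Icc_int p q hpq, mul_sum]
    refine sum_congr rfl fun i _ => ?_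
    simp only [hf]
    push_cast
    ring
  have g2 : (1 / 8) * (f 0 + f N) ^ 2 ≤ (1 / 2) * (2 * t + 1 : ℝ) ^ 2 := by
    have e3 : f 0 + f N = -2 * ((p + q - 2 * b : ℤ) : ℝ) := by
      have : ((N : ℕ) : ℝ) = (q : ℝ) + 1 - p := by
        have h2 : ((N : ℕ) : ℤ) = q + 1 - p := by omega
        exact_mod_cast h2
      simp only [hf]
      rw [this]
      push_cast
      ring
    rw [e3]
    have h3 : |((p + q - 2 * b : ℤ) : ℝ)| ≤ 2 * t + 1 := by exact_mod_cast hY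
    have h4 : ((p + q - 2 * b : ℤ) : ℝ) ^ 2 ≤ (2 * t + 1 : ℝ) ^ 2 := by
      rw [← sq_abs]
      exact pow_le_pow_left₀ (abs_nonneg _) h3 2
    nlinarith
  have g3 : (1 / 8) * ∑ i ∈ range N, (f i - f (i + 1)) ^ 2 = (1 / 2) * ((Icc p q).card : ℝ) := by
    simp only [hfd2]
    rw [sum_const, card_range, nsmul_eq_mul, Int.card_Icc]
    ring
  linarith

end Pool.Agent.H62.DC.Ell
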