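import Mathlib
import Pool.Agent.H62.DC.Ellipse

/-!
# The digraph on the lattice points of the ellipse
-/

set_option autoImplicit false

namespace Pool.Agent.H62.DC.Ell

open Finset

/-- The range of the coordinates. -/
noncomputable def I (t : ℕ) : Finset ℤ := Icc (-(t : ℤ) ^ 3) ((t : ℤ) ^ 3)

/-- The lattice points of the ellipse. -/
noncomputable def V (t : ℕ) : Finset (ℤ × ℤ) := (I t ×ˢ I t).filter (fun v => v.1 ∈ R t v.2)

/-- Arcs to the right and upwards. -/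
def mu (u v : ℤ × ℤ) : ℕ := if (u.2 = v.2 ∧ u.1 < v.1) ∨ (u.1 = v.1 ∧ u.2 < v.2) then 1 else 0

theorem R_subset (t : ℕ) (b : ℤ) : R t b ⊆ I t := filter_subset _ _

theorem sum_V (t : ℕ) {M : Type*} [AddCommMonoid M] (F : ℤ × ℤ → M) :
    ∑ v ∈ V t, F v = ∑ b ∈ I t, ∑ a ∈ R t b, F (a, b) := by
  unfold V
  rw [sum_filter, sum_product_right]
  refine sum_congr rfl fun b _ => ?_
  rw [← sum_filter]
  refine sum_congr ?_ fun _ _ => rfl
  ext a
  rw [mem_filter]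
  exact ⟨fun h => h.2, fun h => ⟨R_subset t b h, h⟩⟩

theorem sum_V' {t : ℕ} (ht : 1 ≤ t) {M : Type*} [AddCommMonoid M] (F : ℤ × ℤ → M) :
    ∑ v ∈ V t, F v = ∑ a ∈ I t, ∑ b ∈ R t a, F (a, b) := by
  unfold V
  rw [sum_filter, sum_product]
  refine sum_congr rfl fun a _ => ?_
  rw [← sum_filter]
  refine sum_congr ?_ fun _ _ => rfl
  ext b
  rw [mem_filter]
  exact ⟨fun h => (mem_R_comm ht).1 h.2, fun h => ⟨R_subset t a h, (mem_R_comm ht).2 h⟩⟩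

/-- Decomposition of a sum over the arcs. -/
theorem sum_arcs {t : ℕ} (ht : 1 ≤ t) (G : ℤ × ℤ → ℤ × ℤ → ℝ) :
    ∑ u ∈ V t, ∑ v ∈ V t, (mu u v : ℝ) * G u v =
      ∑ b ∈ I t, ∑ a' ∈ R t b, ∑ a ∈ (R t b).filter (· < a'), G (a, b) (a', b) +
      ∑ a ∈ I t, ∑ b' ∈ R t a, ∑ b ∈ (R t a).filter (· < b'), G (a, b) (a, b') := by
  have h1 : ∀ u v : ℤ × ℤ, (mu u v : ℝ) * G u v =
      (if u.2 = v.2 ∧ u.1 < v.1 then G u v else 0) +
      (if u.1 = v.1 ∧ u.2 < v.2 then G u v else 0) := by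
    intro u v
    unfold mu
    by_cases c1 : u.2 = v.2 ∧ u.1 < v.1
    · have c2 : ¬ (u.1 = v.1 ∧ u.2 < v.2) := fun h => absurd h.2 (by rw [c1.1]; exact lt_irrefl _)
      rw [if_pos (Or.inl c1), if_pos c1, if_neg c2]
      simp
    · by_cases c2 : u.1 = v.1 ∧ u.2 < v.2
      · rw [if_pos (Or.inr c2), if_neg c1, if_pos c2]
        simp
      · rw [if_neg (by tauto), if_neg c1, if_neg c2]
        simp
  simp only [h1, sum_add_distrib]
  congr 1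
  · rw [sum_comm, sum_V t]
    refine sum_congr rfl fun b' hb' => ?_
    refine sum_congr rfl fun a' _ => ?_
    rw [sum_V t]
    rw [sum_eq_single b']
    · beta_reduce
      rw [sum_filter]
      refine sum_congr rfl fun a _ => ?_
      by_cases c : a < a'
      · rw [if_pos ⟨rfl, c⟩, if_pos c]
      · rw [if_neg (fun h => c h.2), if_neg c]
    · intro b _ hb
      refine sum_eq_zero fun a _ => ?_
      exact if_neg (fun h => hb h.1)
    · intro h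
      exact absurd hb' h
  · rw [sum_comm, sum_V' ht]
    refine sum_congr rfl fun a' ha' => ?_
    refine sum_congr rfl fun b' _ => ?_
    rw [sum_V' ht]
    rw [sum_eq_single a']
    · beta_reduce
      rw [sum_filter]
      refine sum_congr rfl fun b _ => ?_
      by_cases c : b < b'
      · rw [if_pos ⟨rfl, c⟩, if_pos c]
      · rw [if_neg (fun h => c h.2), if_neg c]
    · intro a _ ha
      refine sum_eq_zero fun b _ => ?_
      exact if_neg (fun h => ha h.1)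
    · intro h
      exact absurd ha' h

theorem card_R_le {t : ℕ} (ht : 1 ≤ t) (b : ℤ) : (R t b).card ≤ 3 * t ^ 2 := by
  rcases (R t b).eq_empty_or_nonempty with he | hne
  · rw [he]
    simp
  obtain ⟨p, q, hpq, hR, -, hL⟩ := row_interval ht hne
  rw [hR, Int.card_Icc]
  have ht0 : 1 ≤ t ^ 2 := Nat.one_le_pow _ _ ht
  have : q + 1 - p ≤ 3 * (t : ℤ) ^ 2 := by
    have : (1 : ℤ) ≤ (t : ℤ) ^ 2 := by exact_mod_cast ht0
    linarith
  have h2 : ((3 * t ^ 2 : ℕ) : ℤ) = 3 * (t : ℤ) ^ 2 := by push_cast; ring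
  omega

theorem card_I_le {t : ℕ} (ht : 1 ≤ t) : (I t).card ≤ 3 * t ^ 3 := by
  unfold I
  rw [Int.card_Icc]
  have ht0 : 1 ≤ t ^ 3 := Nat.one_le_pow _ _ ht
  have h2 : ((3 * t ^ 3 : ℕ) : ℤ) = 3 * (t : ℤ) ^ 3 := by push_cast; ring
  have h3 : (1 : ℤ) ≤ (t : ℤ) ^ 3 := by exact_mod_cast ht0
  omega

/-- The cut inequality for the digraph. -/
theorem cut_le {t : ℕ} (ht : 1 ≤ t) (x : ℤ × ℤ → ℝ) (hx : ∀ v, x v ^ 2 = 1) :
    ∑ u ∈ V t, ∑ v ∈ V t, (mu u v : ℝ) * ((1 + x u) * (1 - x v) - 1) ≤ 36 * (t : ℝ) ^ 5 := by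
  rw [sum_arcs ht (fun u v => (1 + x u) * (1 - x v) - 1)]
  have h1 : ∀ b ∈ I t, ∑ a' ∈ R t b, ∑ a ∈ (R t b).filter (· < a'),
      ((1 + x (a, b)) * (1 - x (a', b)) - 1) ≤
      ∑ a ∈ R t b, x (a, b) * (2 * b - 2 * a) + (1 / 2) * (2 * t + 1 : ℝ) ^ 2 +
        (1 / 2) * (R t b).card :=
    fun b _ => row_cut ht b (fun a => x (a, b)) (fun a => hx _)
  have h2 : ∀ a ∈ I t, ∑ b' ∈ R t a, ∑ b ∈ (R t a).filter (· < b'),
      ((1 + x (a, b)) * (1 - x (a, b')) - 1) ≤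
      ∑ b ∈ R t a, x (a, b) * (2 * a - 2 * b) + (1 / 2) * (2 * t + 1 : ℝ) ^ 2 +
        (1 / 2) * (R t a).card :=
    fun a _ => row_cut ht a (fun b => x (a, b)) (fun b => hx _)
  have h3 := add_le_add (sum_le_sum h1) (sum_le_sum h2)
  simp only [sum_add_distrib] at h3
  have h4 := sum_V t (fun v => x v * (2 * v.2 - 2 * v.1))
  have h5 := sum_V' ht (fun v => x v * (2 * v.1 - 2 * v.2))
  have h6 : ∑ v ∈ V t, x v * (2 * (v.2 : ℝ) - 2 * v.1) +
      ∑ v ∈ V t, x v * (2 * (v.1 : ℝ) - 2 * v.2) = 0 := by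
    rw [← sum_add_distrib]
    refine sum_eq_zero fun v _ => ?_
    ring
  have ht1 : (1 : ℝ) ≤ t := by exact_mod_cast ht
  have h7 : ∑ b ∈ I t, (1 / 2) * (2 * t + 1 : ℝ) ^ 2 ≤ (3 * (t : ℝ) ^ 3) * ((9 / 2) * (t : ℝ) ^ 2) := by
    rw [sum_const, nsmul_eq_mul]
    have c1 : ((I t).card : ℝ) ≤ 3 * (t : ℝ) ^ 3 := by exact_mod_cast card_I_le ht
    have c2 : (1 / 2) * (2 * t + 1 : ℝ) ^ 2 ≤ (9 / 2) * (t : ℝ) ^ 2 := by nlinarith
    exact mul_le_mul c1 c2 (by positivity) (by positivity)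
  have h8 : ∑ b ∈ I t, (1 / 2) * ((R t b).card : ℝ) ≤
      (3 * (t : ℝ) ^ 3) * ((3 / 2) * (t : ℝ) ^ 2) := by
    have c1 : ((I t).card : ℝ) ≤ 3 * (t : ℝ) ^ 3 := by exact_mod_cast card_I_le ht
    calc ∑ b ∈ I t, (1 / 2) * ((R t b).card : ℝ) ≤ ∑ b ∈ I t, ((3 / 2) * (t : ℝ) ^ 2) := by
          refine sum_le_sum fun b _ => ?_
          have c2 : ((R t b).card : ℝ) ≤ 3 * (t : ℝ) ^ 2 := by exact_mod_cast card_R_le ht b
          linarith
      _ ≤ _ := by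
          rw [sum_const, nsmul_eq_mul]
          exact mul_le_mul_of_nonneg_right c1 (by positivity)
  beta_reduce at h4 h5
  linarith

/-- The number of arcs. -/
theorem card_arcs {t : ℕ} (ht : 1 ≤ t) : ∑ u ∈ V t, ∑ v ∈ V t, (mu u v : ℝ) =
    2 * ∑ b ∈ I t, ∑ a' ∈ R t b, (((R t b).filter (· < a')).card : ℝ) := by
  have h := sum_arcs ht (fun _ _ => 1)
  simp only [mul_one] at h
  rw [h]
  simp only [sum_const, nsmul_eq_mul, mul_one]
  ring

theorem arcs_le {t : ℕ} (ht : 1 ≤ t) : ∑ u ∈ V t, ∑ v ∈ V t, (mu u v : ℝ) ≤ 54 * (t : ℝ) ^ 7 := by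
  rw [card_arcs ht]
  have c1 : ((I t).card : ℝ) ≤ 3 * (t : ℝ) ^ 3 := by exact_mod_cast card_I_le ht
  have h1 : ∀ b ∈ I t, ∑ a' ∈ R t b, (((R t b).filter (· < a')).card : ℝ) ≤
      (3 * (t : ℝ) ^ 2) * (3 * (t : ℝ) ^ 2) := by
    intro b _
    have c2 : ((R t b).card : ℝ) ≤ 3 * (t : ℝ) ^ 2 := by exact_mod_cast card_R_le ht b
    calc ∑ a' ∈ R t b, (((R t b).filter (· < a')).card : ℝ) ≤ ∑ a' ∈ R t b, (3 * (t : ℝ) ^ 2) := by
          refine sum_le_sum fun a' _ => le_trans ?_ c2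
          exact_mod_cast card_filter_le _ _
      _ ≤ _ := by
          rw [sum_const, nsmul_eq_mul]
          exact mul_le_mul_of_nonneg_right c2 (by positivity)
  have h2 := sum_le_sum h1
  rw [sum_const, nsmul_eq_mul] at h2
  have h3 : ((I t).card : ℝ) * ((3 * (t : ℝ) ^ 2) * (3 * (t : ℝ) ^ 2)) ≤
      (3 * (t : ℝ) ^ 3) * ((3 * (t : ℝ) ^ 2) * (3 * (t : ℝ) ^ 2)) :=
    mul_le_mul_of_nonneg_right c1 (by positivity)
  nlinarith

theorem row_big {r : ℕ} (hr : 1 ≤ r) {b k : ℤ} (hb : -(4 * (r : ℤ) ^ 3) ≤ b)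
    (hb' : b ≤ 4 * (r : ℤ) ^ 3) (hk : -(2 * (r : ℤ) ^ 2) ≤ k) (hk' : k ≤ 2 * (r : ℤ) ^ 2) :
    b + k ∈ R (2 * r) b := by
  rw [mem_R (by omega)]
  unfold Q
  have hr0 : (1 : ℤ) ≤ r := by exact_mod_cast hr
  push_cast
  have e1 : b ^ 2 ≤ (4 * (r : ℤ) ^ 3) ^ 2 := sq_le_sq' hb hb'
  have e2 : k ^ 2 ≤ (2 * (r : ℤ) ^ 2) ^ 2 := sq_le_sq' hk hk'
  have e3 : b * k ≤ (4 * (r : ℤ) ^ 3) * (2 * (r : ℤ) ^ 2) := by
    have : |b * k| ≤ (4 * (r : ℤ) ^ 3) * (2 * (r : ℤ) ^ 2) := by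
      rw [abs_mul]
      exact mul_le_mul (abs_le.2 ⟨hb, hb'⟩) (abs_le.2 ⟨hk, hk'⟩) (abs_nonneg _) (by positivity)
    exact (le_abs_self _).trans this
  have e4 : (r : ℤ) ^ 5 ≤ (r : ℤ) ^ 6 := pow_le_pow_right₀ hr0 (by norm_num)
  have e5 : (2 * (r : ℤ)) ^ 2 * k ^ 2 ≤ (2 * (r : ℤ)) ^ 2 * (2 * (r : ℤ) ^ 2) ^ 2 :=
    mul_le_mul_of_nonneg_left e2 (by positivity)
  have e6 : (2 * (r : ℤ)) ^ 2 * (b + k - b) ^ 2 + 2 * (b + k) * b =
      (2 * (r : ℤ)) ^ 2 * k ^ 2 + 2 * b ^ 2 + 2 * (b * k) := by ring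
  rw [e6]
  nlinarith

theorem arcs_ge {r : ℕ} (hr : 1 ≤ r) :
    64 * (r : ℝ) ^ 7 ≤ ∑ u ∈ V (2 * r), ∑ v ∈ V (2 * r), (mu u v : ℝ) := by
  rw [card_arcs (by omega)]
  have hr0 : (1 : ℤ) ≤ r := by exact_mod_cast hr
  have hr3 : (1 : ℤ) ≤ (r : ℤ) ^ 3 := one_le_pow₀ hr0
  have hr2 : (1 : ℤ) ≤ (r : ℤ) ^ 2 := one_le_pow₀ hr0
  -- the rows near the middle
  have h1 : ∀ b ∈ Icc (-(4 * (r : ℤ) ^ 3)) (4 * (r : ℤ) ^ 3),
      4 * (r : ℝ) ^ 4 ≤ ∑ a' ∈ R (2 * r) b, (((R (2 * r) b).filter (· < a')).card : ℝ) := by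
    intro b hb
    rw [mem_Icc] at hb
    have h2 : ∀ a' ∈ Ico b (b + 2 * (r : ℤ) ^ 2), a' ∈ R (2 * r) b ∧
        2 * r ^ 2 ≤ ((R (2 * r) b).filter (· < a')).card := by
      intro a' ha'
      rw [mem_Ico] at ha'
      constructor
      · have := row_big hr hb.1 hb.2 (k := a' - b) (by omega) (by omega)
        rwa [add_sub_cancel] at this
      · have h3 : Ico (b - 2 * (r : ℤ) ^ 2) b ⊆ (R (2 * r) b).filter (· < a') := by
          intro a ha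
          rw [mem_Ico] at ha
          rw [mem_filter]
          refine ⟨?_, by omega⟩
          have := row_big hr hb.1 hb.2 (k := a - b) (by omega) (by omega)
          rwa [add_sub_cancel] at this
        have h4 := card_le_card h3
        rw [Int.card_Ico] at h4
        have h5 : ((2 * r ^ 2 : ℕ) : ℤ) = 2 * (r : ℤ) ^ 2 := by push_cast; ring
        omega
    have h6 : ∑ a' ∈ Ico b (b + 2 * (r : ℤ) ^ 2), (2 * (r : ℝ) ^ 2) ≤
        ∑ a' ∈ R (2 * r) b, (((R (2 * r) b).filter (· < a')).card : ℝ) := by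
      calc ∑ a' ∈ Ico b (b + 2 * (r : ℤ) ^ 2), (2 * (r : ℝ) ^ 2)
          ≤ ∑ a' ∈ Ico b (b + 2 * (r : ℤ) ^ 2), (((R (2 * r) b).filter (· < a')).card : ℝ) := by
            refine sum_le_sum fun a' ha' => ?_
            exact_mod_cast (h2 a' ha').2
        _ ≤ _ := sum_le_sum_of_subset_of_nonneg (fun a' ha' => (h2 a' ha').1)
            (fun _ _ _ => by positivity)
    rw [sum_const, Int.card_Ico, nsmul_eq_mul] at h6
    have h7 : ((b + 2 * (r : ℤ) ^ 2 - b).toNat : ℝ) = 2 * (r : ℝ) ^ 2 := by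
      have : (b + 2 * (r : ℤ) ^ 2 - b).toNat = 2 * r ^ 2 := by
        have h5 : ((2 * r ^ 2 : ℕ) : ℤ) = 2 * (r : ℤ) ^ 2 := by push_cast; ring
        omega
      rw [this]
      push_cast
      ring
    rw [h7] at h6
    nlinarith
  have h8 : ∑ b ∈ Icc (-(4 * (r : ℤ) ^ 3)) (4 * (r : ℤ) ^ 3), 4 * (r : ℝ) ^ 4 ≤
      ∑ b ∈ I (2 * r), ∑ a' ∈ R (2 * r) b, (((R (2 * r) b).filter (· < a')).card : ℝ) := by
    refine (sum_le_sum h1).trans (sum_le_sum_of_subset_of_nonneg ?_ ?_)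
    · intro b hb
      unfold I
      rw [mem_Icc] at hb ⊢
      push_cast
      constructor <;> nlinarith
    · intro b _ _
      exact sum_nonneg fun _ _ => by positivity
  rw [sum_const, Int.card_Icc, nsmul_eq_mul] at h8
  have h9 : 8 * (r : ℝ) ^ 3 ≤ ((4 * (r : ℤ) ^ 3 + 1 - -(4 * (r : ℤ) ^ 3)).toNat : ℝ) := by
    have h5 : ((8 * r ^ 3 : ℕ) : ℤ) = 8 * (r : ℤ) ^ 3 := by push_cast; ring
    have : 8 * r ^ 3 ≤ (4 * (r : ℤ) ^ 3 + 1 - -(4 * (r : ℤ) ^ 3)).toNat := by omega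
    exact_mod_cast this
  have h10 : 8 * (r : ℝ) ^ 3 * (4 * (r : ℝ) ^ 4) ≤
      ((4 * (r : ℤ) ^ 3 + 1 - -(4 * (r : ℤ) ^ 3)).toNat : ℝ) * (4 * (r : ℝ) ^ 4) :=
    mul_le_mul_of_nonneg_right h9 (by positivity)
  nlinarith

/-- The digraphs of the ellipses. -/
theorem ell_realizes {r : ℕ} (hr : 1 ≤ r) : ∃ m : ℕ, 64 * (r : ℝ) ^ 7 ≤ m ∧
    (m : ℝ) ≤ 6912 * (r : ℝ) ^ 7 ∧ Realizes (fun k => k ≤ 1) m (288 * (r : ℝ) ^ 5) := by
  have ht : 1 ≤ 2 * r := by omega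
  set m : ℕ := ∑ u : {v // v ∈ V (2 * r)}, ∑ v : {v // v ∈ V (2 * r)}, mu u.1 v.1 with hm
  have hmr : (m : ℝ) = ∑ u ∈ V (2 * r), ∑ v ∈ V (2 * r), (mu u v : ℝ) := by
    rw [hm]
    push_cast
    rw [← sum_coe_sort (V (2 * r)) (fun u => ∑ v ∈ V (2 * r), (mu u v : ℝ))]
    refine sum_congr rfl fun u _ => ?_
    rw [← sum_coe_sort (V (2 * r)) (fun v => (mu u v : ℝ))]
  refine ⟨m, by rw [hmr]; exact arcs_ge hr, ?_, ?_⟩
  · rw [hmr]
    refine (arcs_le ht).trans (le_of_eq ?_)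
    push_cast
    ring
  refine ⟨{v // v ∈ V (2 * r)}, FinsetCoe.fintype (V (2 * r)), inferInstance,
    fun u v => mu u.1 v.1, ?_, ?_, rfl, ?_⟩
  · have key : ∀ x y : {v // v ∈ V (2 * r)},
        Relation.TransGen (fun x y => mu x.1 y.1 ≠ 0) x y →
        x.1.1 + x.1.2 < y.1.1 + y.1.2 := by
      have one : ∀ x y : {v // v ∈ V (2 * r)}, mu x.1 y.1 ≠ 0 →
          x.1.1 + x.1.2 < y.1.1 + y.1.2 := by
        intro x y h
        unfold mu at h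
        by_contra hcon
        apply h
        rw [if_neg]
        omega
      intro x y hxy
      induction hxy with
      | single hb => exact one _ _ hb
      | tail _ hc ih => exact ih.trans (one _ _ hc)
    intro v hv
    exact lt_irrefl _ (key v v hv)
  · intro u v
    beta_reduce
    unfold mu
    split_ifs <;> omega
  · intro X
    classical
    set x : ℤ × ℤ → ℝ := fun v => if h : v ∈ V (2 * r) then (if (⟨v, h⟩ : {v // v ∈ V (2 * r)}) ∈ X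
      then 1 else -1) else 1 with hxdef
    have hx : ∀ u : {v // v ∈ V (2 * r)}, x u.1 = if u ∈ X then 1 else -1 := by
      intro u
      simp only [hxdef]
      rw [dif_pos u.2]
    have hx2 : ∀ v, x v ^ 2 = 1 := by
      intro v
      simp only [hxdef]
      split_ifs <;> norm_num
    have h1 := cut_le ht x hx2
    have h2 : ((∑ u ∈ X, ∑ v ∈ Xᶜ, mu u.1 v.1 : ℕ) : ℝ) =
        ∑ u ∈ V (2 * r), ∑ v ∈ V (2 * r), (mu u v : ℝ) * ((1 + x u) * (1 - x v) / 4) := by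
      push_cast
      rw [← sum_coe_sort (V (2 * r)) (fun u => ∑ v ∈ V (2 * r), (mu u v : ℝ) *
        ((1 + x u) * (1 - x v) / 4))]
      rw [← sum_subset (subset_univ X)]
      · refine sum_congr rfl fun u hu => ?_
        rw [← sum_coe_sort (V (2 * r)) (fun v => (mu u v : ℝ) * ((1 + x u) * (1 - x v) / 4))]
        rw [← sum_subset (subset_univ Xᶜ)]
        · refine sum_congr rfl fun v hv => ?_
          have hv' : v ∉ X := by simpa using hv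
          rw [hx u, hx v, if_pos hu, if_neg hv']
          norm_num
        · intro v _ hv
          have hv' : v ∈ X := by simpa using hv
          rw [hx v, if_pos hv']
          simp
      · intro u _ hu
        refine sum_eq_zero fun v _ => ?_
        rw [hx u, if_neg hu]
        simp
    rw [h2]
    have h3 : ∑ u ∈ V (2 * r), ∑ v ∈ V (2 * r), (mu u v : ℝ) * ((1 + x u) * (1 - x v) / 4) =
        (1 / 4) * ∑ u ∈ V (2 * r), ∑ v ∈ V (2 * r), (mu u v : ℝ) +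
        (1 / 4) * ∑ u ∈ V (2 * r), ∑ v ∈ V (2 * r), (mu u v : ℝ) *
          ((1 + x u) * (1 - x v) - 1) := by
      rw [mul_sum, mul_sum, ← sum_add_distrib]
      refine sum_congr rfl fun u _ => ?_
      rw [mul_sum, mul_sum, ← sum_add_distrib]
      refine sum_congr rfl fun v _ => ?_
      ring
    rw [h3, ← hmr]
    have h4 : (36 : ℝ) * ((2 * r : ℕ) : ℝ) ^ 5 = 1152 * (r : ℝ) ^ 5 := by
      push_cast
      ring
    rw [h4] at h1
    linarith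

end Pool.Agent.H62.DC.Ell
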