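import Mathlib
import Pool.Agent.H62.DC.DefsN
import Pool.Agent.H62.DC.EllGraph

/-!
# The upper bound for simple acyclic digraphs
-/

set_option autoImplicit false

namespace Pool.Agent.H62.DC

open Finset

/-- The bound for all numbers of arcs from a bound for a sequence of sizes. -/
theorem realizes_pow {P : ℕ → Prop} (hP : P 0) (hP1 : P 1) {a b C c E : ℕ} (ha : 0 < a)
    (hb : 0 < b) (hc : 0 < c) (hC : 0 < C)
    (h : ∀ r : ℕ, 1 ≤ r → ∃ m : ℕ, (r : ℝ) ^ a / c ≤ m ∧ (m : ℝ) ≤ C * (r : ℝ) ^ a ∧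
      Realizes P m (E * (r : ℝ) ^ b)) :
    ∃ K : ℝ, ∀ m : ℕ, Realizes P m (K * (m : ℝ) ^ ((b : ℝ) / a)) := by
  have ha' : (0 : ℝ) < a := by exact_mod_cast ha
  have hb' : (0 : ℝ) < b := by exact_mod_cast hb
  have hc' : (1 : ℝ) ≤ c := by exact_mod_cast hc
  have hC' : (1 : ℝ) ≤ C := by exact_mod_cast hC
  refine realizes_all hP hP1 (δ := 1 / (2 ^ a * c * C)) (E := E) (m0 := C) (by positivity)
    (by positivity) ?_ (by positivity) fun m hm => ?_
  · rw [div_le_one (by positivity)]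
    have : (1 : ℝ) ≤ 2 ^ a := one_le_pow₀ (by norm_num)
    calc (1 : ℝ) = 1 * 1 * 1 := by norm_num
      _ ≤ 2 ^ a * c * C := by gcongr
  · have hm' : (C : ℝ) ≤ m := by exact_mod_cast hm
    have hm0 : (0 : ℝ) < m := by linarith
    set ρ : ℝ := ((m : ℝ) / C) ^ (1 / (a : ℝ)) with hρ
    have hρ0 : 0 ≤ ρ := by positivity
    have hρa : ρ ^ a = m / C := by
      rw [hρ, ← Real.rpow_natCast, ← Real.rpow_mul (by positivity), one_div_mul_cancel ha'.ne',
        Real.rpow_one]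
    have hρ1 : 1 ≤ ρ := Real.one_le_rpow ((one_le_div (by linarith)).2 hm') (by positivity)
    set r := ⌊ρ⌋₊ with hr
    have hr1 : 1 ≤ r := Nat.le_floor (by exact_mod_cast hρ1)
    have hrρ : (r : ℝ) ≤ ρ := Nat.floor_le hρ0
    have hρr : ρ ≤ 2 * r := by
      have h1 := Nat.lt_floor_add_one ρ
      have h2 : (1 : ℝ) ≤ r := by exact_mod_cast hr1
      linarith
    obtain ⟨m', h1, h2, h3⟩ := h r hr1
    have e1 : (r : ℝ) ^ a ≤ m / C := by
      rw [← hρa]
      exact pow_le_pow_left₀ (by positivity) hrρ a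
    have e2 : (m : ℝ) / C ≤ 2 ^ a * (r : ℝ) ^ a := by
      rw [← hρa, ← mul_pow]
      exact pow_le_pow_left₀ hρ0 hρr a
    refine ⟨m', ?_, ?_, h3.mono ?_⟩
    · have : (m' : ℝ) ≤ m := by
        rw [le_div_iff₀ (by linarith)] at e1
        linarith
      exact_mod_cast this
    · refine le_trans ?_ h1
      rw [le_div_iff₀ (by linarith)]
      rw [div_le_iff₀ (by linarith)] at e2
      have : 1 / (2 ^ a * (c : ℝ) * C) * m * c = m / (2 ^ a * C) := by
        field_simp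
      rw [this, div_le_iff₀ (by positivity)]
      linarith
    · refine mul_le_mul_of_nonneg_left ?_ (by positivity)
      have e3 : (r : ℝ) ^ b ≤ ρ ^ b := pow_le_pow_left₀ (by positivity) hrρ b
      refine e3.trans ?_
      rw [hρ, ← Real.rpow_natCast, ← Real.rpow_mul (by positivity)]
      have e4 : 1 / (a : ℝ) * b = (b : ℝ) / a := by ring
      rw [e4]
      refine Real.rpow_le_rpow (by positivity) ?_ (by positivity)
      exact div_le_self hm0.le hC'

theorem simple_upper : ∃ K : ℝ, ∀ m : ℕ, (hSimple m : ℝ) ≤ m / 4 + K * (m : ℝ) ^ (5 / 7 : ℝ) := by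
  obtain ⟨K, hK⟩ := realizes_pow (P := fun k => k ≤ 1) (by norm_num) (by norm_num) (a := 7)
    (b := 5) (C := 6912) (c := 1) (E := 288) (by norm_num) (by norm_num) (by norm_num)
    (by norm_num) (fun r hr => by
      obtain ⟨m, h1, h2, h3⟩ := Ell.ell_realizes hr
      refine ⟨m, ?_, by push_cast; linarith, by push_cast; exact h3⟩
      push_cast
      have : (0 : ℝ) ≤ (r : ℝ) ^ 7 := by positivity
      linarith)
  refine ⟨K, fun m => ?_⟩
  obtain ⟨n, μ, h1, h2, h3, h4⟩ := (hK m).toFin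
  set S : Set ℕ := {k : ℕ | ∀ (n : ℕ) (μ : Fin n → Fin n → ℕ), AcyclicN μ →
    (∀ u v, μ u v ≤ 1) → ∑ u, ∑ v, μ u v = m → ∃ X : Finset (Fin n), k ≤ cutSize μ X} with hS
  have hb : BddAbove S := by
    refine ⟨m, fun k hk => ?_⟩
    obtain ⟨X, hX⟩ := hk n μ h1 h2 h3
    refine hX.trans ?_
    unfold cutSize
    rw [← h3]
    calc ∑ u ∈ X, ∑ v ∈ Xᶜ, μ u v ≤ ∑ u ∈ X, ∑ v, μ u v :=
          sum_le_sum fun u _ => sum_le_sum_of_subset (subset_univ _)
      _ ≤ ∑ u, ∑ v, μ u v := sum_le_sum_of_subset (subset_univ _)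
  have hne : S.Nonempty := ⟨0, fun _ _ _ _ _ => ⟨∅, Nat.zero_le _⟩⟩
  obtain ⟨X, hX⟩ := Nat.sSup_mem hne hb n μ h1 h2 h3
  have h5 := h4 X
  have h6 : ((sSup S : ℕ) : ℝ) ≤ (cutSize μ X : ℝ) := by exact_mod_cast hX
  have h7 : ((5 : ℕ) : ℝ) / ((7 : ℕ) : ℝ) = 5 / 7 := by norm_num
  rw [h7] at h5
  exact h6.trans h5

end Pool.Agent.H62.DC
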