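import Mathlib
import Pool.Agent.H62.DC.DefsN
import Pool.Agent.H62.DC.ChainM

/-!
# The upper bound for acyclic directed multigraphs
-/

set_option autoImplicit false

namespace Pool.Agent.H62.DC

open Finset

/-- The sizes in between, with an increasing factor. -/
theorem realizes_allL {P : ℕ → Prop} (hP : P 0) (hP1 : P 1) {α δ E : ℝ} {m0 : ℕ} {L : ℕ → ℝ}
    (hL1 : ∀ m, 1 ≤ L m) (hLm : Monotone L)
    (hα : 0 < α) (hδ : 0 < δ) (hδ1 : δ ≤ 1) (hE : 0 ≤ E)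
    (h : ∀ m : ℕ, m0 ≤ m → ∃ m' : ℕ, m' ≤ m ∧ δ * m ≤ m' ∧
      Realizes P m' (E * (m : ℝ) ^ α * L m)) :
    ∃ K : ℝ, 0 ≤ K ∧ ∀ m : ℕ, Realizes P m (K * (m : ℝ) ^ α * L m) := by
  set θ : ℝ := (1 - δ) ^ α with hθ
  have hθ1 : θ < 1 := Real.rpow_lt_one (by linarith) (by linarith) hα
  have hθ0 : 0 ≤ θ := by positivity
  set K : ℝ := m0 + E / (1 - θ) with hK
  have h1θ : 0 < 1 - θ := by linarith
  have hEθ : 0 ≤ E / (1 - θ) := by positivity
  have hK0 : 0 ≤ K := by positivity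
  refine ⟨K, hK0, fun m => ?_⟩
  induction m using Nat.strong_induction_on with
  | _ m ih =>
    rcases Nat.eq_zero_or_pos m with h0 | hpos
    · subst h0
      have h5 : (K * ((0 : ℕ) : ℝ) ^ α * L 0) = 0 := by
        rw [Nat.cast_zero, Real.zero_rpow hα.ne', mul_zero, zero_mul]
      rw [h5]
      exact realizes_zero P
    have hm1 : (1 : ℝ) ≤ m := by exact_mod_cast hpos
    have hmα : (1 : ℝ) ≤ (m : ℝ) ^ α := Real.one_le_rpow hm1 hα.le
    have hLm1 := hL1 m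
    rcases Nat.lt_or_ge m m0 with hlt | hge
    · refine (realizes_small hP hP1 m).mono ?_
      have h6 : (m : ℝ) ≤ m0 := by exact_mod_cast hlt.le
      have h7 : (m0 : ℝ) ≤ K := by rw [hK]; linarith
      calc (m : ℝ) ≤ K * 1 * 1 := by linarith
        _ ≤ K * (m : ℝ) ^ α * L m := by gcongr
    · obtain ⟨m', hm', hδm, hreal⟩ := h m hge
      have hm'pos : 0 < m' := by
        have : (0 : ℝ) < m' := lt_of_lt_of_le (by positivity) hδm
        exact_mod_cast this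
      have h8 := hreal.add hP (ih (m - m') (by omega))
      have h9 : m' + (m - m') = m := by omega
      rw [h9] at h8
      refine h8.mono ?_
      have h10 : ((m - m' : ℕ) : ℝ) ≤ (1 - δ) * m := by
        rw [Nat.cast_sub hm']
        linarith
      have h11 : ((m - m' : ℕ) : ℝ) ^ α ≤ θ * (m : ℝ) ^ α := by
        rw [hθ, ← Real.mul_rpow (by linarith) (by positivity)]
        exact Real.rpow_le_rpow (by positivity) h10 hα.le
      have h12 : K * ((m - m' : ℕ) : ℝ) ^ α * L (m - m') ≤ K * (θ * (m : ℝ) ^ α) * L m := by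
        refine mul_le_mul (mul_le_mul_of_nonneg_left h11 hK0) (hLm (by omega))
          (by linarith [hL1 (m - m')]) (by positivity)
      have h13 : E ≤ K * (1 - θ) := by
        rw [hK, add_mul, div_mul_cancel₀ _ h1θ.ne']
        have : 0 ≤ (m0 : ℝ) * (1 - θ) := by positivity
        linarith
      have h14 : E * ((m : ℝ) ^ α * L m) ≤ K * (1 - θ) * ((m : ℝ) ^ α * L m) :=
        mul_le_mul_of_nonneg_right h13 (by positivity)
      nlinarith

/-- The logarithmic factor. -/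
noncomputable def Lg (m : ℕ) : ℝ := (Real.log (m + 3)) ^ (6 / 5 : ℝ)

theorem log_three : 1 ≤ Real.log 3 := by
  rw [Real.le_log_iff_exp_le (by norm_num)]
  exact le_trans Real.exp_one_lt_d9.le (by norm_num)

theorem log_ge (m : ℕ) : 1 ≤ Real.log (m + 3) := by
  refine log_three.trans (Real.log_le_log (by norm_num) ?_)
  have : (0 : ℝ) ≤ m := Nat.cast_nonneg m
  linarith

theorem Lg_ge (m : ℕ) : 1 ≤ Lg m := Real.one_le_rpow (log_ge m) (by norm_num)

theorem Lg_mono : Monotone Lg := by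
  intro a b hab
  unfold Lg
  refine Real.rpow_le_rpow (by linarith [log_ge a]) ?_ (by norm_num)
  refine Real.log_le_log (by positivity) ?_
  have : (a : ℝ) ≤ b := by exact_mod_cast hab
  linarith

/-- The sizes. -/
def Fsz (t : ℕ) : ℕ := 130000000 * ((3 * t + 24) ^ 3 * 32 ^ t)

theorem Fsz_step (t : ℕ) : Fsz (t + 1) ≤ 64 * Fsz t := by
  unfold Fsz
  have h : (3 * (t + 1) + 24) ^ 3 ≤ 2 * (3 * t + 24) ^ 3 := by
    nlinarith [Nat.zero_le t, Nat.zero_le (t ^ 2), Nat.zero_le (t ^ 3)]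
  calc 130000000 * ((3 * (t + 1) + 24) ^ 3 * 32 ^ (t + 1)) =
        130000000 * 32 * 32 ^ t * (3 * (t + 1) + 24) ^ 3 := by ring
    _ ≤ 130000000 * 32 * 32 ^ t * (2 * (3 * t + 24) ^ 3) := Nat.mul_le_mul_left _ h
    _ = _ := by ring

theorem Fsz_gt (t : ℕ) : t < Fsz t := by
  unfold Fsz
  have h1 : t < 32 ^ t := t.lt_pow_self (by norm_num)
  have h2 : 1 ≤ (3 * t + 24) ^ 3 := Nat.one_le_pow _ _ (by omega)
  nlinarith

theorem exists_size {m : ℕ} (hm : Fsz 6 ≤ m) : ∃ t, 6 ≤ t ∧ Fsz t ≤ m ∧ m < Fsz (t + 1) := by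
  classical
  have h1 : Fsz 6 ≤ m := hm
  have h6 : 6 ≤ m := (Fsz_gt 6).le.trans hm
  have h2 := Nat.findGreatest_spec (P := fun t => Fsz t ≤ m) h6 h1
  have h3 := Nat.le_findGreatest (P := fun t => Fsz t ≤ m) h6 h1
  set t := Nat.findGreatest (fun t => Fsz t ≤ m) m with ht
  refine ⟨t, h3, h2, ?_⟩
  by_contra hcon
  push Not at hcon
  have h4 : t + 1 ≤ m := (Fsz_gt (t + 1)).le.trans hcon
  have h5 := Nat.le_findGreatest (P := fun t => Fsz t ≤ m) h4 hcon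
  rw [← ht] at h5
  omega

theorem family_two {t : ℕ} (ht : 6 ≤ t) : ∃ m : ℕ,
    100000 * (((3 * t + 24 : ℕ) : ℝ) ^ 3 * 32 ^ t) ≤ m ∧ m ≤ Fsz t ∧
      Realizes (fun _ => True) m (70000000 * (((3 * t + 24 : ℕ) : ℝ) ^ 3 * 8 ^ t)) := by
  have hq : 50 ≤ 2 ^ t := by
    calc 50 ≤ 2 ^ 6 := by norm_num
      _ ≤ 2 ^ t := Nat.pow_le_pow_right (by norm_num) ht
  have hh : (1 / 2 : ℝ) ^ (3 * t + 24 - 1) * (480 * ((3 * t + 24 : ℕ) : ℝ) *
      ((2 ^ t : ℕ) : ℝ) ^ 2) / 4 ≤ 1 := by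
    have e1 : 3 * t + 24 - 1 = 3 * t + 23 := by omega
    rw [e1]
    have h1 : (t : ℝ) + 1 ≤ 2 ^ t := by
      have : t + 1 ≤ 2 ^ t := Nat.lt_pow_self (by norm_num)
      exact_mod_cast this
    have h2 : (1 / 2 : ℝ) ^ (3 * t + 23) * (480 * ((3 * t + 24 : ℕ) : ℝ) *
        ((2 ^ t : ℕ) : ℝ) ^ 2) / 4 = (360 * (t + 8)) / (2 ^ 23 * 2 ^ t) := by
      rw [one_div, inv_pow]
      push_cast
      rw [pow_add, pow_mul]
      have : ((2 : ℝ) ^ 3) ^ t = 2 ^ t * 2 ^ t * 2 ^ t := by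
        rw [← mul_pow, ← mul_pow]
        norm_num
      rw [this]
      field_simp
      ring
    rw [h2, div_le_one (by positivity)]
    have h3 : (0 : ℝ) ≤ t := Nat.cast_nonneg t
    nlinarith
  obtain ⟨m, h1, h2, h3⟩ := familyM (J := 3 * t + 24) (q := 2 ^ t) (by omega) hq hh
  have e5 : ((2 ^ t : ℕ) : ℝ) ^ 5 = 32 ^ t := by
    push_cast
    rw [← pow_mul, mul_comm, pow_mul]
    norm_num
  have e3 : ((2 ^ t : ℕ) : ℝ) ^ 3 = 8 ^ t := by
    push_cast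
    rw [← pow_mul, mul_comm, pow_mul]
    norm_num
  rw [e5] at h1 h2
  rw [e3] at h3
  refine ⟨m, h1, ?_, h3⟩
  have h4 : (m : ℝ) ≤ ((Fsz t : ℕ) : ℝ) := by
    refine h2.trans (le_of_eq ?_)
    unfold Fsz
    push_cast
    ring
  exact_mod_cast h4

theorem multi_realizes : ∃ K : ℝ, 0 ≤ K ∧ ∀ m : ℕ,
    Realizes (fun _ => True) m (K * (m : ℝ) ^ (3 / 5 : ℝ) * Lg m) := by
  refine realizes_allL (P := fun _ => True) trivial trivial (L := Lg) (m0 := Fsz 6)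
    (δ := 1 / 83200) (E := 70000000 * 7 ^ (6 / 5 : ℝ)) Lg_ge Lg_mono (by norm_num) (by norm_num)
    (by norm_num) (by positivity) fun m hm => ?_
  obtain ⟨t, ht, hF1, hF2⟩ := exists_size hm
  obtain ⟨m', h1, h2, h3⟩ := family_two ht
  have hF : (m : ℝ) ≤ 64 * (Fsz t : ℝ) := by
    have := hF2.le.trans (Fsz_step t)
    exact_mod_cast this
  have hFe : (Fsz t : ℝ) = 130000000 * (((3 * t + 24 : ℕ) : ℝ) ^ 3 * 32 ^ t) := by
    unfold Fsz
    push_cast
    ring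
  refine ⟨m', h2.trans hF1, ?_, h3.mono ?_⟩
  · rw [hFe] at hF
    linarith
  · set J : ℝ := ((3 * t + 24 : ℕ) : ℝ) with hJ
    have htr : (6 : ℝ) ≤ t := by exact_mod_cast ht
    have hJe : J = 3 * t + 24 := by rw [hJ]; push_cast; ring
    have hJ0 : 0 < J := by rw [hJe]; linarith
    have hX : J ^ 3 * 32 ^ t ≤ m := by
      have a1 : (Fsz t : ℝ) ≤ m := by exact_mod_cast hF1
      rw [hFe] at a1
      have : 0 ≤ J ^ 3 * 32 ^ t := by positivity
      linarith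
    have hm32 : (32 : ℝ) ^ t ≤ m := by
      refine le_trans ?_ hX
      have : (1 : ℝ) ≤ J ^ 3 := one_le_pow₀ (by rw [hJe]; linarith)
      have h32 : (0 : ℝ) ≤ 32 ^ t := by positivity
      nlinarith
    -- the logarithm
    have hlog : J ≤ 7 * Real.log (m + 3) := by
      have a1 : Real.log ((32 : ℝ) ^ t) ≤ Real.log (m + 3) :=
        Real.log_le_log (by positivity) (by linarith)
      rw [Real.log_pow] at a1
      have a2 : 1 ≤ Real.log 32 := log_three.trans (Real.log_le_log (by norm_num) (by norm_num))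
      have a3 : (t : ℝ) * 1 ≤ t * Real.log 32 := mul_le_mul_of_nonneg_left a2 (by linarith)
      rw [hJe]
      linarith
    have hJ65 : J ^ (6 / 5 : ℝ) ≤ 7 ^ (6 / 5 : ℝ) * Lg m := by
      unfold Lg
      rw [← Real.mul_rpow (by norm_num) (by linarith [log_ge m])]
      exact Real.rpow_le_rpow hJ0.le hlog (by norm_num)
    have hm35 : J ^ (9 / 5 : ℝ) * 8 ^ t ≤ (m : ℝ) ^ (3 / 5 : ℝ) := by
      have a1 : (J ^ 3 * 32 ^ t) ^ (3 / 5 : ℝ) ≤ (m : ℝ) ^ (3 / 5 : ℝ) :=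
        Real.rpow_le_rpow (by positivity) hX (by norm_num)
      refine le_trans (le_of_eq ?_) a1
      rw [Real.mul_rpow (by positivity) (by positivity), ← Real.rpow_natCast J 3,
        ← Real.rpow_mul hJ0.le, ← Real.rpow_natCast 32 t, ← Real.rpow_mul (by norm_num),
        ← Real.rpow_natCast 8 t]
      congr 1
      · norm_num
      · have e1 : (32 : ℝ) = 2 ^ (5 : ℝ) := by
          rw [show (5 : ℝ) = ((5 : ℕ) : ℝ) by norm_num, Real.rpow_natCast]
          norm_num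
        have e2 : (8 : ℝ) = 2 ^ (3 : ℝ) := by
          rw [show (3 : ℝ) = ((3 : ℕ) : ℝ) by norm_num, Real.rpow_natCast]
          norm_num
        rw [e1, e2, ← Real.rpow_mul (by norm_num), ← Real.rpow_mul (by norm_num)]
        congr 1
        ring
    have hJs : J ^ 3 = J ^ (6 / 5 : ℝ) * J ^ (9 / 5 : ℝ) := by
      rw [← Real.rpow_add hJ0, ← Real.rpow_natCast J 3]
      congr 1
      norm_num
    calc 70000000 * (J ^ 3 * 8 ^ t) =
          70000000 * (J ^ (6 / 5 : ℝ) * (J ^ (9 / 5 : ℝ) * 8 ^ t)) := by rw [hJs]; ring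
      _ ≤ 70000000 * ((7 ^ (6 / 5 : ℝ) * Lg m) * (m : ℝ) ^ (3 / 5 : ℝ)) := by
          refine mul_le_mul_of_nonneg_left ?_ (by norm_num)
          exact mul_le_mul hJ65 hm35 (by positivity)
            (mul_nonneg (by positivity) (by linarith [Lg_ge m]))
      _ = _ := by ring

theorem multi_upper : ∃ K : ℝ, ∀ m : ℕ, 2 ≤ m →
    (hMulti m : ℝ) ≤ m / 4 + K * ((m : ℝ) ^ (3 / 5 : ℝ) * (Real.log m) ^ (6 / 5 : ℝ)) := by
  obtain ⟨K, hK0, hK⟩ := multi_realizes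
  refine ⟨K * 3 ^ (6 / 5 : ℝ), fun m hm => ?_⟩
  obtain ⟨n, μ, h1, h2, h3, h4⟩ := (hK m).toFin
  set S : Set ℕ := {k : ℕ | ∀ (n : ℕ) (μ : Fin n → Fin n → ℕ), AcyclicN μ →
    ∑ u, ∑ v, μ u v = m → ∃ X : Finset (Fin n), k ≤ cutSize μ X} with hS
  have hb : BddAbove S := by
    refine ⟨m, fun k hk => ?_⟩
    obtain ⟨X, hX⟩ := hk n μ h1 h3
    refine hX.trans ?_
    unfold cutSize
    rw [← h3]
    calc ∑ u ∈ X, ∑ v ∈ Xᶜ, μ u v ≤ ∑ u ∈ X, ∑ v, μ u v :=
          sum_le_sum fun u _ => sum_le_sum_of_subset (subset_univ _)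
      _ ≤ ∑ u, ∑ v, μ u v := sum_le_sum_of_subset (subset_univ _)
  have hne : S.Nonempty := ⟨0, fun _ _ _ _ => ⟨∅, Nat.zero_le _⟩⟩
  obtain ⟨X, hX⟩ := Nat.sSup_mem hne hb n μ h1 h3
  have h5 := h4 X
  have h6 : ((sSup S : ℕ) : ℝ) ≤ (cutSize μ X : ℝ) := by exact_mod_cast hX
  have h7 : Lg m ≤ 3 ^ (6 / 5 : ℝ) * (Real.log m) ^ (6 / 5 : ℝ) := by
    have hmr : (2 : ℝ) ≤ m := by exact_mod_cast hm
    have hl0 : 0 ≤ Real.log m := Real.log_nonneg (by linarith)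
    unfold Lg
    rw [← Real.mul_rpow (by norm_num) hl0]
    refine Real.rpow_le_rpow (by linarith [log_ge m]) ?_ (by norm_num)
    have : 3 * Real.log m = Real.log ((m : ℝ) ^ 3) := by
      rw [Real.log_pow]
      norm_num
    rw [this]
    refine Real.log_le_log (by linarith) ?_
    nlinarith [mul_nonneg (by linarith : (0 : ℝ) ≤ m - 2) (by linarith : (0 : ℝ) ≤ m),
      mul_nonneg (mul_nonneg (by linarith : (0 : ℝ) ≤ m - 2) (by linarith : (0 : ℝ) ≤ m))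
        (by linarith : (0 : ℝ) ≤ m)]
  have h8 : K * (m : ℝ) ^ (3 / 5 : ℝ) * Lg m ≤
      K * (m : ℝ) ^ (3 / 5 : ℝ) * (3 ^ (6 / 5 : ℝ) * (Real.log m) ^ (6 / 5 : ℝ)) :=
    mul_le_mul_of_nonneg_left h7 (by positivity)
  have h9 : (hMulti m : ℝ) ≤ (cutSize μ X : ℝ) := h6
  refine h9.trans (h5.trans ?_)
  linarith

end Pool.Agent.H62.DC
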