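import Mathlib
import Pool.Agent.H62.DC.EllAll

/-!
# Maximum directed cuts of acyclic digraphs: the upper bound `m / 4 + O(m ^ (5 / 7))`

The digraph has the lattice points of a thin ellipse around the diagonal as its vertices and the
arcs to the right and upwards.
-/

set_option autoImplicit false

namespace Pool.Agent.Results.MP_ac065a_co.SimpleUpper

open Pool.Agent.H62.DC

theorem result : ∃ K : ℝ, ∀ m : ℕ, (hSimple m : ℝ) ≤ m / 4 + K * (m : ℝ) ^ (5 / 7 : ℝ) :=
  simple_upper

end Pool.Agent.Results.MP_ac065a_co.SimpleUpper
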