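import Mathlib
import Pool.Agent.H62.DC.Tent

/-!
# The upper bound for all total weights
-/

set_option autoImplicit false

namespace Pool.Agent.H62.DC

open Finset

theorem dicut_le_total {n : ℕ} (a : Fin n → Fin n → ℝ) (h : ∀ u v, 0 ≤ a u v)
    (X : Finset (Fin n)) : dicut a X ≤ ∑ u, ∑ v, a u v := by
  unfold dicut
  calc ∑ u ∈ X, ∑ v ∈ Xᶜ, a u v ≤ ∑ u ∈ X, ∑ v, a u v :=
        sum_le_sum fun u _ => sum_le_sum_of_subset_of_nonneg (subset_univ _) fun v _ _ => h u v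
    _ ≤ ∑ u, ∑ v, a u v :=
        sum_le_sum_of_subset_of_nonneg (subset_univ _) fun u _ _ => sum_nonneg fun v _ => h u v

/-- One arc. -/
theorem one_arc {w : ℝ} (hw : 1 ≤ w) : ∃ (N : ℕ) (a : Fin N → Fin N → ℝ), Acyclic a ∧
    (∀ u v, a u v = 0 ∨ 1 ≤ a u v) ∧ ∑ u, ∑ v, a u v = w := by
  refine ⟨2, fun u v => if u < v then w else 0, ?_, ?_, ?_⟩
  · refine acyclic_of_lt fun u v h => ?_
    by_contra hcon
    simp only [if_neg hcon] at h
    exact h rfl
  · intro u v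
    by_cases h : u < v
    · right
      simp only [if_pos h]
      exact hw
    · left
      simp only [if_neg h]
  · simp

theorem upper : ∃ K : ℝ, ∀ w : ℝ, 1 ≤ w → ∃ (N : ℕ) (a : Fin N → Fin N → ℝ), Acyclic a ∧
    (∀ u v, a u v = 0 ∨ 1 ≤ a u v) ∧ ∑ u, ∑ v, a u v = w ∧
    ∀ X, dicut a X ≤ w / 4 + K * w ^ (3 / 5 : ℝ) := by
  refine ⟨50000 * 34 ^ 5, fun w hw => ?_⟩
  have hw0 : 0 < w := by linarith
  have hw35 : 1 ≤ w ^ (3 / 5 : ℝ) := Real.one_le_rpow hw (by norm_num)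
  rcases lt_or_ge w (50000 * 34 ^ 5) with h | h
  · obtain ⟨N, a, h1, h2, h3⟩ := one_arc hw
    refine ⟨N, a, h1, h2, h3, fun X => ?_⟩
    have h4 := dicut_le_total a (fun u v => by rcases h2 u v with h5 | h5 <;> linarith) X
    rw [h3] at h4
    nlinarith
  · set r : ℝ := (w / 50000) ^ (1 / 5 : ℝ) with hr
    have hr5 : r ^ 5 = w / 50000 := by
      rw [hr, ← Real.rpow_natCast, ← Real.rpow_mul (by positivity)]
      norm_num
    have hr0 : 0 ≤ r := by positivity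
    have hr34 : 34 ≤ r := by
      by_contra hcon
      push Not at hcon
      have : r ^ 5 < 34 ^ 5 := pow_lt_pow_left₀ hcon hr0 (by norm_num)
      rw [hr5] at this
      rw [div_lt_iff₀ (by norm_num)] at this
      linarith
    set q := ⌊r⌋₊ with hq
    have hqr : (q : ℝ) ≤ r := Nat.floor_le hr0
    have hrq : r < q + 1 := Nat.lt_floor_add_one r
    have hq34 : 34 ≤ q := Nat.le_floor (by exact_mod_cast hr34)
    have hq34' : (34 : ℝ) ≤ q := by exact_mod_cast hq34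
    obtain ⟨N, w0, hw1, hw2, hw3⟩ := family_graphs (q := q) (by omega)
    have hq5 : (q : ℝ) ^ 5 ≤ w / 50000 := by
      rw [← hr5]
      exact pow_le_pow_left₀ (by linarith) hqr 5
    have hw0q : w0 ≤ w := by
      have : 50000 * (q : ℝ) ^ 5 ≤ w := by
        rw [le_div_iff₀ (by norm_num)] at hq5
        linarith
      linarith
    have hw0p : 0 < w0 := lt_of_lt_of_le (by positivity) hw1
    have hκ : 1 ≤ w / w0 := (one_le_div hw0p).2 hw0q
    have hκ2 : w / w0 ≤ 2100 := by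
      rw [div_le_iff₀ hw0p]
      have h5 : w / 50000 < (q + 1 : ℝ) ^ 5 := by
        rw [← hr5]
        exact pow_lt_pow_left₀ hrq hr0 (by norm_num)
      have h6 : (q + 1 : ℝ) ^ 5 ≤ 2 * (q : ℝ) ^ 5 := by
        have h7 : (q + 1 : ℝ) ≤ 35 / 34 * q := by linarith
        calc (q + 1 : ℝ) ^ 5 ≤ (35 / 34 * q) ^ 5 := pow_le_pow_left₀ (by positivity) h7 5
          _ = (35 / 34) ^ 5 * (q : ℝ) ^ 5 := by ring
          _ ≤ 2 * (q : ℝ) ^ 5 := mul_le_mul_of_nonneg_right (by norm_num) (by positivity)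
      rw [div_lt_iff₀ (by norm_num)] at h5
      nlinarith
    obtain ⟨a, ha1, ha2, ha3, ha4⟩ := hw3 (w / w0) hκ
    have hmul : w / w0 * w0 = w := div_mul_cancel₀ w hw0p.ne'
    rw [hmul] at ha3 ha4
    refine ⟨N, a, ha1, ha2, ha3, fun X => (ha4 X).trans ?_⟩
    have hq3 : (q : ℝ) ^ 3 ≤ w ^ (3 / 5 : ℝ) := by
      have h8 : (q : ℝ) ^ 3 = ((q : ℝ) ^ 5) ^ (3 / 5 : ℝ) := by
        rw [← Real.rpow_natCast, ← Real.rpow_natCast, ← Real.rpow_mul (by positivity)]
        norm_num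
      rw [h8]
      refine Real.rpow_le_rpow (by positivity) ?_ (by norm_num)
      have : w / 50000 ≤ w := div_le_self hw0.le (by norm_num)
      linarith
    have h9 : w / w0 * (17500 * (q : ℝ) ^ 3) ≤ 2100 * (17500 * (q : ℝ) ^ 3) :=
      mul_le_mul_of_nonneg_right hκ2 (by positivity)
    nlinarith

end Pool.Agent.H62.DC
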