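import Mathlib
import Pool.Agent.H62.DC.UpperAll

/-!
# Maximum directed cuts of acyclic weighted digraphs: the upper bound `w / 4 + O(w ^ (3 / 5))`
-/

set_option autoImplicit false

namespace Pool.Agent.Results.MP_ac065a_co.WeightedOrder

open Pool.Agent.H62.DC

theorem result : ∃ K : ℝ, ∀ w : ℝ, 1 ≤ w → hOmega w ≤ w / 4 + K * w ^ (3 / 5 : ℝ) := by
  obtain ⟨K, hK⟩ := upper
  refine ⟨K, fun w hw => ?_⟩
  obtain ⟨N, a, h1, h2, h3, h4⟩ := hK w hw
  refine csSup_le ⟨0, fun n b _ hb _ => ⟨∅, by simp [dicut]⟩⟩ fun g hg => ?_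
  obtain ⟨X, hX⟩ := hg N a h1 h2 h3
  exact hX.trans (h4 X)

end Pool.Agent.Results.MP_ac065a_co.WeightedOrder
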